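import Pool.Agent.Lib.ZE.Blue
import Pool.Agent.Lib.ZK49.Tay
import Pool.Agent.Lib.ZK.B_KIT

/-! Project ze: the classes. -/

open scoped Classical Topology ContDiff ComplexOrder Matrix
open Set MeasureTheory

noncomputable section

namespace Pool.Agent.Lib.ZE

open Pool.Agent.Lib.HS32
open Pool.Agent.Lib.ZK (Env Sol)

namespace KT

variable {n : ℕ} {M : Mf n} {H S T : M.Fam (Mat n)}

/-- The determinant is monotone on semipositive forms. -/
theorem dq_le (hH : M.Met H) (hS : M.Le 0 S) (hT : M.Met T) (h : M.Le S T) (x : M.X) :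
    M.dq H S x ≤ M.dq H T x := by
  have p : (M.ev S x).PosSemidef := by
    have := Mf.AllOn.ch hS x
    simp only [Pi.zero_apply, sub_zero] at this
    exact this
  by_cases h0 : (M.ev S x).det = 0
  · have := (((mINV n M H hH).2.2.2.2.2.2.2 _ hT).1 x).le
    rwa [Mf.dq, h0, zero_div, Complex.zero_re]
  · exact ZK49.dq_mono hH (p.posDef_iff_det_ne_zero.2 h0) (Mf.AllOn.ch h x)

variable {ι : Type} [Fintype ι] (D : Dt M ι)

theorem clo (e e' : ℝ) : M.Clo (D.th e e') :=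
  (D.cT.add (D.cβ.smul e)).add (D.kae.toClo.smul e')

theorem bmono {a b : ℝ} (h : a ≤ b) : M.Le (a • D.β) (b • D.β) := by
  have := D.nβ.smul (sub_nonneg.2 h)
  rw [smul_zero, sub_smul] at this
  exact Mf.le_iff_sub.2 this

theorem mono {e₁ e₁' e₂ e₂' : ℝ} (h : e₁ ≤ e₂) (h' : e₁' ≤ e₂') :
    M.Le (D.th e₁ e₁') (D.th e₂ e₂') :=
  ((Mf.Le.refl _).add (bmono D h)).add (D.kae.toMet.le_smul h')

theorem kae {e e' : ℝ} {ψ : M.X → ℝ} (he' : 0 < e') (s : M.Sm ψ)
    (h : M.Le 0 (D.T + e • D.β + M.hs ψ)) : M.Kae (D.th e e' + M.hs ψ) := by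
  have c := (clo D e e').add ((mHES n M).1 ψ s)
  have h3 := h.add (Mf.Le.refl (e' • D.H))
  rw [zero_add, add_right_comm] at h3
  exact ⟨c, ((D.kae.toMet.smul he').of_le c.toForm h3).pos⟩

end KT

open KT in
theorem zKT : St_KT := by
  intro n M _ ι _ D
  have hH := D.kae.toMet
  obtain ⟨C, hC, hb, -⟩ := (mBD n M D.H hH).1 D.β D.cβ.toForm
  have key : ∀ s e e' : ℝ, 0 ≤ e → e * C + e' ≤ s → M.Le (D.th e e') (D.T + s • D.H) :=
    fun s e e' h h' => by
    have h1 := (hb.smul h).add (Mf.Le.refl (e' • D.H))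
    rw [smul_smul, ← add_smul] at h1
    rw [Dt.th, add_assoc]
    exact (Mf.Le.refl D.T).add (h1.trans (hH.le_smul h'))
  have fo : ∀ (s : ℝ) ψ, M.Sm ψ → M.Clo (D.T + s • D.H + M.hs ψ) := fun s ψ h =>
    (D.cT.add (D.kae.toClo.smul s)).add ((mHES n M).1 ψ h)
  refine ⟨clo D, ?_, fun e he e' he' => ?_, fun e₁ e₁' e₂ e₂' ψ h h' s m => ?_,
    fun a ha e he => ?_, fun k hk e he => ?_, fun e he => ?_,
    fun s hs => ⟨s / (C + 1), by positivity, fun e he e' he' ψ hψ m => ?_⟩⟩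
  · obtain ⟨C₀, -, h, -⟩ := (mBD n M D.H hH).1 _ (clo D 1 1).toForm
    exact ⟨C₀, fun e he e' he' => (mono D he.2 he'.2).trans h⟩
  · obtain ⟨ψ, -, -, s, h, -⟩ := D.nef e he
    exact ⟨ψ, s, kae D he' s h⟩
  · have m' := m.of_le ((clo D e₂ e₂').add ((mHES n M).1 ψ s)).toForm
      ((mono D h h').add (Mf.Le.refl _))
    exact ⟨m', m'.nonneg⟩
  · obtain ⟨ψ, -, -, s, h, -⟩ := D.nef e he.1
    obtain ⟨B, hB, b⟩ := s.exists_bound
    refine ⟨2 * B + 1, fun e' he' x => ?_⟩
    have a' := ha e he e' he'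
    have h1 := a'.mx (fun y => ψ y - B) (s.sub (Mf.sm_const B))
      ((kae D he'.1 s h).toMet.congr fun c hc z hz => by
        have l := (mLAP n M ψ _ s (Mf.sm_const B)).1 B c hc z hz
        simp only [Pi.add_apply, l.2.2.1, l.1, sub_zero])
      (fun y => sub_nonpos.2 (le_of_abs_le (b y))) x
    have h2 := neg_le_of_abs_le (b x)
    rw [abs_le]
    constructor <;> linarith [a'.np x, he'.2]
  · obtain ⟨ψ, -, -, s, h, -⟩ := D.nef (e / 2) (half_pos he)
    refine ⟨(k * (e / 2)) ^ n * ∫ x, M.dq D.H D.β x ∂M.mu D.H,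
      mul_pos (by positivity) D.vol, fun e' he' V F w hw => ?_⟩
    have c := (clo D e e').smul k
    have int : ∀ T, M.Ten T → Integrable (M.dq D.H T) (M.mu D.H) := fun T hT =>
      (mMU n M D.H hH).2.2.2.2.1 ℝ _ ((mINV n M D.H hH).1 T hT).2.2.2.1.continuous
    have e1 : ∫ x, M.dq D.H (k • D.th e e' + M.hs w) x ∂M.mu D.H = V := by
      simp only [hw.eq, integral_const_mul, hw.one, mul_one]
    have h0 : M.Le ((e / 2) • D.β) (D.T + e • D.β + M.hs ψ) := by
      have := h.add (Mf.Le.refl ((e / 2) • D.β))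
      rwa [zero_add, add_right_comm, add_assoc D.T, ← add_smul, add_halves] at this
    have b0 : ∀ r : ℝ, 0 ≤ r → M.Le 0 (r • D.β) := fun r hr => by simpa using bmono D hr
    have m := (kae D he' s ((b0 _ (half_pos he).le).trans h0)).toMet
    have h1 : M.Le ((e / 2) • D.β) (D.th e e' + M.hs ψ) := by
      have := h0.add (hH.smul he').nonneg
      rwa [add_zero, add_right_comm] at this
    have h2 := h1.smul hk.le
    rw [smul_smul] at h2
    rw [← e1, mCOH n M D.H _ w hH c hw.sm, ← mCOH n M D.H _ _ hH c (s.const_mul k),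
      Mf.dq_congr (fun _ _ _ _ => rfl) (ZK.KIT.hs_mul s k), ← integral_const_mul]
    refine integral_mono ((int _ D.cβ.toTen).const_mul _) (int _ (m.smul hk).toTen) fun x => ?_
    have := dq_le hH (b0 _ (by positivity)) (m.smul hk) h2 x
    rwa [Mf.dq_smul] at this
  · obtain ⟨ψ, -, -, s, h, -⟩ := D.nef (e / 2 / C) (by positivity)
    exact ⟨ψ, s, fo e ψ s, ((kae D (half_pos he) s h).toMet.of_le (fo e ψ s).toForm
      ((key e _ _ (by positivity) (by rw [div_mul_cancel₀ _ hC.ne']; linarith)).add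
        (Mf.Le.refl _))).pos⟩
  · have h1 : s / (C + 1) * C + s / (C + 1) = s := by field_simp
    exact m.of_le (fo s ψ hψ).toForm ((key s e e' he.1.le (by
      linarith [mul_le_mul_of_nonneg_right he.2 hC.le, he'.2])).add (Mf.Le.refl _))

end Pool.Agent.Lib.ZE
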