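import Pool.Agent.Lib.ZE.Blue
import Pool.Agent.Lib.ZE45.Kit

/-! Project ze, row OR2: the exceptional divisors are almost orthogonal to the class. -/

open scoped Classical Topology ContDiff ComplexOrder Matrix
open Set MeasureTheory Complex Filter

noncomputable section

namespace Pool.Agent.Lib.ZE

open Pool.Agent.Lib.HS32 Pool.Agent.Lib.DM
open Pool.Agent.Lib.DX (ta mx)

namespace OR2

variable {n : ℕ} {M : Mf n} {H T S : M.Fam (Mat n)} {u : M.X → ℝ}

theorem ta_real (hH : M.Met H) (hT : M.Form T) (hS : M.Form S) (x : M.X) :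
    (ta M H T S x : ℂ) = ((M.ev T x).adjugate * M.ev S x).trace / (M.ev H x).det := by
  have t : (M.ev T x).IsHermitian := Mf.AllOn.ch hT.herm x
  have s : (M.ev S x).IsHermitian := Mf.AllOn.ch hS.herm x
  refine conj_eq_iff_re.1 ?_
  have h1 := Matrix.trace_conjTranspose ((M.ev T x).adjugate * M.ev S x)
  have h2 := Matrix.det_conjTranspose (M.ev H x)
  rw [Matrix.conjTranspose_mul, Matrix.adjugate_conjTranspose, t.eq, s.eq,
    Matrix.trace_mul_comm] at h1
  rw [(hH.ev_pos x).1.eq] at h2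
  rw [map_div₀]
  exact congrArg₂ _ h1.symm h2.symm

theorem mx_smul (c : ℝ) : mx M H (c • T) S = c ^ (n - 1) * mx M H T S := by
  rw [mx, mx, ← integral_const_mul]
  refine integral_congr_ae (ae_of_all _ fun x => ?_)
  have e : M.ev (c • T) x = (c : ℂ) • M.ev T x := (coe_smul c _).symm
  simp only [ta, e, Matrix.adjugate_smul, Fintype.card_fin, Matrix.smul_mul, Matrix.trace_smul,
    smul_eq_mul, mul_div_assoc, ← ofReal_pow, re_ofReal_mul]

variable [M.Cpt]

open Polynomial in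
theorem der (hH : M.Met H) (hT : M.Form T) (hS : M.Form S) :
    HasDerivAt (fun t : ℝ => ∫ x, M.dq H (T + t • S) x ∂M.mu H) (mx M H T S) 0 := by
  have hF : ∀ t : ℝ, M.Form (T + t • S) := fun t => hT.add (hS.smul t)
  have hdq : ∀ (t : ℝ) x, ((M.dq H (T + t • S) x : ℝ) : ℂ) =
      (BCOH.pl (M.ev T x) (M.ev S x) * C (M.ev H x).det⁻¹).eval (t : ℂ) := fun t x => by
    have h := ((mINV n M H hH).2.1 _ (hF t) (M.ch x) (Mf.ch_mem x) _ (Mf.ch_tgt x)).2.1
    rw [Mf.ch_symm] at h
    rw [h, eval_mul, eval_C, BCOH.pl_eval, div_eq_mul_inv]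
    rfl
  have h := K63.poly_der (M.mu H)
    (fun x => BCOH.pl (M.ev T x) (M.ev S x) * C (M.ev H x).det⁻¹) n
    (fun x => (natDegree_mul_C_le _ _).trans ((natDegree_det_X_add_C_le _ _).trans (by simp)))
    (fun t => by
      simp only [← hdq]
      exact (K63.int hH (K63.dq_c hH (hF t).toTen)).ofReal) 0
  have e : ∀ x, (derivative (BCOH.pl (M.ev T x) (M.ev S x) * C (M.ev H x).det⁻¹)).eval
      ((0 : ℝ) : ℂ) = ((ta M H T S x : ℝ) : ℂ) := fun x => by
    rw [derivative_mul, derivative_C, mul_zero, add_zero, eval_mul, eval_C, BCOH.pl_deriv,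
      ofReal_zero, zero_smul, add_zero, ta_real hH hT hS, div_eq_mul_inv]
  simp only [← hdq, e, integral_complex_ofReal] at h
  exact reCLM.hasFDerivAt.comp_hasDerivAt (0 : ℝ) h

/-- The mixed volume depends only on the class. -/
theorem pol (hH : M.Met H) (hT : M.Clo T) (hS : M.Clo S) (hu : M.Sm u) :
    mx M H (T + M.hs u) S = mx M H T S := by
  have h1 := der hH hT.toForm hS.toForm
  have h2 := der hH (hT.add ((mHES n M).1 u hu)).toForm hS.toForm
  have e : (fun t : ℝ => ∫ x, M.dq H (T + M.hs u + t • S) x ∂M.mu H) =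
      fun t : ℝ => ∫ x, M.dq H (T + t • S) x ∂M.mu H := funext fun t => by
    rw [add_right_comm]
    exact mCOH n M H (T + t • S) u hH (hT.add (hS.smul t)) hu
  rw [e] at h2
  exact h2.unique h1

end OR2

open OR2 in
theorem zOR2 : St_OR2 := by
  intro n M _ ι _ D k e η hk he hη
  have hH := D.kae.toMet
  obtain ⟨ψ, C, C0, s, h0, h1⟩ := D.nef e he
  have c0 : 0 < k * (C + 1) := by positivity
  have c1 := pow_pos c0 (n - 1)
  have ev : ∀ᶠ ε in 𝓝[>] (0 : ℝ), ∀ i, 0 < D.κ i → ∫ x, M.tr (D.β + ε • D.H) (D.Θ i) x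
      ∂M.mu (D.β + ε • D.H) ≤ η / (k * (C + 1)) ^ (n - 1) := eventually_all.2 fun i => by
    by_cases hi : 0 < D.κ i
    · exact (D.ort i hi _ (div_pos hη c1)).mono fun _ h _ => h
    · exact .of_forall fun _ h => absurd h hi
  obtain ⟨r, hr, hb⟩ := mem_nhdsGT_iff_exists_Ioc_subset.1 ev
  refine ⟨r, hr, fun e' he' i hi => ?_⟩
  have p : 0 < k * e' := mul_pos hk he'.1
  have p' : 0 < e' / (C + 1) := div_pos he'.1 (by positivity)
  have cT : M.Clo (k • D.th e e') :=
    ((D.cT.add (D.cβ.smul e)).add (D.kae.toClo.smul e')).smul k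
  have s' := s.const_mul k
  have cG := cT.add ((mHES n M).1 _ s')
  have eq : M.All fun a z => (k • D.th e e' + M.hs fun x => k * ψ x) a z =
      (k • (D.T + e • D.β + M.hs ψ) + (k * e') • D.H) a z := fun a ha z hz => by
    have := ((mLAP n M ψ ψ s s).1 k a ha z hz).2.2.2.1
    simp only [Dt.th, Pi.add_apply, Pi.smul_apply, this, smul_add, mul_smul]
    abel
  have l0 := (h0.smul hk.le).add (Mf.Le.refl ((k * e') • D.H))
  have l1 := ((h1.smul hk.le).add (D.nβ.smul hk.le)).add (Mf.Le.refl ((k * e') • D.H))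
  have l2 := D.nβ.add (Mf.Le.refl ((e' / (C + 1)) • D.H))
  rw [smul_zero, zero_add] at l0
  rw [zero_add] at l2
  have q : k • C • D.β + k • D.β + (k * e') • D.H =
      (k * (C + 1)) • (D.β + (e' / (C + 1)) • D.H) := by
    rw [smul_add, smul_smul, smul_smul, mul_assoc, mul_div_cancel₀ _ (by positivity), mul_add,
      mul_one, add_smul]
  rw [smul_zero, add_zero, q] at l1
  have mG := (hH.smul p).of_le cG.toForm (l0.congr (fun _ _ _ _ => rfl) eq)
  have cB := D.cβ.add (D.kae.toClo.smul (e' / (C + 1)))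
  have mB := (hH.smul p').of_le cB.toForm l2
  have d := (ZE45.bridge hH (D.sg i)).deg_le ⟨cG, mG.pos⟩ ⟨cB.smul _, (mB.smul c0).pos⟩
    (l1.congr eq fun _ _ _ _ => rfl)
  rw [← ZE45.mx_met hH mG, ← ZE45.mx_met hH (mB.smul c0), pol hH cT (D.sg i).clo s',
    mx_smul (k * (C + 1)), ZE45.mx_met hH mB] at d
  refine d.trans ?_
  rw [← le_div_iff₀' c1]
  exact hb ⟨p', (div_le_self he'.1.le (by linarith)).trans he'.2⟩ i hi

end Pool.Agent.Lib.ZE
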