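import Pool.Agent.Lib.ZE.Blue
import Pool.Agent.Lib.NV5.X_KXA

/-! Project ze, row QQ: the error form. -/

open scoped Classical Topology ContDiff ComplexOrder Matrix ENNReal
open Set MeasureTheory Filter

set_option linter.unusedVariables false

noncomputable section

namespace Pool.Agent.Lib.ZE

open Pool.Agent.Lib.HS32
open Pool.Agent.Lib.ZK (fm)
open Pool.Agent.Lib.DX (fl la Sg)
open Pool.Agent.Lib.DM.K63 (pk le0)

namespace QQ

variable {n : ℕ} {M : Mf n} {H Θ : M.Fam (Mat n)} {σ : M.X → ℝ}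

/-- The bridge between the two structures. -/
theorem bridge [M.Cpt] (hH : M.Met H) (h : Sg M Θ σ) : DM.K63.Sg M σ Θ := by
  have eqn : M.All fun e z => σ (e.symm z) • pk M σ Θ e z = M.ds σ σ e z := fun e he z hz => by
    have k := h.eq e he z hz
    beta_reduce at k ⊢
    rw [← k, pk, smul_add, smul_smul, pow_two]
  refine ⟨h.sm, h.nn, ?_, h.clo, le0.2 fun e he z hz => ?_, eqn⟩
  · by_contra k
    push Not at k
    have h0 := h.nul H hH
    have e : {x | σ x = 0} = univ := eq_univ_of_forall k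
    rw [e] at h0
    have := (mMU n M H hH).2.2.2.1
    rw [Measure.real, h0] at this
    simp at this
  · rcases (h.nn (e.symm z)).eq_or_lt with p | p
    · have m : IsLocalMin σ (e.symm z) := Eventually.of_forall fun y => by
        rw [← p]; exact h.nn y
      have k := ((((mLAP n M σ σ h.sm h.sm).2.2 H hH).2.2.1 (e.symm z) 0).2.2.2.2.2.2.2.2.2 m).2.2
        e he (e.map_target hz)
      rw [e.right_inv hz] at k
      rw [pk, ← p, zero_smul, add_zero]
      exact k
    · have k := Mf.psd_rsmul (le0.1 ((mHES n M).2.2.1 σ h.sm).2 e he z hz) (inv_pos.2 p).le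
      have q := eqn e he z hz
      beta_reduce at q
      rwa [← q, smul_smul, inv_mul_cancel₀ p.ne', one_smul] at k

theorem form_sum {ι : Type} (s : Finset ι) (T : ι → M.Fam (Mat n)) (h : ∀ i ∈ s, M.Form (T i)) :
    M.Form (∑ i ∈ s, T i) := by
  induction s using Finset.induction_on with
  | empty => rw [Finset.sum_empty]; exact Mf.form_zero
  | insert a s ha ih =>
    rw [Finset.sum_insert ha]
    exact (h a (Finset.mem_insert_self a s)).add (ih fun i hi => h i (Finset.mem_insert_of_mem hi))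

theorem hs_sum {ι : Type} (s : Finset ι) (f : ι → M.X → ℝ) (c : ι → ℝ) (h : ∀ i, M.Sm (f i)) :
    M.All fun e z => M.hs (fun x => ∑ i ∈ s, c i * f i x) e z = ∑ i ∈ s, c i • M.hs (f i) e z := by
  induction s using Finset.induction_on with
  | empty =>
    intro e he z hz
    simpa using ((mLAP n M (fun _ => 0) (fun _ => 0) (Mf.sm_const 0) (Mf.sm_const 0)).1 0 e he z hz).1
  | insert a s ha ih =>
    intro e he z hz
    have hs : M.Sm fun x => ∑ i ∈ s, c i * f i x := Mf.Sm.sum fun i _ => (h i).const_mul (c i)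
    have k1 := ((mLAP n M _ _ ((h a).const_mul (c a)) hs).1 0 e he z hz).2.1
    have k2 := ((mLAP n M _ _ (h a) (h a)).1 (c a) e he z hz).2.2.2.1
    have k3 := ih e he z hz
    beta_reduce at k1 k2 k3 ⊢
    simp only [Finset.sum_insert ha]
    rw [k1, k2, k3]

end QQ

open QQ in
theorem zQQ : St_QQ := by
  intro n M _ ι _ D
  have hH := D.kae.toMet
  have sg := fun i => bridge hH (D.sg i)
  choose c c0 _ hc using fun i => (mBD n M D.H hH).1 (D.Θ i) (D.sg i).clo.toForm
  set C := ∑ i, |D.κ i| * c i with hC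
  have hCi : ∀ i, |D.κ i| * c i ≤ C := fun i =>
    Finset.single_le_sum (f := fun i => |D.κ i| * c i)
      (fun j _ => mul_nonneg (abs_nonneg _) (c0 j).le) (Finset.mem_univ i)
  refine ⟨C, Finset.sum_nonneg fun j _ => mul_nonneg (abs_nonneg _) (c0 j).le, fun d hd => ?_⟩
  have hf : ∀ i, M.Sm (fl (D.σ i) d) := fun i => (sg i).lsm hd
  have hl : ∀ i, M.Sm (la (D.σ i) d) := fun i => (sg i).lam hd
  have key : ∀ k : ι → ℝ, (∀ i, 0 ≤ k i) → (∀ i, k i ≤ |D.κ i|) → M.All fun e z =>
      (∑ i, k i • (D.Θ i e z + M.hs (fl (D.σ i) d) e z) +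
        (C * ∑ i, la (D.σ i) d (e.symm z)) • D.H e z).PosSemidef := fun k k0 k1 e he z hz => by
    beta_reduce
    rw [Finset.mul_sum, Finset.sum_smul, ← Finset.sum_add_distrib]
    refine Matrix.posSemidef_sum _ fun i _ => ?_
    have q := Mf.psd_rsmul (le0.1 ((sg i).qq hd (hc i)) e he z hz) (k0 i)
    have l0 : 0 ≤ la (D.σ i) d (e.symm z) := ((sg i).lam01 hd (e.symm z)).1
    have r := Mf.psd_rsmul (hH.pos e he z hz).posSemidef (c := (C - k i * c i) *
      la (D.σ i) d (e.symm z)) (mul_nonneg (sub_nonneg.2 ((mul_le_mul_of_nonneg_right (k1 i)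
        (c0 i).le).trans (hCi i))) l0)
    refine (congrArg Matrix.PosSemidef ?_).mp (q.add r)
    change k i • (M.hs (fl (D.σ i) d) e z + D.Θ i e z + la (D.σ i) d (e.symm z) • c i • D.H e z) +
      _ = _
    module
  have hQ : ∀ e z, D.Q C d e z = ∑ i, max (D.κ i) 0 • (D.Θ i e z + M.hs (fl (D.σ i) d) e z) +
      (C * ∑ i, la (D.σ i) d (e.symm z)) • D.H e z := fun e z => by
    simp only [Dt.Q, fm, Pi.add_apply, Finset.sum_apply, Pi.smul_apply]
  have hχ : M.Sm (D.χ d) := (Mf.Sm.sum fun i _ => (hf i).const_mul (D.κ i)).neg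
  refine ⟨hχ, ?_, le0.2 fun e he z hz => ?_, fun a a0 b b0 => le0.2 fun e he z hz => ?_⟩
  · exact (form_sum _ _ fun i _ => ((D.sg i).clo.toForm.add
      ((mHES n M).1 _ (hf i)).toForm).smul _).add
      (hH.toForm.fsmul ((Mf.Sm.sum fun i _ => hl i).const_mul C))
  · beta_reduce
    rw [hQ]
    exact key (fun i => max (D.κ i) 0) (fun i => le_max_right _ _)
      (fun i => max_le (le_abs_self _) (abs_nonneg _)) e he z hz
  · have k := key (fun i => max (D.κ i) 0 - D.κ i) (fun i => sub_nonneg.2 (le_max_left _ _))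
      (fun i => by
        rcases le_total (D.κ i) 0 with h | h
        · rw [max_eq_right h, abs_of_nonpos h, zero_sub]
        · rw [max_eq_left h, sub_self]; exact abs_nonneg _) e he z hz
    have k1 := Mf.psd_rsmul (le0.1 D.nβ e he z hz) a0
    have k2 := Mf.psd_rsmul (hH.pos e he z hz).posSemidef b0
    have hx : M.hs (D.χ d) e z = ∑ i, (-D.κ i) • M.hs (fl (D.σ i) d) e z := by
      rw [← hs_sum Finset.univ _ (fun i => -D.κ i) hf e he z hz]
      refine congrArg (fun f => M.hs f e z) (funext fun x => ?_)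
      simp only [Dt.χ, neg_mul, Finset.sum_neg_distrib]
    have ha : M.ric D.H e z = -(D.T e z + ∑ i, D.κ i • D.Θ i e z) :=
      eq_neg_of_add_eq_zero_right (D.adj e he z hz)
    refine (congrArg Matrix.PosSemidef ?_).mp ((k.add k1).add k2)
    simp only [Dt.th, Pi.add_apply, Pi.smul_apply, hQ, hx, ha, sub_smul, smul_add, neg_smul,
      Finset.sum_add_distrib, Finset.sum_sub_distrib, Finset.sum_neg_distrib]
    abel

end Pool.Agent.Lib.ZE
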