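import Pool.Agent.Lib.ZK.Blue
import Pool.Agent.Lib.NV5.DomX

/-! Blueprint of the project ze: zero Lelong numbers when the adjoint class is nef plus
exceptional, on a compact Kähler manifold. -/

open scoped Classical Topology ContDiff ComplexOrder Matrix ENNReal
open Set MeasureTheory Filter

set_option linter.unusedVariables false

noncomputable section

namespace Pool.Agent.Lib.ZE

open Pool.Agent.Lib.SV (E)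
open Pool.Agent.Lib.HS32
open Pool.Agent.Lib.ZK (fm Env ps Sol Dat)
open Pool.Agent.Lib.DX (ta mx fl la Sg)

section defs

variable {n : ℕ}

/-- A point of the product. -/
def cn (τ : ℂ) (z : E n) : E (n + 1) := Fin.cons τ z

/-- The last coordinates. -/
def tl (w : E (n + 1)) : E n := fun i => w i.succ

/-- A block matrix. -/
def blk (c : ℝ) (A : Mat n) : Mat (n + 1) := Matrix.of fun i j =>
  Fin.cases (Fin.cases (c : ℂ) (fun _ => 0) j) (fun i' => Fin.cases 0 (fun j' => A i' j') j) i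

/-- A quarter of the Laplacian in the plane. -/
def lp (u : ℂ → ℝ) (τ : ℂ) : ℝ :=
  (fderiv ℝ (fderiv ℝ u) τ 1 1 + fderiv ℝ (fderiv ℝ u) τ Complex.I Complex.I) / 4

/-- A fundamental domain of the lattice. -/
def box : Set ℂ := {τ | τ.re ∈ Ioc 0 (2 * Real.pi) ∧ τ.im ∈ Ioc 0 (2 * Real.pi)}

/-- The product with a torus. -/
structure Pd (M : Mf n) where
  Z : Mf (n + 1)
  cpt : Z.Cpt
  q : ℂ → M.X → Z.X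
  pr : Z.X → M.X
  sn : Z.X → ℝ
  pc : M.Ch → ℂ → Z.Ch
  cont : Continuous fun s : ℂ × M.X => q s.1 s.2
  surj : ∀ y, ∃ τ x, q τ x = y
  prq : ∀ τ x, pr (q τ x) = x
  snq : ∀ τ x, sn (q τ x) = Real.sin τ.re
  eqv : ∀ τ τ' x, q τ' x = q τ x ↔
    ∃ a b : ℤ, τ' = τ + (2 * Real.pi * a : ℝ) + (2 * Real.pi * b : ℝ) * Complex.I
  mem : ∀ e ∈ M.C, ∀ τ, pc e τ ∈ Z.C
  tgt : ∀ e ∈ M.C, ∀ τ w, w ∈ (pc e τ).target ↔ ‖w 0 - τ‖ < 1 ∧ tl w ∈ e.target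
  sym : ∀ e ∈ M.C, ∀ τ, ∀ w ∈ (pc e τ).target, (pc e τ).symm w = q (w 0) (e.symm (tl w))

attribute [instance] Pd.cpt

namespace Pd

variable {M : Mf n} (P : Pd M)

/-- The product charts. -/
def S : Set P.Z.Ch := {c | ∃ e ∈ M.C, ∃ τ, c = P.pc e τ}

/-- The tensor `T'` is the sum of `c` times the flat form and of the pull-back of `T`. -/
def Up (c : ℝ) (T : M.Fam (Mat n)) (T' : P.Z.Fam (Mat (n + 1))) : Prop :=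
  P.Z.Ten T' ∧ ∀ e ∈ M.C, ∀ τ, ∀ w ∈ (P.pc e τ).target, T' (P.pc e τ) w = blk c (T e (tl w))

/-- The sum of `c` times the flat form and of the pull-back of `T`. -/
def up (c : ℝ) (T : M.Fam (Mat n)) : P.Z.Fam (Mat (n + 1)) :=
  if h : ∃ T', P.Up c T T' then h.choose else 0

/-- The pull-back of a function. -/
def pb (f : M.X → ℝ) : P.Z.X → ℝ := fun y => f (P.pr y)

/-- The twisting weight on the product. -/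
def pz (p R : ℝ) (u a : M.X → ℝ) (y : P.Z.X) : ℝ := ps M p u a (R * P.sn y) (P.pr y)

/-- A solution of the equation on the product. -/
structure Sz (H α : M.Fam (Mat n)) (N N' V : ℝ) (F U : P.Z.X → ℝ) : Prop where
  sm : P.Z.Sm U
  kae : P.Z.Kae (P.up N' α + P.Z.hs U)
  eq : ∀ y, P.Z.dq (P.up 1 H) (P.up N' α + P.Z.hs U) y = N * V * Real.exp (U y - F y)

end Pd

/-- The data of the theorem. -/
structure Dt (M : Mf n) (ι : Type) [Fintype ι] where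
  H : M.Fam (Mat n)
  T : M.Fam (Mat n)
  β : M.Fam (Mat n)
  Θ : ι → M.Fam (Mat n)
  σ : ι → M.X → ℝ
  κ : ι → ℝ
  pos : 0 < n
  kae : M.Kae H
  cT : M.Clo T
  cβ : M.Clo β
  nβ : M.Le 0 β
  vol : 0 < ∫ x, M.dq H β x ∂M.mu H
  sg : ∀ i, Sg M (Θ i) (σ i)
  adj : M.All fun e z => T e z + ∑ i, κ i • Θ i e z + M.ric H e z = 0
  ort : ∀ i, 0 < κ i → ∀ η > (0 : ℝ), ∀ᶠ ε in 𝓝[>] (0 : ℝ),
    ∫ x, M.tr (β + ε • H) (Θ i) x ∂M.mu (β + ε • H) ≤ η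
  nef : ∀ e > (0 : ℝ), ∃ (ψ : M.X → ℝ) (C : ℝ), 0 ≤ C ∧ M.Sm ψ ∧ M.Le 0 (T + e • β + M.hs ψ) ∧
    M.Le (T + e • β + M.hs ψ) (C • β)
  klt : ∃ q δ C : ℝ, 1 < q ∧ 0 < δ ∧ ∀ d ∈ Ioc (0 : ℝ) 1,
    ∫ x, Real.exp (q * ∑ i, κ i * fl (σ i) d x) ∂M.mu H ≤ C ∧
    ∫ x, Real.exp (-(δ * ∑ i, κ i * fl (σ i) d x)) ∂M.mu H ≤ C

namespace Dt

variable {M : Mf n} {ι : Type} [Fintype ι] (D : Dt M ι)

/-- The class at the level `(e, e')`. -/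
def th (e e' : ℝ) : M.Fam (Mat n) := D.T + e • D.β + e' • D.H

/-- The regularised weight. -/
def χ (d : ℝ) (x : M.X) : ℝ := -∑ i, D.κ i * fl (D.σ i) d x

/-- The error form. -/
def Q (C d : ℝ) : M.Fam (Mat n) := ∑ i, max (D.κ i) 0 • (D.Θ i + M.hs (fl (D.σ i) d)) +
  fm M (fun x => C * ∑ i, la (D.σ i) d x) D.H

/-- A family of almost maximal potentials with two parameters. -/
def Fam (a : ℝ → ℝ → M.X → ℝ) : Prop :=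
  ∀ e ∈ Ioc (0 : ℝ) 1, ∀ e' ∈ Ioc (0 : ℝ) 1, Env M (D.th e e') (a e e') e'

end Dt

end defs

/-! ### Matrices and calculus -/

/-- Block matrices. -/
def St_BLK : Prop := ∀ n : ℕ,
  (∀ (c c' s : ℝ) (A B : Mat n), blk (c + c') (A + B) = blk c A + blk c' B ∧
    blk (c - c') (A - B) = blk c A - blk c' B ∧ blk (s * c) (s • A) = s • blk c A ∧
    blk (-c) (-A) = -blk c A ∧ blk 0 (0 : Mat n) = 0 ∧ blk 1 (1 : Mat n) = 1 ∧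
    blk c A * blk c' B = blk (c * c') (A * B) ∧ (blk c A)ᴴ = blk c Aᴴ ∧
    (blk c A).det = c * A.det ∧ (blk c A).trace = c + A.trace ∧ blk c A 0 0 = c ∧
    (c ≠ 0 → A.det ≠ 0 → (blk c A)⁻¹ = blk c⁻¹ A⁻¹) ∧
    ((blk c A).adjugate * blk 0 B).trace = c * (A.adjugate * B).trace ∧
    (A.IsHermitian → (blk c A).IsHermitian) ∧
    (0 ≤ c → A.PosSemidef → (blk c A).PosSemidef) ∧ (0 < c → A.PosDef → (blk c A).PosDef)) ∧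
  blk 1 (0 : Mat n) =
    Matrix.vecMulVec (star (Pi.single 0 1 : E (n + 1))) (Pi.single 0 1 : E (n + 1)) ∧
  ∀ G : Mat (n + 1), G.PosDef → (G⁻¹ * blk 1 0).trace = G⁻¹ 0 0 ∧ 0 < (G⁻¹ 0 0).re ∧
    1 / (G⁻¹ 0 0).re ≤ (G 0 0).re

/-- Calculus in the product. -/
def St_CAL : Prop := ∀ n : ℕ,
  (∀ (τ : ℂ) (z : E n), cn τ z 0 = τ ∧ tl (cn τ z) = z) ∧ (∀ w : E (n + 1), cn (w 0) (tl w) = w) ∧
  ContDiff ℝ ∞ (tl : E (n + 1) → E n) ∧ (∀ z : E n, ContDiff ℝ ∞ fun τ => cn τ z) ∧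
  (∀ (f g : E n → ℂ) (w : E (n + 1)), ContDiffAt ℝ ∞ f (tl w) → ContDiffAt ℝ ∞ g (tl w) →
    hess (fun v => f (tl v)) w = blk 0 (hess f (tl w)) ∧
    dd (fun v => f (tl v)) (fun v => g (tl v)) w = blk 0 (dd f g (tl w))) ∧
  (∀ (g : ℝ → ℝ) (w : E (n + 1)), ContDiff ℝ ∞ g →
    ContDiff ℝ ∞ (fun v : E (n + 1) => g (v 0).re) ∧
    hess (fun v => (g (v 0).re : ℂ)) w = blk (deriv (deriv g) (w 0).re / 4) 0) ∧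
  (∀ (U : E (n + 1) → ℝ) (τ : ℂ) (z : E n), ContDiffAt ℝ ∞ U (cn τ z) →
    (hess (fun v => (U v : ℂ)) (cn τ z) 0 0).re = lp (fun s => U (cn s z)) τ) ∧
  (∀ (c : ℝ) (T : E n → Mat n) (w : E (n + 1)), SmM T (tl w) →
    SmM (fun v => blk c (T (tl v))) w ∧ (ClM T (tl w) → ClM (fun v => blk c (T (tl v))) w)) ∧
  ∀ (ψ : E n → E n) (b : ℂ) (w : E (n + 1)), DifferentiableAt ℂ ψ (tl w) →
    DifferentiableAt ℂ (fun v => cn (v 0 + b) (ψ (tl v))) w ∧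
    jm (fun v => cn (v 0 + b) (ψ (tl v))) w = blk 1 (jm ψ (tl w))

/-! ### The product -/

/-- The product exists. -/
def St_PMK : Prop := ∀ (n : ℕ) (M : Mf n) [M.Cpt], Nonempty (Pd M)

/-- Charts and functions of the product. -/
def St_PKT : Prop := ∀ (n : ℕ) (M : Mf n) [M.Cpt] (P : Pd M), P.Z.Sub P.S ∧ Continuous P.pr ∧
  (∀ e ∈ M.C, ∀ τ₀ τ, ‖τ - τ₀‖ < 1 → ∀ x ∈ e.source,
    P.q τ x ∈ (P.pc e τ₀).source ∧ P.pc e τ₀ (P.q τ x) = cn τ (e x)) ∧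
  (∀ e ∈ M.C, ∀ τ₀, ∀ y ∈ (P.pc e τ₀).source, P.pr y ∈ e.source ∧ tl (P.pc e τ₀ y) = e (P.pr y) ∧
    y = P.q (P.pc e τ₀ y 0) (P.pr y)) ∧
  (∀ e ∈ M.C, ∀ e' ∈ M.C, ∀ τ τ', ∀ y ∈ (P.pc e τ).source, y ∈ (P.pc e' τ').source →
    P.Z.J (P.pc e τ) (P.pc e' τ') y = blk 1 (M.J e e' (P.pr y))) ∧
  (∀ f, M.Sm f → P.Z.Sm (P.pb f)) ∧
  (∀ g : ℝ → ℝ, ContDiff ℝ ∞ g → P.Z.Sm (fun y => g (P.sn y)) ∧ ∀ e ∈ M.C, ∀ τ,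
    ∀ w ∈ (P.pc e τ).target, P.Z.hs (fun y => g (P.sn y)) (P.pc e τ) w =
      blk (deriv (deriv fun s => g (Real.sin s)) (w 0).re / 4) 0) ∧
  ∀ U : P.Z.X → ℝ, P.Z.Sm U → ∀ x, ContDiff ℝ ∞ (fun τ => U (P.q τ x)) ∧
    ∀ τ, P.q (τ + (2 * Real.pi : ℝ) * Complex.I) x = P.q τ x

/-- The pull-back of forms. -/
def St_UPK : Prop := ∀ (n : ℕ) (M : Mf n) [M.Cpt] (P : Pd M),
  (∀ c T, M.Ten T → P.Up c T (P.up c T)) ∧ (∀ c T, M.Form T → P.Z.Form (P.up c T)) ∧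
  (∀ c T, M.Clo T → P.Z.Clo (P.up c T)) ∧ (∀ c T, 0 < c → M.Met T → P.Z.Met (P.up c T)) ∧
  (∀ c T, 0 < c → M.Kae T → P.Z.Kae (P.up c T)) ∧
  (∀ c c' T T', M.Ten T → M.Ten T' → (c ≤ c' → M.Le T T' → P.Z.Le (P.up c T) (P.up c' T')) ∧
    (0 ≤ c → M.Le 0 T → P.Z.Le 0 (P.up c T)) ∧
    ((M.All fun e z => T e z = T' e z) → P.Z.All fun e w => P.up c T e w = P.up c T' e w) ∧
    ∀ s : ℝ, P.Z.All fun e w => P.up (c + c') (T + T') e w = P.up c T e w + P.up c' T' e w ∧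
      P.up (s * c) (s • T) e w = s • P.up c T e w) ∧
  (∀ f g, M.Sm f → M.Sm g → P.Z.All fun e w => P.Z.hs (P.pb f) e w = P.up 0 (M.hs f) e w ∧
    P.Z.ds (P.pb f) (P.pb g) e w = P.up 0 (M.ds f g) e w) ∧
  (∀ f T, M.Sm f → M.Ten T → M.Ten (fm M f T) ∧
    P.Z.All fun e w => P.up 0 (fm M f T) e w = fm P.Z (P.pb f) (P.up 0 T) e w) ∧
  M.Clo 0

/-- The scalars of the pull-backs. -/
def St_UPS : Prop := ∀ (n : ℕ) (M : Mf n) [M.Cpt] (P : Pd M) (H : M.Fam (Mat n)), M.Met H →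
  (P.Z.All fun e w => P.Z.ric (P.up 1 H) e w = P.up 0 (M.ric H) e w) ∧
  ∀ c T S, M.Ten T → M.Ten S → ∀ y, P.Z.dq (P.up 1 H) (P.up c T) y = c * M.dq H T (P.pr y) ∧
    ta P.Z (P.up 1 H) (P.up c T) (P.up 0 S) y = c * ta M H T S (P.pr y)

/-- The theorem of Fubini. -/
def St_FUB : Prop := ∀ (n : ℕ) (M : Mf n) [M.Cpt] (P : Pd M) (H : M.Fam (Mat n)), M.Met H →
  P.Z.mu (P.up 1 H) =
    Measure.map (fun s : M.X × ℂ => P.q s.2 s.1) ((M.mu H).prod (volume.restrict box))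

/-- Consequences. -/
def St_FU2 : Prop := ∀ (n : ℕ) (M : Mf n) [M.Cpt] (P : Pd M) (H : M.Fam (Mat n)), M.Met H →
  (∀ g : M.X → ℝ, Integrable g (M.mu H) → Integrable (P.pb g) (P.Z.mu (P.up 1 H)) ∧
    ∫ y, P.pb g y ∂P.Z.mu (P.up 1 H) = (2 * Real.pi) ^ 2 * ∫ x, g x ∂M.mu H) ∧
  (∀ A : Set M.X, M.mu H A = 0 → P.Z.mu (P.up 1 H) (P.pr ⁻¹' A) = 0) ∧
  ∀ f : P.Z.X → ℝ, Continuous f → Continuous (fun x => ∫ τ in box, f (P.q τ x)) ∧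
    ∫ y, f y ∂P.Z.mu (P.up 1 H) = ∫ x, (∫ τ in box, f (P.q τ x)) ∂M.mu H

/-- The pull-back of the norm of a section. -/
def St_SGU : Prop := ∀ (n : ℕ) (M : Mf n) [M.Cpt] (P : Pd M) (H Θ : M.Fam (Mat n)) (σ : M.X → ℝ),
  M.Met H → Sg M Θ σ → Sg P.Z (P.up 0 Θ) (P.pb σ)

/-! ### The equation on the product -/

/-- The theorem of Aubin for a class. -/
def St_AUB : Prop := ∀ (n : ℕ) (M : Mf n) [M.Cpt] (H α : M.Fam (Mat n)) (φ F : M.X → ℝ), 0 < n →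
  M.Met H → M.Sm φ → M.Kae (α + M.hs φ) → M.Sm F →
  ∃ U, M.Sm U ∧ M.Kae (α + M.hs U) ∧ ∀ x, M.dq H (α + M.hs U) x = Real.exp (U x + F x)

/-- The twisting weight is plurisubharmonic. -/
def St_PZ : Prop := ∀ (n : ℕ) (M : Mf n) [M.Cpt] (P : Pd M) (ϑ : M.Fam (Mat n)) (p R : ℝ)
  (u a : M.X → ℝ), 0 ≤ p → 0 ≤ R → M.Form ϑ → M.Sm u → M.Sm a → M.Le 0 (ϑ + M.hs u) →
  M.Le 0 (ϑ + M.hs a) →
  P.Z.Sm (P.pz p R u a) ∧ P.Z.Le 0 (P.up (p * R / 4) (p • ϑ) + P.Z.hs (P.pz p R u a))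

/-- Existence on the product. -/
def St_SOL : Prop := ∀ (n : ℕ) (M : Mf n) [M.Cpt] (P : Pd M) (H α : M.Fam (Mat n)) (N N' V : ℝ)
  (φ : M.X → ℝ) (F : P.Z.X → ℝ), M.Met H → M.Clo α → M.Sm φ → M.Kae (α + M.hs φ) → 0 < N →
  0 < N' → 0 < V → P.Z.Sm F → ∃ U, P.Sz H α N N' V F U

/-- Comparison with the solutions at a fixed time. -/
def St_SAN : Prop := ∀ p R δ : ℝ, 0 ≤ p → 0 ≤ R → 0 < δ → ∃ N₀ > (0 : ℝ), ∀ N ≥ N₀,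
  ∀ (n : ℕ) (M : Mf n) [M.Cpt] (P : Pd M) (H α : M.Fam (Mat n)) (V t : ℝ) (u a χ w : M.X → ℝ)
    (U : P.Z.X → ℝ), M.Met H → M.Clo α → M.Sm u → M.Sm a →
    Sol M H α V (fun x => ps M p u a t x + χ x) w →
    P.Sz H α N (N + p * R / 4) V (fun y => P.pz p R u a y + χ (P.pr y)) U →
    ∀ y, |U y - w (P.pr y)| ≤ p * |R * P.sn y - t| + δ

/-- The Ricci form on the product. -/
def St_RZ : Prop := ∀ (n : ℕ) (M : Mf n) [M.Cpt] (P : Pd M) (H ϑ Q : M.Fam (Mat n)) (p R N V : ℝ)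
  (u a χ : M.X → ℝ) (U : P.Z.X → ℝ), 0 ≤ p → 0 ≤ R → 0 < N → 0 < V → M.Met H → M.Clo ϑ →
  M.Form Q → M.Sm u → M.Sm a → M.Sm χ → M.Le 0 (ϑ + M.hs u) → M.Le 0 (ϑ + M.hs a) →
  M.Le 0 (ϑ + M.ric H + M.hs χ + Q) →
  P.Sz H ((p + 1) • ϑ) N (N + p * R / 4) V (fun y => P.pz p R u a y + χ (P.pr y)) U →
  P.Z.Le (N • P.up 1 0 - (P.up (N + p * R / 4) ((p + 1) • ϑ) + P.Z.hs U) - P.up 0 Q)
    (P.Z.ric (P.up (N + p * R / 4) ((p + 1) • ϑ) + P.Z.hs U))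

/-- The inequality of Chern and Lu for the projection on the torus. -/
def St_CLZ : Prop := ∀ (n : ℕ) (M : Mf n) [M.Cpt] (P : Pd M) (G Q : P.Z.Fam (Mat (n + 1))) (N : ℝ),
  P.Z.Kae G → P.Z.Form Q → P.Z.Le 0 Q → P.Z.Le (N • P.up 1 0 - G - Q) (P.Z.ric G) →
  P.Z.Sm (P.Z.tr G (P.up 1 0)) ∧ ∀ y, 0 < P.Z.tr G (P.up 1 0) y ∧
    N * P.Z.tr G (P.up 1 0) y - 1 - P.Z.tr G Q y ≤
      P.Z.lap G (fun y => Real.log (P.Z.tr G (P.up 1 0) y)) y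

/-- Integration of the inequality. -/
def St_INT : Prop := ∀ (n : ℕ) (M : Mf n) [M.Cpt] (G : M.Fam (Mat n)) (f g : M.X → ℝ) (N : ℝ),
  M.Kae G → M.Sm f → Continuous g → 0 < N → (∀ x, 0 < f x ∧ 0 ≤ g x ∧
    N * f x - 1 - g x ≤ M.lap G (fun y => Real.log (f y)) x) →
  ∫ x, max (N * f x - 1) 0 ∂M.mu G ≤ ∫ x, g x ∂M.mu G

/-- The Laplacian along the torus. -/
def St_SLC : Prop := ∀ (n : ℕ) (M : Mf n) [M.Cpt] (P : Pd M) (α : M.Fam (Mat n)) (N K : ℝ)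
  (U : P.Z.X → ℝ), 0 < N → M.Ten α → P.Z.Sm U → P.Z.Met (P.up (N + K) α + P.Z.hs U) → ∀ τ x,
    -K - N * max (N * P.Z.tr (P.up (N + K) α + P.Z.hs U) (P.up 1 0) (P.q τ x) - 1) 0 ≤
      lp (fun s => U (P.q s x)) τ

/-- Three lines. -/
def St_TRI : Prop := ∀ (u j : ℂ → ℝ) (K b c A₀ A₁ A₂ : ℝ), ContDiff ℝ ∞ u → Continuous j →
  (∀ τ, u (τ + (2 * Real.pi : ℝ) * Complex.I) = u τ) → 0 ≤ K → 0 < b → b ≤ c → c ≤ 1 →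
  (∀ τ, 0 ≤ j τ ∧ -K - j τ ≤ lp u τ) → (∀ τ : ℂ, τ.re = 0 → u τ ≤ A₀) →
  (∀ τ : ℂ, τ.re = b → A₁ ≤ u τ) → (∀ τ : ℂ, τ.re = c → u τ ≤ A₂) →
  A₁ ≤ ((c - b) * A₀ + b * A₂) / c + 4 * K * c ^ 2 + ∫ τ in box, j τ

/-- The exceptional set. -/
def St_CHE : Prop := ∀ (n : ℕ) (M : Mf n) [M.Cpt] (P : Pd M) (H : M.Fam (Mat n))
  (G : P.Z.Fam (Mat (n + 1))) (j : P.Z.X → ℝ) (ν : M.X → ℝ) (c s δ : ℝ), M.Met H → P.Z.Met G →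
  Continuous j → Continuous ν → (∀ y, 0 ≤ j y) → (∀ x, 0 ≤ ν x) → 0 < c → 0 < δ →
  (∀ y, c * ν (P.pr y) ≤ P.Z.dq (P.up 1 H) G y) → ∫ y, j y ∂P.Z.mu G ≤ s →
  ∃ B : Set M.X, MeasurableSet B ∧ ∫ x in B, ν x ∂M.mu H ≤ s / (c * δ) ∧
    ∀ x ∉ B, ∫ τ in box, j (P.q τ x) ≤ δ

/-! ### The error -/

/-- The classes. -/
def St_KT : Prop := ∀ (n : ℕ) (M : Mf n) [M.Cpt] (ι : Type) [Fintype ι] (D : Dt M ι),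
  (∀ e e', M.Clo (D.th e e')) ∧
  (∃ C₀ : ℝ, ∀ e ∈ Ioc (0 : ℝ) 1, ∀ e' ∈ Ioc (0 : ℝ) 1, M.Le (D.th e e') (C₀ • D.H)) ∧
  (∀ e > (0 : ℝ), ∀ e' > (0 : ℝ), ∃ ψ, M.Sm ψ ∧ M.Kae (D.th e e' + M.hs ψ)) ∧
  (∀ e₁ e₁' e₂ e₂' ψ, e₁ ≤ e₂ → e₁' ≤ e₂' → M.Sm ψ → M.Met (D.th e₁ e₁' + M.hs ψ) →
    M.Met (D.th e₂ e₂' + M.hs ψ) ∧ M.Le 0 (D.th e₂ e₂' + M.hs ψ)) ∧
  (∀ a, D.Fam a → ∀ e ∈ Ioc (0 : ℝ) 1, ∃ B : ℝ, ∀ e' ∈ Ioc (0 : ℝ) 1, ∀ x, |a e e' x| ≤ B) ∧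
  (∀ k > (0 : ℝ), ∀ e > (0 : ℝ), ∃ c > (0 : ℝ), ∀ e' > (0 : ℝ), ∀ V F w,
    Sol M D.H (k • D.th e e') V F w → c ≤ V) ∧
  (∀ e > (0 : ℝ), ∃ ψ, M.Sm ψ ∧ M.Kae (D.T + e • D.H + M.hs ψ)) ∧
  ∀ s > (0 : ℝ), ∃ r > (0 : ℝ), ∀ e ∈ Ioc 0 r, ∀ e' ∈ Ioc 0 r, ∀ ψ, M.Sm ψ →
    M.Met (D.th e e' + M.hs ψ) → M.Met (D.T + s • D.H + M.hs ψ)

/-- The error form. -/
def St_QQ : Prop := ∀ (n : ℕ) (M : Mf n) [M.Cpt] (ι : Type) [Fintype ι] (D : Dt M ι),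
  ∃ C ≥ (0 : ℝ), ∀ d > (0 : ℝ), M.Sm (D.χ d) ∧ M.Form (D.Q C d) ∧ M.Le 0 (D.Q C d) ∧
    ∀ e ≥ (0 : ℝ), ∀ e' ≥ (0 : ℝ), M.Le 0 (D.th e e' + M.ric D.H + M.hs (D.χ d) + D.Q C d)

/-- The exceptional divisors are almost orthogonal to the class. -/
def St_OR2 : Prop := ∀ (n : ℕ) (M : Mf n) [M.Cpt] (ι : Type) [Fintype ι] (D : Dt M ι) (k e η : ℝ),
  0 < k → 0 < e → 0 < η → ∃ ε₀ > (0 : ℝ), ∀ e' ∈ Ioc 0 ε₀, ∀ i, 0 < D.κ i →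
    mx M D.H (k • D.th e e') (D.Θ i) ≤ η

/-- The integral of the error. -/
def St_S0 : Prop := ∀ (n : ℕ) (M : Mf n) [M.Cpt] (P : Pd M) (ι : Type) [Fintype ι] (D : Dt M ι)
  (k e N' C A s : ℝ), 0 < k → 0 < e → 0 < N' → 0 ≤ C → 0 < s → ∃ ε₀ > (0 : ℝ), ∀ e' ∈ Ioc 0 ε₀,
    ∃ d₀ > (0 : ℝ), ∀ d ∈ Ioc 0 d₀, ∀ U, P.Z.Sm U → P.Z.Kae (P.up N' (k • D.th e e') + P.Z.hs U) →
      (∀ y, |U y| ≤ A) → M.Form (D.Q C d) →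
      ∫ y, P.Z.tr (P.up N' (k • D.th e e') + P.Z.hs U) (P.up 0 (D.Q C d)) y
        ∂P.Z.mu (P.up N' (k • D.th e e') + P.Z.hs U) ≤ s

/-- Convexity at three times outside a small set. -/
def St_CV3 : Prop := ∀ (n : ℕ) (M : Mf n) [M.Cpt] (ι : Type) [Fintype ι] (D : Dt M ι)
  (p e B L η : ℝ), 0 < p → 0 < e → 0 < L → 0 < η → ∃ ε₀ > (0 : ℝ), ∀ e' ∈ Ioc 0 ε₀,
    ∃ d₀ > (0 : ℝ), ∀ d ∈ Ioc 0 d₀, ∀ (V : ℝ) (u a : M.X → ℝ) (w : ℝ → M.X → ℝ), M.Sm u → M.Sm a →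
      M.Le 0 (D.th e e' + M.hs u) → M.Le 0 (D.th e e' + M.hs a) → (∀ x, |u x| ≤ B ∧ |a x| ≤ B) →
      (∀ t, Sol M D.H ((p + 1) • D.th e e') V (fun x => ps M p u a t x + D.χ d x) (w t)) →
      (∀ x, |w 0 x| ≤ B) → ∃ S : Set M.X, MeasurableSet S ∧
        ∫ x in S, Real.exp (-D.χ d x) ∂M.mu D.H ≤ η ∧ ∀ x ∉ S, ∀ t T, 0 < t → t ≤ T → T ≤ L →
          w t x ≤ ((T - t) * w 0 x + t * w T x) / T + η

/-! ### The bounds on the manifold -/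

/-- Upper bounds. -/
def St_UP2 : Prop := ∀ (n : ℕ) (M : Mf n) [M.Cpt] (H : M.Fam (Mat n)) (C₀ p C : ℝ), M.Kae H →
  0 < p → ∃ C₁ : ℝ, 0 ≤ C₁ ∧ ∀ (ϑ : M.Fam (Mat n)) (V t : ℝ) (u a χ w : M.X → ℝ),
    Dat M H ϑ C₀ u a → M.Sm χ → ∫ x, χ x ∂M.mu H ≤ C → 0 ≤ t →
    Sol M H ((p + 1) • ϑ) V (fun x => ps M p u a t x + χ x) w →
    (∀ x, w x ≤ p * t + C₁) ∧ ∀ m : ℝ, (∀ x, w x ≤ m) → ∀ x,
      w x - (p + 1) * u x ≤ m + (p + 1) ∧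
      w x - ps M p u a t x ≤ m + (p + 1) - p * t + p * min (u x - a x) t

/-- The lower bound at one time. -/
def St_LO2 : Prop := ∀ (n : ℕ) (M : Mf n) [M.Cpt] (H : M.Fam (Mat n)) (C₀ p C q : ℝ), 0 < n →
  M.Kae H → 0 < p → 1 < q → ∃ C₄ : ℝ, 0 ≤ C₄ ∧ ∀ t : ℝ, 0 ≤ t → ∃ η : ℝ, 0 < η ∧
    ∀ (ϑ : M.Fam (Mat n)) (V : ℝ) (u a χ w : M.X → ℝ), Dat M H ϑ C₀ u a → M.Sm χ →
      ∫ x, χ x ∂M.mu H ≤ C → ∫ x, Real.exp (-(q * χ x)) ∂M.mu H ≤ C →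
      (M.mu H).real {x | 1 < u x - a x} ≤ η →
      Sol M H ((p + 1) • ϑ) V (fun x => ps M p u a t x + χ x) w →
      ∀ x, p * t - C₄ ≤ w x - (p + 1) * u x

/-- The bound at time zero. -/
def St_CZ2 : Prop := ∀ (n : ℕ) (M : Mf n) [M.Cpt] (H : M.Fam (Mat n)) (C₀ p C q B₀ : ℝ),
  M.Kae H → 0 < p → 1 < q → ∃ B : ℝ, ∀ (ϑ : M.Fam (Mat n)) (V : ℝ) (u a χ w : M.X → ℝ),
    Dat M H ϑ C₀ u a → (∀ x, |u x| ≤ B₀) → M.Sm χ → ∫ x, χ x ∂M.mu H ≤ C →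
    ∫ x, Real.exp (-(q * χ x)) ∂M.mu H ≤ C →
    Sol M H ((p + 1) • ϑ) V (fun x => ps M p u a 0 x + χ x) w → ∀ x, |w x| ≤ B

/-- The tail. -/
def St_TA2 : Prop := ∀ (n : ℕ) (M : Mf n) [M.Cpt] (H α : M.Fam (Mat n)) (p V B T η : ℝ)
  (u a χ w : M.X → ℝ) (S : Set M.X), 0 < p → M.Met H → M.Sm u → M.Sm a → M.Sm χ →
  (∀ x, -B ≤ u x) → Sol M H α V (fun x => ps M p u a T x + χ x) w → MeasurableSet S →
  ∫ x in S, Real.exp (-χ x) ∂M.mu H ≤ η →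
  (∀ x ∉ S, (p - 1) * T - 1 ≤ w x - (p + 1) * u x) →
  ∫ x in {x | T ≤ u x - a x}, Real.exp (-χ x) ∂M.mu H ≤
    Real.exp (B + 1 + p) * Real.exp (-((p - 1) * T)) + η

/-- The potentials are close in measure. -/
def St_FA2 : Prop := ∀ (n : ℕ) (M : Mf n) [M.Cpt] (ι : Type) [Fintype ι] (D : Dt M ι)
  (a : ℝ → ℝ → M.X → ℝ) (η : ℝ), D.Fam a → 0 < η → ∃ e ∈ Ioc (0 : ℝ) 1, ∀ e₂ ∈ Ioc 0 e,
    ∀ e' ∈ Ioc 0 e, (M.mu D.H).real {x | 1 < a e e' x - a e₂ e' x} ≤ η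

/-- From the weighted tail to the exponential integral. -/
def St_LA2 : Prop := ∀ m δ q C : ℝ, 0 < m → 0 < δ → 1 < q → ∃ m' > (0 : ℝ), ∀ (X : Type)
  [MeasurableSpace X] (μ : Measure X) [IsFiniteMeasure μ] (A t : ℝ), ∃ K : ℝ,
    ∀ (y χ : X → ℝ) (B : ℝ), Measurable y → Measurable χ → (∀ x, |y x| ≤ B ∧ |χ x| ≤ B) →
      ∫ x, Real.exp (-(q * χ x)) ∂μ ≤ C → ∫ x, Real.exp (δ * χ x) ∂μ ≤ C →
      (∀ T, t ≤ T → ∫ x in {x | T ≤ y x}, Real.exp (-χ x) ∂μ ≤ A * Real.exp (-(m' * T))) →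
      ∫ x, Real.exp (m * y x) ∂μ ≤ K

/-- The weighted tail at a fixed level. -/
def St_TL : Prop := ∀ (n : ℕ) (M : Mf n) [M.Cpt] (ι : Type) [Fintype ι] (D : Dt M ι)
  (a : ℝ → ℝ → M.X → ℝ) (m : ℝ), D.Fam a → 0 < m → ∃ (A t : ℝ), ∃ e ∈ Ioc (0 : ℝ) 1,
    ∀ e₂ ∈ Ioc 0 e, ∃ ε₀ > (0 : ℝ), ∀ e' ∈ Ioc 0 ε₀, ∃ d ∈ Ioc (0 : ℝ) 1, ∀ T, t ≤ T →
      ∫ x in {x | T ≤ a e e' x - a e₂ e' x}, Real.exp (-D.χ d x) ∂M.mu D.H ≤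
        A * Real.exp (-(m * T))

/-- The theorem. -/
def St_ZE : Prop := ∀ (n : ℕ) (M : Mf n) [M.Cpt] (ι : Type) [Fintype ι] (D : Dt M ι),
  ∃ a : ℝ → M.X → ℝ, (∀ e ∈ Ioc (0 : ℝ) 1, Env M (D.T + e • D.H) (a e) e) ∧
    (∀ e ∈ Ioc (0 : ℝ) 1, ∀ e' ∈ Ioc 0 e, ∀ x, a e' x ≤ a e x + e) ∧
    ∀ m : ℝ, 0 < m → ∃ C : ℝ, ∀ e ∈ Ioc (0 : ℝ) 1,
      ∫ x, Real.exp (-(m * a e x)) ∂M.mu D.H ≤ C

end Pool.Agent.Lib.ZE
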