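import Pool.Agent.Lib.ZE.All0
import Pool.Agent.Lib.KP21.E21

/-! The theorem of the project ze without hypotheses, second assembly. -/

namespace Pool.Agent.Lib.ZE

theorem ze2 : St_ZE := ze0 HS21.st_AUBIN

end Pool.Agent.Lib.ZE
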