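import Pool.Agent.Lib.ZE.Out
import Pool.Agent.Lib.ZK47.B_BRG

/-! Project ze, outer layer: from the manifold layer to the statement. -/

open scoped Classical Topology ContDiff ComplexOrder Matrix ENNReal Manifold
open Set MeasureTheory Complex Metric Filter

noncomputable section

namespace Pool.Agent.Lib.ZE

open Pool.Agent.Lib.SV (E)
open Pool.Agent.Lib.HS32 Pool.Agent.Lib.HS.BBR Pool.Agent.Lib.RB.R32 Pool.Agent.Lib.KP.T6
open Pool.Agent.Lib.HS (inChart)
open Pool.Agent.Lib.GH (Kaehler)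
open Pool.Agent.Lib.ZL (PshOn)
open Pool.Agent.Lib.ZK47 (KltR Glue St_LIMK)
open Pool.Agent.Lib.ZK47.Br

namespace TOP

variable {n : ℕ}

theorem le_ctr {M : Mf n} {T : M.Fam (Mat n)} (hT : M.Form T)
    (h : ∀ x, ∃ e ∈ M.C, x ∈ e.source ∧ ∀ y, 0 ≤ nq (T e (e x)) y) : M.Le 0 T :=
  DM.K63.le0.2 (Mf.allOn_of_source fun e he x hx => by
    obtain ⟨e', he', hx', h0⟩ := h x
    have hh := hT.herm e' he' _ (e'.map_source hx')
    have h1 : T e (e x) = _ := hT.cmp e' he' e he x hx' hx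
    rw [h1]
    exact (Matrix.PosSemidef.of_dotProduct_mulVec_nonneg hh fun y => Complex.nonneg_iff.2
      ⟨h0 y, (hh.im_star_dotProduct_mulVec_self y).symm⟩).conjTranspose_mul_mul_same _)

variable {X ι I : Type} [TopologicalSpace X] [ChartedSpace (E n) X]

theorem frq_of {g : X → ℂ} {x : X}
    (h : g x = 0 → fderiv ℂ (g ∘ (chartAt (E n) x).symm) (chartAt (E n) x x) ≠ 0) :
    ∃ᶠ y in 𝓝 x, g y ≠ 0 := by
  intro h0
  have h1 : ∀ᶠ y in 𝓝 x, g y = 0 := h0.mono fun y hy => not_not.1 hy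
  refine h h1.self_of_nhds ?_
  have h2 : g ∘ (chartAt (E n) x).symm =ᶠ[𝓝 (chartAt (E n) x x)] fun _ => 0 :=
    ((chartAt (E n) x).tendsto_symm (mem_chart_source (E n) x)).eventually h1
  rw [h2.fderiv_eq, fderiv_fun_const, Pi.zero_apply]

theorem core (hM : St_MNC) (hB : St_BGF) (hL : St_LIMK) [IsManifold 𝓘(ℂ, E n) ω X]
    [CompactSpace X] [T2Space X] [ConnectedSpace X] [Fintype I] {G w : X → Mat n} {U : ι → Set X}
    {f : I → ι → X → ℂ} {u : I → ι → ι → X → ℂ} {b : I → ℝ} {c : ℝ} (hG : Kaehler G)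
    (hw : BigForm n w) (opn : ∀ i, IsOpen (U i)) (cov : ∀ x, ∃ i, x ∈ U i)
    (hol : ∀ k i, ∀ x ∈ U i, KP.HolAt n 0 (f k i) x)
    (unit : ∀ k i j, ∀ x ∈ U i ∩ U j,
      KP.HolAt n 0 (u k i j) x ∧ u k i j x ≠ 0 ∧ f k i x = u k i j x * f k j x)
    (nf : ∀ k j, ∀ x ∈ U j, ∃ᶠ y in 𝓝 x, f k j y ≠ 0) (c1 : 1 < c)
    (c2 : ∀ i, ∀ x ∈ U i, ∃ W ∈ 𝓝 (chartAt (E n) x x),
      ∫⁻ z in W, ∏ k, ‖f k i ((chartAt (E n) x).symm z)‖ₑ ^ (-2 * (c * max (b k) 0)) < ⊤)
    (deg : ∀ k, b k < 0 → ∀ i, ∀ x ∈ U i, f k i x = 0 →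
      fderiv ℂ (f k i ∘ (chartAt (E n) x).symm) (chartAt (E n) x x) ≠ 0 ∧ ∃ y ≠ 0,
        fderiv ℂ (f k i ∘ (chartAt (E n) x).symm) (chartAt (E n) x x) y = 0 ∧ w x *ᵥ y = 0)
    (hN : NefW n G w U u b) :
    ∃ ψ : ι → X → EReal, Glue U u b ψ ∧ ∀ i, ∀ x ∈ U i, ∃ V ∈ 𝓝 (chartAt (E n) x x),
      PshOn (fun z => ψ i ((chartAt (E n) x).symm z) + (Real.log (inChart G x z).det.re : ℝ)) V ∧
      ∀ c : ℝ, 0 < c → ∫⁻ z in V, EReal.exp (-(c * ψ i ((chartAt (E n) x).symm z))) < ⊤ := by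
  let M : Mf n := rs (mf n X) (U := U) opn cov
  have cpt : M.Cpt := ⟨‹_›, ‹_›, ‹_›⟩
  have hc : ∀ x : X, chartAt (E n) x ∈ (mf n X).C := HW.ch_mem
  obtain ⟨r, r1, r2, r3, r4⟩ : ∃ r : X → OpenPartialHomeomorph X (E n), (∀ x, r x ∈ M.C) ∧
      (∀ x, x ∈ (r x).source) ∧ (∀ x, (r x : X → E n) = chartAt (E n) x) ∧
      ∀ x, ((r x).symm : E n → X) = (chartAt (E n) x).symm := by
    choose r r1 r2 r3 r4 using fun x : X =>
      restr (mf n X) (U := U) opn cov (hc x) (mem_chart_source (E n) x)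
    exact ⟨r, r1, r2, r3, r4⟩
  have hι : ∀ e : OpenPartialHomeomorph X (E n), ∃ i, e ∈ M.C → e.source ⊆ U i := fun e => by
    by_cases he : e ∈ M.C
    · exact he.2.imp fun _ hi _ => hi
    · obtain ⟨x⟩ : Nonempty X := inferInstance
      exact (cov x).imp fun _ _ h => absurd h he
  choose i hi using hι
  choose L L1 L2 using fun k => ex_co opn cov hi (hol k) (unit k)
    (coc opn (unit k) (nf k))
  choose φ hφ using fun k => KP.st_WT n M (L k)
  have g1 := HW.kae hG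
  let H : M.Fam (Mat n) := fam (X := X) G
  have kH : M.Kae H := ⟨⟨⟨⟨fun e he => g1.sm e he.1, fun e he e' he' => g1.cmp e he.1 e' he'.1⟩,
    fun e he => g1.herm e he.1⟩, fun e he => g1.cl e he.1⟩, fun e he => g1.pos e he.1⟩
  have fr' : ∀ (h : X → Mat n) (x : X), fam h (r x) = inChart h x := fun h x => by
    funext z
    change (jm (chartAt (E n) ((r x).symm z) ∘ (r x).symm) z)ᴴ * h ((r x).symm z) *
      jm (chartAt (E n) ((r x).symm z) ∘ (r x).symm) z = _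
    rw [r4]
    rfl
  have fr : ∀ x, H (r x) = inChart G x := fr' G
  obtain ⟨w1, w2, w3⟩ := hB n X w hw
  let β : M.Fam (Mat n) := fam (X := X) w
  have cβ : M.Clo β := ⟨⟨⟨fun e he => w1.sm e he.1, fun e he e' he' => w1.cmp e he.1 e' he'.1⟩,
    fun e he => w1.herm e he.1⟩, fun e he => w1.cl e he.1⟩
  have nβ : M.Le 0 β := fun e he => w2 e he.1
  have e0 : ∀ x : X, β (r x) (r x x) = w x := fun x => by
    refine Eq.trans ?_ (w3 x)
    change fam w (r x) (r x x) = _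
    rw [fr', r3]
    rfl
  let B : M.Fam (Mat n) := fun e z => ∑ k, b k • M.hw (φ k) e z
  have cB : M.Clo B := by
    have : ∀ s : Finset I, M.Clo fun e z => ∑ k ∈ s, b k • M.hw (φ k) e z := fun s => by
      induction s using Finset.induction_on with
      | empty => exact Mf.clo_zero.congr fun _ _ _ _ => by simp
      | insert a s ha ih =>
        exact (((hφ a).clo.smul (b a)).add ih).congr fun _ _ _ _ => by
          simp only [Finset.sum_insert ha, Pi.add_apply, Pi.smul_apply]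
    exact this _
  have key : ∀ p : ι → X → ℝ, Glue U u b (fun i x => p i x) → (∀ j, ∀ x ∈ U j,
      ContDiffAt ℝ ∞ (p j ∘ (chartAt (E n) x).symm) (chartAt (E n) x x)) →
      ∃ g : X → ℝ, M.Sm g ∧ ∀ e : OpenPartialHomeomorph X (E n), e ∈ M.C → ∀ j, ∀ z ∈ e.target,
        e.symm z ∈ U j → ContDiffAt ℝ ∞ (p j ∘ e.symm) z ∧
          hess (fun w => (p j (e.symm w) : ℂ)) z = B e z + M.hs g e z := by
    intro p p1 p2
    have gl : ∀ a a', ∀ x ∈ U a ∩ U a',
        p a x = p a' x + ∑ k, b k * Real.log (normSq (u k a a' x)) := fun a a' x hx =>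
      EReal.coe_eq_coe_iff.1 ((p1 a a' x hx).trans (EReal.coe_add _ _).symm)
    have sp : ∀ e : OpenPartialHomeomorph X (E n), e ∈ M.C → ∀ j, ∀ z ∈ e.target,
        e.symm z ∈ U j → ContDiffAt ℝ ∞ (p j ∘ e.symm) z := fun e he j z hz hj => by
      have : ContDiffAt ℝ ∞ (p j ∘ e.symm) (e (e.symm z)) :=
        ((mTR n (mf n X)).2.2.2.1 ℝ (p j)).2.1 _ (hc (e.symm z)) e he.1 _
          (mem_chart_source (M := X) (E n) _) (e.map_target hz) (p2 j _ hj)
      rwa [e.right_inv hz] at this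
    let Φ : M.Fam ℝ := fun (e : OpenPartialHomeomorph X (E n)) z =>
      p (i e) (e.symm z) - ∑ k, b k * φ k e z
    have iv : M.Inv Φ := by
      intro (e : OpenPartialHomeomorph X (E n)) he (e' : OpenPartialHomeomorph X (E n)) he' (x : X)
        hx hx'
      have a1 : ∀ k, φ k e' (e' x) = φ k e (e x) + Real.log (normSq (u k (i e') (i e) x)) :=
        fun k => L1 k e e' x ▸ (hφ k).cmp e he e' he' x hx hx'
      change p (i e') (e'.symm (e' x)) - ∑ k, b k * φ k e' (e' x) =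
        p (i e) (e.symm (e x)) - ∑ k, b k * φ k e (e x)
      simp only [e.left_inv hx, e'.left_inv hx', a1, mul_add, Finset.sum_add_distrib]
      rw [gl (i e') (i e) x ⟨hi e' he' hx', hi e he hx⟩]
      ring
    have sg : M.Sm (M.ev Φ) := iv.sm fun e he z hz =>
      (sp e he _ z hz (hi e he (e.map_target hz))).sub
        (ContDiffAt.sum fun k _ => contDiffAt_const.mul ((hφ k).sm e he z hz))
    refine ⟨M.ev Φ, sg, fun e he j z hz hj => ⟨sp e he j z hz hj, ?_⟩⟩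
    have ev : ∀ᶠ w in 𝓝 z, w ∈ e.target ∧ e.symm w ∈ U j :=
      (e.isOpen_inter_preimage_symm (opn j)).mem_nhds ⟨hz, hj⟩
    have hu : ∀ k, ContDiffAt ℝ ∞ (fun w => Real.log (normSq (u k j (i e) (e.symm w)))) z ∧
        hess (fun w => (Real.log (normSq (u k j (i e) (e.symm w))) : ℝ)) z = 0 := fun k => by
      have h1 : HolN (fun w => u k j (i e) (e.symm w)) z := ev.mono fun w hw =>
        hol_chart (fun y => (he.1 y).2) hw.1 (unit k _ _ _ ⟨hw.2, hi e he (e.map_target hw.1)⟩).1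
      obtain ⟨l1, l2, -⟩ := ((mHOL n _ _).2.2 h1).2.2.2
        (unit k _ _ _ ⟨hj, hi e he (e.map_target hz)⟩).2.1
      exact ⟨l1, l2⟩
    have e1 : (fun w => (p j (e.symm w) : ℂ)) =ᶠ[𝓝 z] fun w =>
        ((∑ k, b k * φ k e w : ℝ) : ℂ) + M.lc (M.ev Φ) e w +
          ((∑ k, b k * Real.log (normSq (u k j (i e) (e.symm w))) : ℝ) : ℂ) := by
      filter_upwards [ev] with w hw
      have a1 : M.lc (M.ev Φ) e w = ((p (i e) (e.symm w) - ∑ k, b k * φ k e w : ℝ) : ℂ) :=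
        congrArg ofReal (iv.rep e he w hw.1)
      rw [gl j (i e) _ ⟨hw.2, hi e he (e.map_target hw.1)⟩, a1]
      push_cast
      ring
    have s1 := cd_ofReal (ContDiffAt.sum (s := Finset.univ) fun k _ =>
      (contDiffAt_const (c := b k)).mul ((hφ k).sm e he z hz))
    rw [hess_congr e1, hess_add (s1.add (sg.lc e he z hz))
      (cd_ofReal (ContDiffAt.sum fun k _ => contDiffAt_const.mul (hu k).1)),
      hess_add s1 (sg.lc e he z hz), hsum fun k => (hφ k).sm e he z hz, hsum fun k => (hu k).1]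
    simp only [(hu _).2, smul_zero, Finset.sum_const_zero, add_zero]
    rfl
  have sl : ∀ e ∈ M.C, ∀ z ∈ e.target, ContDiffAt ℝ ∞ (fun w => Real.log (H e w).det.re) z :=
    fun e he z hz => ((mCOF n _ _ (kH.sm e he z hz)).2.2.2.2.2 (Mf.AllOn.ev kH.pos he hz)).2.1
  have cR := (mHES n M).2.2.2.2.2.2.2.2.1 _ kH.toMet
  have nw : ∀ ε > (0 : ℝ), ∃ (ψ : M.X → ℝ) (C : ℝ), 0 ≤ C ∧ M.Sm ψ ∧
      M.Le 0 (B - M.ric H + ε • β + M.hs ψ) ∧ M.Le (B - M.ric H + ε • β + M.hs ψ) (C • β) := by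
    intro ε hε
    obtain ⟨p, C, p1, p2⟩ := hN ε hε
    obtain ⟨g, sg, hg⟩ := key p p1 fun j x hx => (p2 j x hx).1
    have hf : M.Clo (B - M.ric H + ε • β + M.hs g) :=
      ((cB.sub cR).add (cβ.smul ε)).add ((mHES n M).1 g sg)
    have ctr : ∀ (x : X) (y : E n), 0 ≤ nq ((B - M.ric H + ε • β + M.hs g) (r x) (r x x)) y ∧
        nq ((B - M.ric H + ε • β + M.hs g) (r x) (r x x)) y ≤ (C + ε) * nq (w x) y := fun x y => by
      have hz := (r x).map_source (r2 x)
      obtain ⟨j, hj⟩ := cov x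
      obtain ⟨s1, s2⟩ := hg _ (r1 x) j _ hz (by rwa [(r x).left_inv (r2 x)])
      have h1 := (p2 j x hj).2 y
      rw [← fr, ← r3, ← r4] at h1
      have h3 : hess (fun w => ((p j ((r x).symm w) + Real.log (H (r x) w).det.re : ℝ) : ℂ))
          (r x x) = B (r x) (r x x) + M.hs g (r x) (r x x) - M.ric H (r x) (r x x) := by
        simp only [ofReal_add]
        refine (hess_add (cd_ofReal s1) (cd_ofReal (sl _ (r1 x) _ hz))).trans ?_
        rw [Mf.ric, sub_neg_eq_add, ← s2]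
        rfl
      have h4 := (HW.levi_eq (s1.add (sl _ (r1 x) _ hz)) y).trans (congrArg (nq · y) h3)
      have h5 : (B - M.ric H + ε • β + M.hs g) (r x) (r x x) =
          ε • w x + (B (r x) (r x x) + M.hs g (r x) (r x x) - M.ric H (r x) (r x x)) := by
        simp only [Pi.add_apply, Pi.sub_apply, Pi.smul_apply, e0]
        abel
      have h7 := h1.1.trans_eq h4
      have h8 := h4.symm.trans_le h1.2
      rw [nq] at h7 h8
      rw [h5, nq, nq, Matrix.add_mulVec, dotProduct_add, add_re, Matrix.smul_mulVec,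
        dotProduct_smul, smul_re, smul_eq_mul]
      constructor <;> linarith
    refine ⟨g, max C 0 + ε, by positivity, sg,
      TOP.le_ctr hf.toForm fun x => ⟨r x, r1 x, r2 x, fun y => (ctr x y).1⟩,
      Mf.le_iff_sub.2 (TOP.le_ctr ((cβ.toForm.smul _).sub hf.toForm) fun x =>
        ⟨r x, r1 x, r2 x, fun y => ?_⟩)⟩
    have h1 := (ctr x y).2
    have h2 : 0 ≤ nq (w x) y := (Complex.nonneg_iff.1 ((hw.nonneg x).dotProduct_mulVec_nonneg y)).1
    have h3 := mul_le_mul_of_nonneg_right (add_le_add_left (le_max_left C 0) ε) h2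
    change 0 ≤ nq ((max C 0 + ε) • β (r x) (r x x) -
      (B - M.ric H + ε • β + M.hs g) (r x) (r x x)) y
    rw [e0, nq, Matrix.sub_mulVec,
      dotProduct_sub, sub_re, Matrix.smul_mulVec, dotProduct_smul, smul_re, smul_eq_mul]
    rw [nq, nq] at h1
    rw [nq] at h3
    linarith
  obtain ⟨a, ha⟩ := hM n M H β I L _ φ b c kH cβ nβ
    (let ⟨x, hx⟩ := hw.big
    ⟨r x, r1 x, r x x, (r x).map_source (r2 x), (e0 x).symm ▸ hx⟩) L2 hφ
    (fun k => by
      obtain ⟨x⟩ : Nonempty X := inferInstance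
      obtain ⟨j, hj⟩ := cov x
      obtain ⟨y, y1, y2⟩ := ((nf k j x hj).and_eventually ((opn j).mem_nhds hj)).exists
      have y3 := unit k _ j y ⟨hi _ (Mf.ch_mem (M := M) y) (Mf.mem_ch (M := M) y), y2⟩
      refine ⟨y, mul_ne_zero (normSq_pos.2 ?_).ne' (Real.exp_pos _).ne'⟩
      change f k (i (M.ch y)) ((M.ch y).symm (M.ch y y)) ≠ 0
      rw [Mf.ch_symm, y3.2.2]
      exact mul_ne_zero y3.2.1 y1) c1
    (fun x : X => ⟨r x, r1 x, r2 x, by
      have := c2 _ x (hi _ (r1 x) (r2 x))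
      rw [← r3, ← r4] at this
      exact this⟩)
    (fun k hk (x : X) => ⟨r x, r1 x, r2 x, fun h0 => by
      have := deg k hk _ x (hi _ (r1 x) (r2 x))
        ((congrArg (f k (i (r x))) ((r x).left_inv (r2 x))).symm.trans h0)
      rw [← r3, ← r4, ← e0] at this
      exact this⟩) nw
  obtain ⟨A, hA⟩ := hL n M H B a kH.toMet ha
  obtain ⟨p, C, p1, p2⟩ := hN 1 one_pos
  obtain ⟨g, sg, hg⟩ := key p p1 fun j x hx => (p2 j x hx).1
  refine ⟨fun j x => (p j x - g x : ℝ) + A x, fun j j' x hx => ?_, fun j x hx => ?_⟩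
  · have h1 : p j x = p j' x + ∑ k, b k * Real.log (normSq (u k j j' x)) :=
      EReal.coe_eq_coe_iff.1 ((p1 j j' x hx).trans (EReal.coe_add _ _).symm)
    beta_reduce
    rw [add_right_comm, ← EReal.coe_add, h1]
    congr 2
    ring
  have hz := (r x).map_source (r2 x)
  have hx' : (r x).symm (r x x) ∈ U j := by rwa [(r x).left_inv (r2 x)]
  obtain ⟨V, V1, V2, V3⟩ := hA _ (r1 x) x (r2 x) (fun w =>
      p j ((r x).symm w) - g ((r x).symm w) + Real.log (H (r x) w).det.re) (by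
    filter_upwards [((r x).isOpen_inter_preimage_symm (opn j)).mem_nhds ⟨hz, hx'⟩] with w hw
    obtain ⟨s1, s2⟩ := hg _ (r1 x) j w hw.1 hw.2
    have s3 := sg _ (r1 x) w hw.1
    refine ⟨(s1.sub s3).add (sl _ (r1 x) w hw.1), ?_⟩
    simp only [ofReal_add, ofReal_sub]
    refine (hess_add ((cd_ofReal s1).sub (cd_ofReal s3)) (cd_ofReal (sl _ (r1 x) w hw.1))).trans ?_
    refine (congrArg (· + _) (hess_sub (cd_ofReal s1) (cd_ofReal s3))).trans ?_
    rw [Mf.ric, sub_neg_eq_add]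
    exact congrArg₂ (· + ·) (sub_eq_of_eq_add s2) rfl)
  have ct := ((hg _ (r1 x) j _ hz hx').1.sub (sg _ (r1 x) _ hz)).continuousAt
  have V4 := ct.eventually (lt_mem_nhds (sub_one_lt _))
  rw [← fr, ← r3, ← r4]
  obtain ⟨O, O1, O2, O3⟩ := _root_.mem_nhds_iff.1 (inter_mem V1 V4)
  refine ⟨O, O2.mem_nhds O3, ?_, fun s hs => ?_⟩
  · have e : (fun z => ((p j ((r x).symm z) - g ((r x).symm z) : ℝ) : EReal) + A ((r x).symm z) +
        (Real.log (H (r x) z).det.re : ℝ)) = fun z => A ((r x).symm z) +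
        ((p j ((r x).symm z) - g ((r x).symm z) + Real.log (H (r x) z).det.re : ℝ) : EReal) := by
      funext z
      rw [EReal.coe_add, ← add_assoc, add_comm (A _)]
    exact e ▸ mono V2 fun z hz => (O1 hz).1
  · refine lt_of_le_of_lt (setLIntegral_mono' O2.measurableSet fun z hz =>
      ex_le hs (le_of_lt (O1 hz).2) (A ((r x).symm z))) ?_
    rw [lintegral_const_mul' _ _ ENNReal.ofReal_ne_top]
    exact ENNReal.mul_lt_top ENNReal.ofReal_lt_top
      (lt_of_le_of_lt (lintegral_mono_set fun z hz => (O1 hz).1) (V3 s hs))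

end TOP

theorem oTOP (hM : St_MNC) (hB : St_BGF) (hL : St_LIMK) : St_TOP := by
  intro n X ι I J _ _ _ _ _ _ _ _ G w U f u b g v a hG hw hK hE hN
  obtain ⟨c, c1, c2⟩ := hK.lct
  refine TOP.core hM hB hL (f := Sum.elim f g) hG hw hK.opn hK.cov
    (Sum.forall.2 ⟨hK.hol, hE.hol⟩) (Sum.forall.2 ⟨hK.unit, hE.unit⟩)
    (Sum.forall.2 ⟨fun k j x hx => ?_, fun k j x hx => TOP.frq_of fun h => (hE.deg k j x hx h).1⟩)
    c1 (fun i x hx => ?_)
    (Sum.forall.2 ⟨fun k hk => absurd hk (hK.pos k).not_gt, fun k _ => hE.deg k⟩) hN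
  · obtain ⟨_, a, a'⟩ := c2 j x hx
    exact frq (v := fun k => f k j) (fun k => mul_pos (one_pos.trans c1) (hK.pos k)) a a' k
  · obtain ⟨W, w1, w2⟩ := c2 i x hx
    refine ⟨W, w1, lt_of_eq_of_lt (lintegral_congr fun z => ?_) w2⟩
    have h1 : ∀ k, max (b k) 0 = b k := fun k => max_eq_left (hK.pos k).le
    have h2 : ∀ k, max (-a k) 0 = 0 := fun k => max_eq_right (neg_nonpos.2 (hE.pos k).le)
    simp only [Fintype.prod_sum_type, Sum.elim_inl, Sum.elim_inr, Pi.neg_apply, h1, h2, mul_zero,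
      ENNReal.rpow_zero, Finset.prod_const_one, mul_one]

end Pool.Agent.Lib.ZE
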