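import Pool.Agent.Lib.ZE.Blue
import Pool.Agent.Lib.HS32.EKit

/-! Row CAL of the project ze: calculus in the product. -/

open scoped Classical Topology ContDiff ComplexOrder Matrix
open Set Filter Complex

noncomputable section

namespace Pool.Agent.Lib.ZE

open Pool.Agent.Lib.SV (E)
open Pool.Agent.Lib.HS32

namespace CAL

variable {n : ℕ}

/-- The last coordinates as a linear map. -/
def tlL (𝕜 : Type) [NontriviallyNormedField 𝕜] [NormedSpace 𝕜 ℂ] (n : ℕ) :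
    E (n + 1) →L[𝕜] E n :=
  ContinuousLinearMap.pi fun i => ContinuousLinearMap.proj (R := 𝕜) (φ := fun _ => ℂ) i.succ

theorem tl_fd (𝕜 : Type) [NontriviallyNormedField 𝕜] [NormedSpace 𝕜 ℂ] (w : E (n + 1)) :
    HasFDerivAt (tl : E (n + 1) → E n) (tlL 𝕜 n) w := (tlL 𝕜 n).hasFDerivAt

theorem tl_cd : ContDiff ℝ ∞ (tl : E (n + 1) → E n) := (tlL ℝ n).contDiff

theorem tl_s0 (c : ℂ) : tl (Pi.single (0 : Fin (n + 1)) c : E (n + 1)) = 0 := by
  funext i; simp [tl]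

theorem tl_ss (j : Fin n) (c : ℂ) : tl (Pi.single j.succ c : E (n + 1)) = Pi.single j c := by
  funext i; simp [tl, Pi.single_apply]

theorem fd_tl {f : E n → ℂ} {w : E (n + 1)} (h : DifferentiableAt ℝ f (tl w)) (v : E (n + 1)) :
    fderiv ℝ (fun v => f (tl v)) w v = fderiv ℝ f (tl w) (tl v) := by
  have := (h.hasFDerivAt.comp w (tl_fd ℝ w)).fderiv
  rw [show (fun v => f (tl v)) = f ∘ tl from rfl, this]; rfl

theorem dz0 {f : E n → ℂ} {w : E (n + 1)} (h : DifferentiableAt ℝ f (tl w)) :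
    dz 0 (fun v => f (tl v)) w = 0 := by simp [dz, fd_tl h, tl_s0]

theorem dzb0 {f : E n → ℂ} {w : E (n + 1)} (h : DifferentiableAt ℝ f (tl w)) :
    dzb 0 (fun v => f (tl v)) w = 0 := by simp [dzb, fd_tl h, tl_s0]

theorem dzs {f : E n → ℂ} {w : E (n + 1)} (h : DifferentiableAt ℝ f (tl w)) (j : Fin n) :
    dz j.succ (fun v => f (tl v)) w = dz j f (tl w) := by simp only [dz, fd_tl h, tl_ss]

theorem dzbs {f : E n → ℂ} {w : E (n + 1)} (h : DifferentiableAt ℝ f (tl w)) (j : Fin n) :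
    dzb j.succ (fun v => f (tl v)) w = dzb j f (tl w) := by simp only [dzb, fd_tl h, tl_ss]

theorem ev_tl {f : E n → ℂ} {w : E (n + 1)} (h : ContDiffAt ℝ ∞ f (tl w)) :
    ∀ᶠ v in 𝓝 w, DifferentiableAt ℝ f (tl v) :=
  (tl_cd.continuous.tendsto w).eventually (cd_ev_diff h)

theorem hess_tl {f : E n → ℂ} {w : E (n + 1)} (h : ContDiffAt ℝ ∞ f (tl w)) :
    hess (fun v => f (tl v)) w = blk 0 (hess f (tl w)) := by
  have e0 : dz 0 (fun v => f (tl v)) =ᶠ[𝓝 w] fun _ => 0 := (ev_tl h).mono fun v hv => dz0 hv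
  have es : ∀ j : Fin n, dz j.succ (fun v => f (tl v)) =ᶠ[𝓝 w] fun v => dz j f (tl v) :=
    fun j => (ev_tl h).mono fun v hv => dzs hv j
  ext i j
  rw [hess_apply]
  refine Fin.cases ?_ (fun j => ?_) j
  · rw [dzb_congr e0, dzb_const]
    refine Fin.cases ?_ (fun i => ?_) i <;> simp [blk]
  · rw [dzb_congr (es j)]
    refine Fin.cases ?_ (fun i => ?_) i
    · rw [dzb0 (cd_diff (cd_dz h j))]; simp [blk]
    · rw [dzbs (cd_diff (cd_dz h j))]; simp [blk]

theorem dd_tl {f g : E n → ℂ} {w : E (n + 1)} (hf : ContDiffAt ℝ ∞ f (tl w))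
    (hg : ContDiffAt ℝ ∞ g (tl w)) :
    dd (fun v => f (tl v)) (fun v => g (tl v)) w = blk 0 (dd f g (tl w)) := by
  ext i j
  rw [dd_apply]
  refine Fin.cases ?_ (fun i => ?_) i <;> refine Fin.cases ?_ (fun j => ?_) j
  · simp [blk, dz0 (cd_diff hg)]
  · simp [blk, dzb0 (cd_diff hf)]
  · simp [blk, dz0 (cd_diff hg)]
  · simp [blk, dzs (cd_diff hg), dzbs (cd_diff hf)]

/-- The real part of the first coordinate. -/
def re0 (n : ℕ) : E (n + 1) →L[ℝ] ℝ :=
  reCLM.comp (ContinuousLinearMap.proj (R := ℝ) (φ := fun _ => ℂ) (0 : Fin (n + 1)))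

theorem re0_cd : ContDiff ℝ ∞ fun v : E (n + 1) => (v 0).re := (re0 n).contDiff

theorem fd_re {g : ℝ → ℝ} (hg : Differentiable ℝ g) (w v : E (n + 1)) :
    fderiv ℝ (fun v : E (n + 1) => (g (v 0).re : ℂ)) w v = (deriv g (w 0).re * (v 0).re : ℝ) := by
  have h := (hg (w 0).re).hasDerivAt.comp_hasFDerivAt w (re0 n).hasFDerivAt
  rw [fderiv_ofReal (u := fun v : E (n + 1) => g (v 0).re) h.differentiableAt,
    show (fun v : E (n + 1) => g (v 0).re) = g ∘ re0 n from rfl, h.fderiv]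
  simp [re0]

theorem dz_re {g : ℝ → ℝ} (hg : Differentiable ℝ g) (w : E (n + 1)) (j : Fin (n + 1)) :
    dz j (fun v : E (n + 1) => (g (v 0).re : ℂ)) w =
      ((if j = 0 then deriv g (w 0).re / 2 else 0 : ℝ) : ℂ) := by
  refine Fin.cases ?_ (fun j => ?_) j <;> simp [dz, fd_re hg]

theorem dzb_re {g : ℝ → ℝ} (hg : Differentiable ℝ g) (w : E (n + 1)) (j : Fin (n + 1)) :
    dzb j (fun v : E (n + 1) => (g (v 0).re : ℂ)) w =
      ((if j = 0 then deriv g (w 0).re / 2 else 0 : ℝ) : ℂ) := by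
  refine Fin.cases ?_ (fun j => ?_) j <;> simp [dzb, fd_re hg]

theorem hess_re {g : ℝ → ℝ} (hg : ContDiff ℝ ∞ g) (w : E (n + 1)) :
    hess (fun v : E (n + 1) => (g (v 0).re : ℂ)) w = blk (deriv (deriv g) (w 0).re / 4) 0 := by
  have h1 : Differentiable ℝ g := hg.differentiable (by simp)
  have h2 : Differentiable ℝ (deriv g) := (hg.deriv' (n := ∞)).differentiable (by simp)
  ext i j
  rw [hess_apply]
  refine Fin.cases ?_ (fun j => ?_) j
  · have e : dz 0 (fun v : E (n + 1) => (g (v 0).re : ℂ)) =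
        fun v : E (n + 1) => (((fun s => deriv g s / 2) (v 0).re : ℝ) : ℂ) := by
      funext v; rw [dz_re h1]; simp
    rw [e, dzb_re (h2.div_const 2), deriv_div_const]
    refine Fin.cases ?_ (fun i => ?_) i
    · simp [blk]; ring
    · simp [blk]
  · have e : dz j.succ (fun v : E (n + 1) => (g (v 0).re : ℂ)) = fun _ => 0 := by
      funext v; rw [dz_re h1]; simp
    rw [e, dzb_const]
    refine Fin.cases ?_ (fun i => ?_) i <;> simp [blk]

/-- The first coordinate line. -/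
def s0 (𝕜 : Type) [NontriviallyNormedField 𝕜] [NormedSpace 𝕜 ℂ] (n : ℕ) : ℂ →L[𝕜] E (n + 1) :=
  ContinuousLinearMap.single 𝕜 (fun _ : Fin (n + 1) => ℂ) 0

theorem cn_eq (τ : ℂ) (z : E n) : cn τ z = Pi.single 0 τ + cn 0 z := by
  funext i
  refine Fin.cases ?_ (fun i => ?_) i <;> simp [cn]

theorem cn_fd (z : E n) (τ : ℂ) : HasFDerivAt (fun τ => cn τ z) (s0 ℝ n) τ := by
  have : (fun τ => cn τ z) = fun τ => s0 ℝ n τ + cn 0 z := funext fun τ => cn_eq τ z
  rw [this]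
  exact (s0 ℝ n).hasFDerivAt.add_const _

theorem cn_cd (z : E n) : ContDiff ℝ ∞ fun τ => cn τ z := by
  have : (fun τ => cn τ z) = fun τ => s0 ℝ n τ + cn 0 z := funext fun τ => cn_eq τ z
  rw [this]
  exact (s0 ℝ n).contDiff.add contDiff_const

theorem fd_cn {U : E (n + 1) → ℝ} {τ : ℂ} {z : E n} (h : DifferentiableAt ℝ U (cn τ z)) (b : ℂ) :
    fderiv ℝ (fun s => U (cn s z)) τ b = fderiv ℝ U (cn τ z) (Pi.single 0 b) := by
  have := (h.hasFDerivAt.comp τ (cn_fd z τ)).fderiv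
  rw [show (fun s => U (cn s z)) = U ∘ fun s => cn s z from rfl, this]; rfl

theorem fd2_cn {U : E (n + 1) → ℝ} {τ : ℂ} {z : E n} (h : ContDiffAt ℝ ∞ U (cn τ z)) (a b : ℂ) :
    fderiv ℝ (fderiv ℝ fun s => U (cn s z)) τ a b =
      fderiv ℝ (fun w => fderiv ℝ U w (Pi.single 0 b)) (cn τ z) (Pi.single 0 a) := by
  have hu : ContDiffAt ℝ ∞ (fun s => U (cn s z)) τ := h.comp τ (cn_cd z).contDiffAt
  have hd : DifferentiableAt ℝ (fderiv ℝ fun s => U (cn s z)) τ :=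
    (hu.fderiv_right (m := ∞) (by simp)).differentiableAt (by simp)
  have e1 : fderiv ℝ (fun s => fderiv ℝ (fun s => U (cn s z)) s b) τ a =
      fderiv ℝ (fderiv ℝ fun s => U (cn s z)) τ a b := by
    rw [fderiv_clm_apply hd (differentiableAt_const b)]; simp
  have e2 : (fun s => fderiv ℝ (fun s => U (cn s z)) s b) =ᶠ[𝓝 τ]
      fun s => (fun w => fderiv ℝ U w (Pi.single 0 b)) (cn s z) :=
    (((cn_cd z).continuous.tendsto τ).eventually (cd_ev_diff h)).mono fun s hs => fd_cn hs b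
  rw [← e1, e2.fderiv_eq, fd_cn (cd_diff (cd_fderiv h _))]

theorem hess00 {U : E (n + 1) → ℝ} {w : E (n + 1)} (h : ContDiffAt ℝ ∞ U w) :
    (hess (fun v => (U v : ℂ)) w 0 0).re =
      (fderiv ℝ (fun v => fderiv ℝ U v (Pi.single 0 1)) w (Pi.single 0 1) +
        fderiv ℝ (fun v => fderiv ℝ U v (Pi.single 0 I)) w (Pi.single 0 I)) / 4 := by
  have e : ∀ a b : E (n + 1), fderiv ℝ (fun v => fderiv ℝ (fun v => (U v : ℂ)) v a) w b =
      (fderiv ℝ (fun v => fderiv ℝ U v a) w b : ℝ) := fun a b => by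
    have e2 : (fun v => fderiv ℝ (fun v => (U v : ℂ)) v a) =ᶠ[𝓝 w]
        fun v => ((fderiv ℝ U v a : ℝ) : ℂ) := (cd_ev_diff h).mono fun v hv => fderiv_ofReal hv a
    rw [e2.fderiv_eq, fderiv_ofReal (cd_diff (cd_fderiv h a))]
  rw [hess_apply, dzb, fderiv_dz (cd_ofReal h), fderiv_dz (cd_ofReal h), dz, dz, e, e, e, e]
  simp
  ring

theorem sm_blk (c : ℝ) {T : E n → Mat n} {w : E (n + 1)} (h : SmM T (tl w)) :
    SmM (fun v => blk c (T (tl v))) w := fun i j => by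
  refine Fin.cases ?_ (fun i => ?_) i <;> refine Fin.cases ?_ (fun j => ?_) j
  · simpa [blk] using contDiffAt_const
  · simpa [blk] using contDiffAt_const
  · simpa [blk] using contDiffAt_const
  · exact (h i j).comp w tl_cd.contDiffAt

theorem cl_blk (c : ℝ) {T : E n → Mat n} {w : E (n + 1)} (h : SmM T (tl w)) (hc : ClM T (tl w)) :
    ClM (fun v => blk c (T (tl v))) w := fun i j k => by
  have e : ∀ (i j : Fin n), (fun v : E (n + 1) => blk c (T (tl v)) i.succ j.succ) =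
      fun v => (fun z => T z i j) (tl v) := fun i j => by funext v; simp [blk]
  have e0 : ∀ (j : Fin (n + 1)), ∃ a : ℂ, (fun v : E (n + 1) => blk c (T (tl v)) 0 j) = fun _ => a :=
    fun j => ⟨blk c 0 0 j, by funext v; simp [blk]⟩
  have e1 : ∀ (i : Fin n), (fun v : E (n + 1) => blk c (T (tl v)) i.succ 0) = fun _ => 0 :=
    fun i => by funext v; simp [blk]
  rw [dM_apply, dM_apply]
  refine Fin.cases ?_ (fun i => ?_) i
  · obtain ⟨a, ha⟩ := e0 j
    obtain ⟨b, hb⟩ := e0 k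
    rw [ha, hb, dz_const, dz_const]
  · refine Fin.cases ?_ (fun j => ?_) j <;> refine Fin.cases ?_ (fun k => ?_) k
    · rfl
    · rw [e1, e, dz_const, dz0 (h.diff i k)]
    · rw [e1, e, dz_const, dz0 (h.diff i j)]
    · rw [e, e, dzs (h.diff i j), dzs (h.diff i k)]
      exact hc i j k

theorem jm_cn {ψ : E n → E n} (b : ℂ) {w : E (n + 1)} (h : DifferentiableAt ℂ ψ (tl w)) :
    DifferentiableAt ℂ (fun v => cn (v 0 + b) (ψ (tl v))) w ∧
      jm (fun v => cn (v 0 + b) (ψ (tl v))) w = blk 1 (jm ψ (tl w)) := by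
  have h1 := h.hasFDerivAt.comp w (tl_fd ℂ w)
  have h0 : HasFDerivAt (fun v : E (n + 1) => v 0 + b)
      (ContinuousLinearMap.proj (R := ℂ) (φ := fun _ => ℂ) (0 : Fin (n + 1))) w :=
    (hasFDerivAt_apply 0 w).add_const b
  have H : HasFDerivAt (fun v => cn (v 0 + b) (ψ (tl v)))
      (ContinuousLinearMap.pi fun i : Fin (n + 1) => (Fin.cases
        (ContinuousLinearMap.proj (R := ℂ) (φ := fun _ => ℂ) (0 : Fin (n + 1)))
        (fun i => (ContinuousLinearMap.proj (R := ℂ) (φ := fun _ => ℂ) i).comp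
          ((fderiv ℂ ψ (tl w)).comp (tlL ℂ n))) i : E (n + 1) →L[ℂ] ℂ)) w := by
    refine hasFDerivAt_pi.2 fun i => ?_
    refine Fin.cases ?_ (fun i => ?_) i
    · exact h0
    · exact (hasFDerivAt_apply i _).comp w h1
  refine ⟨H.differentiableAt, ?_⟩
  have t : ∀ v : E (n + 1), tlL ℂ n v = tl v := fun _ => rfl
  ext i j
  simp only [jm, Matrix.of_apply, H.fderiv]
  refine Fin.cases ?_ (fun i => ?_) i <;> refine Fin.cases ?_ (fun j => ?_) j
  · simp [blk]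
  · simp [blk]
  · simp [blk, t, tl_s0]
  · simp [blk, t, tl_ss]

end CAL

theorem st_CAL : St_CAL := fun n =>
  ⟨fun τ z => ⟨rfl, rfl⟩, fun w => Fin.cons_self_tail w, CAL.tl_cd, CAL.cn_cd,
    fun _ _ _ hf hg => ⟨CAL.hess_tl hf, CAL.dd_tl hf hg⟩,
    fun _ w hg => ⟨hg.comp CAL.re0_cd, CAL.hess_re hg w⟩,
    fun _ _ _ h => by rw [CAL.hess00 h, lp, CAL.fd2_cn h, CAL.fd2_cn h],
    fun c _ _ h => ⟨CAL.sm_blk c h, CAL.cl_blk c h⟩, fun _ b _ h => CAL.jm_cn b h⟩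

end Pool.Agent.Lib.ZE
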