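import Pool.Agent.Lib.ZE.Blue

/-! The row CHE of the project ze. -/

open Set MeasureTheory

noncomputable section

namespace Pool.Agent.Lib.ZE

open Pool.Agent.Lib.HS32

theorem zCHE (hUPK : St_UPK) (hFU2 : St_FU2) (hPKT : St_PKT) : St_CHE := by
  intro n M _ P H G j ν c s δ hH hG cj cν j0 ν0 c0 δ0 hd hs
  have hU : P.Z.Met (P.up 1 H) := (hUPK n M P).2.2.2.1 1 H one_pos hH
  have cp : Continuous P.pr := (hPKT n M P).2.1
  obtain ⟨-, -, fu⟩ := hFU2 n M P H hH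
  obtain ⟨-, -, -, -, iZ, -, dZ⟩ := mMU (n + 1) P.Z _ hU
  obtain ⟨-, -, -, -, iM, -, -⟩ := mMU n M H hH
  have cJ := (fu j cj).1
  set J : M.X → ℝ := fun x => ∫ τ in box, j (P.q τ x) with hJ
  have J0 : ∀ x, 0 ≤ J x := fun x => integral_nonneg fun τ => j0 _
  have mB : MeasurableSet {x | δ < J x} := (isOpen_lt continuous_const cJ).measurableSet
  refine ⟨{x | δ < J x}, mB, ?_, fun x hx => not_lt.1 hx⟩
  have cd : Continuous (P.Z.dq (P.up 1 H) G) :=
    ((mTR (n + 1) P.Z).2.2.2.1 ℝ _).1 ((mINV (n + 1) P.Z _ hU).1 G hG.toTen).2.2.2.1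
  have cf : Continuous fun y => c * ν (P.pr y) * j y :=
    (continuous_const.mul (cν.comp cp)).mul cj
  have h1 : ∫ y, c * ν (P.pr y) * j y ∂P.Z.mu (P.up 1 H) ≤ s := by
    refine le_trans ?_ hs
    rw [(dZ G hG).2.1 j]
    exact integral_mono (iZ ℝ _ cf) (iZ ℝ _ (cd.mul cj)) fun y =>
      mul_le_mul_of_nonneg_right (hd y) (j0 y)
  have h2 : ∫ y, c * ν (P.pr y) * j y ∂P.Z.mu (P.up 1 H) = ∫ x, c * ν x * J x ∂M.mu H := by
    rw [(fu _ cf).2]
    refine integral_congr_ae (.of_forall fun x => ?_)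
    simp only [P.prq, hJ, integral_const_mul]
  have cg : Continuous fun x => c * ν x * J x := (continuous_const.mul cν).mul cJ
  have h3 : ∫ x in {x | δ < J x}, c * ν x * J x ∂M.mu H ≤ ∫ x, c * ν x * J x ∂M.mu H :=
    setIntegral_le_integral (iM ℝ _ cg)
      (.of_forall fun x => mul_nonneg (mul_nonneg c0.le (ν0 x)) (J0 x))
  have h4 : ∫ x in {x | δ < J x}, c * δ * ν x ∂M.mu H ≤
      ∫ x in {x | δ < J x}, c * ν x * J x ∂M.mu H := by
    refine setIntegral_mono_on (iM ℝ _ (continuous_const.mul cν)).integrableOn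
      (iM ℝ _ cg).integrableOn mB fun x hx => ?_
    have := mul_le_mul_of_nonneg_left (le_of_lt hx) (mul_nonneg c0.le (ν0 x))
    linarith
  rw [integral_const_mul] at h4
  rw [le_div_iff₀ (mul_pos c0 δ0)]
  linarith

end Pool.Agent.Lib.ZE
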