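import Pool.Agent.Lib.ZE.Blue
import Pool.Agent.Lib.ZK26.Hol

/-! Project ze: the inequality of Chern and Lu for the projection on the torus. -/

open scoped Topology ComplexOrder Matrix
open Set Filter

noncomputable section

namespace Pool.Agent.Lib.ZE

open Pool.Agent.Lib.SV (E)
open Pool.Agent.Lib.HS32

theorem zCLZ (hBLK : St_BLK) (hPKT : St_PKT) (hUPK : St_UPK) : St_CLZ := by
  intro n M _ P G Q N hG hQ h0 hr
  obtain ⟨u1, u2, -⟩ := hUPK n M P
  obtain ⟨-, b1, b2⟩ := hBLK n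
  have hA := u2 1 0 Mf.form_zero
  have hU := (u1 1 0 Mf.ten_zero).2
  have hi := (mINV _ P.Z G hG.toMet).1 _ hA.toTen
  have hp : ∀ y, 0 < P.Z.tr G (P.up 1 0) y := fun y => by
    obtain ⟨_, ⟨e, he, τ, rfl⟩, hy⟩ := (hPKT n M P).1.cov y
    have hz := (P.pc e τ).map_source hy
    have := b2 _ (hG.pos _ (P.mem e he τ) _ hz)
    rw [hi.1.at (P.mem e he τ) hy, hU e he τ _ hz]
    exact (congrArg Complex.re this.1).ge.trans_lt' this.2.1
  have hs : ZK26.Sq P.Z (P.up 1 0) := fun y => by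
    obtain ⟨_, ⟨e, he, τ, rfl⟩, hy⟩ := (hPKT n M P).1.cov y
    refine ⟨_, P.mem e he τ, hy, fun _ => Pi.single 0 1,
      Eventually.of_forall fun _ => differentiableAt_const _, ?_⟩
    filter_upwards [(P.pc e τ).open_target.mem_nhds ((P.pc e τ).map_source hy)] with w hw
    exact (hU e he τ w hw).trans b1
  exact ⟨hi.2.1, fun y => ⟨hp y, ZK26.cl_hol_le hG hA hs hp hQ h0 hr y⟩⟩

end Pool.Agent.Lib.ZE
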