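import Pool.Agent.Lib.ZE.Blue

/-! Row CV3 of the project ze: convexity at three times outside a small set. -/

open scoped Classical Topology ContDiff ComplexOrder Matrix ENNReal
open Set MeasureTheory Filter

noncomputable section

namespace Pool.Agent.Lib.ZE

open Pool.Agent.Lib.HS32
open Pool.Agent.Lib.ZK (ps Sol)

namespace CV3

theorem sin_err {R t L : ℝ} (ht : 0 < t) (htL : t ≤ L) (hLR : L ≤ R) :
    |R * Real.sin (t / R) - t| ≤ L ^ 2 / (4 * R) := by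
  have hR : 0 < R := by linarith
  have hb : 0 < t / R := div_pos ht hR
  have hb1 : t / R ≤ 1 := (div_le_one hR).2 (by linarith)
  have h1 := Real.sin_le hb.le
  have h2 := (Real.sin_gt_sub_cube hb).le
  have e : R * (t / R) = t := by field_simp
  have h3 : R * Real.sin (t / R) ≤ t := by nlinarith
  have h4 : (t / R) ^ 3 ≤ (t / R) ^ 2 := pow_le_pow_of_le_one hb.le hb1 (by norm_num)
  have h5 : (t / R) ^ 2 ≤ (L / R) ^ 2 := by gcongr
  have e2 : L ^ 2 / (4 * R) = R * ((L / R) ^ 2 / 4) := by field_simp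
  have h6 : R * (t / R - (L / R) ^ 2 / 4) ≤ R * Real.sin (t / R) :=
    mul_le_mul_of_nonneg_left (by linarith [sq_nonneg (L / R)]) hR.le
  rw [abs_le, e2]
  constructor
  · nlinarith
  · have : 0 ≤ R * ((L / R) ^ 2 / 4) := by positivity
    linarith

theorem fin {R t T L p δ ρ w0 wt wT J : ℝ} (ht : 0 < t) (htT : t ≤ T) (hTL : T ≤ L) (hR : 0 < R)
    (hp : 0 ≤ p) (hρ : 0 ≤ ρ) (hJ : J ≤ δ)
    (h : wt - (ρ + δ) ≤ ((T / R - t / R) * (w0 + δ) + t / R * (wT + (ρ + δ))) / (T / R) +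
      4 * (p * R / 4) * (T / R) ^ 2 + J) :
    wt ≤ ((T - t) * w0 + t * wT) / T + (3 * δ + 2 * ρ + p * L ^ 2 / R) := by
  have hT : 0 < T := by linarith
  have e1 : ((T / R - t / R) * (w0 + δ) + t / R * (wT + (ρ + δ))) / (T / R) =
      ((T - t) * w0 + t * wT) / T + δ + t / T * ρ := by field_simp; ring
  have e2 : 4 * (p * R / 4) * (T / R) ^ 2 = p * T ^ 2 / R := by field_simp
  have h1 : t / T * ρ ≤ ρ := mul_le_of_le_one_left hρ ((div_le_one hT).2 htT)
  have h2 : p * T ^ 2 / R ≤ p * L ^ 2 / R := by gcongr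
  rw [e1, e2] at h
  linarith

end CV3

open CV3

theorem zCV3 (hPMK : St_PMK) (hPKT : St_PKT) (hUPK : St_UPK) (hPZ : St_PZ) (hSOL : St_SOL)
    (hSAN : St_SAN) (hRZ : St_RZ) (hCLZ : St_CLZ) (hINT : St_INT) (hSLC : St_SLC) (hTRI : St_TRI)
    (hCHE : St_CHE) (hKT : St_KT) (hQQ : St_QQ) (hS0 : St_S0) (hPSI : ZK.St_PSI) : St_CV3 := by
  intro n M _ ι _ D p e B L η hp he hL hη
  obtain ⟨P⟩ := hPMK n M
  obtain ⟨R, hLR, hRη⟩ : ∃ R : ℝ, L ≤ R ∧ 3 * p * L ^ 2 / η ≤ R :=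
    ⟨max _ _, le_max_left _ _, le_max_right _ _⟩
  have hR : 0 < R := by linarith
  have hδ : 0 < η / 6 := by positivity
  obtain ⟨N, hN, hsan⟩ := hSAN p R (η / 6) hp.le hR.le hδ
  replace hsan := hsan N le_rfl n M P D.H
  have hK : 0 ≤ p * R / 4 := by positivity
  have hN' : 0 < N + p * R / 4 := by positivity
  obtain ⟨C, hC, hq⟩ := hQQ n M ι D
  obtain ⟨hclo, -, -, -, -, hv, -, -⟩ := hKT n M ι D
  obtain ⟨cV, hcV, hv⟩ := hv (p + 1) (by positivity) e he
  obtain ⟨c, hc⟩ : ∃ c : ℝ,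
    c = N * cV * Real.exp (-(B + p * R + η / 6) - (p * (B + R) + p)) := ⟨_, rfl⟩
  have hc0 : 0 < c := by rw [hc]; positivity
  obtain ⟨ε₀, hε₀, hs0⟩ := hS0 n M P ι D (p + 1) e (N + p * R / 4) C (B + p * R + η / 6)
    (η * (c * (η / 6)) / N) (by positivity) he hN' hC (by positivity)
  refine ⟨ε₀, hε₀, fun e' he' => ?_⟩
  obtain ⟨d₀, hd₀, hs0⟩ := hs0 e' he'
  refine ⟨d₀, hd₀, fun d hd V u a w hu ha pu pa hB hw hw0 => ?_⟩
  obtain ⟨sχ, fQ, nQ, hadj⟩ := hq d hd.1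
  have hH : M.Met D.H := D.kae.toMet
  have cϑ := hclo e e'
  have cα : M.Clo ((p + 1) • D.th e e') := cϑ.smul _
  have hV := (hw 0).vp
  obtain ⟨-, cpr, -, -, -, spb, -, hfib⟩ := hPKT n M P
  obtain ⟨-, uF, -, -, -, uL, -⟩ := hUPK n M P
  have spz := (hPZ n M P (D.th e e') p R u a hp.le hR.le cϑ.toForm hu ha pu pa).1
  obtain ⟨U, hU⟩ := hSOL n M P D.H ((p + 1) • D.th e e') N (N + p * R / 4) V (w 0)
    (fun y => P.pz p R u a y + D.χ d (P.pr y)) hH cα (hw 0).sm (hw 0).kae hN hN' hV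
    (spz.add (spb _ sχ))
  have san : ∀ t y, |U y - w t (P.pr y)| ≤ p * |R * P.sn y - t| + η / 6 := fun t =>
    hsan _ V t u a (D.χ d) (w t) U hH cα hu ha (hw t) hU
  have hsn : ∀ y, |P.sn y| ≤ 1 := fun y => by
    obtain ⟨τ, x, rfl⟩ := P.surj y
    rw [P.snq]
    exact Real.abs_sin_le_one _
  have hRs : ∀ y, |R * P.sn y| ≤ R := fun y => by
    rw [abs_mul, abs_of_pos hR]
    exact mul_le_of_le_one_right hR.le (hsn y)
  have hUb : ∀ y, |U y| ≤ B + p * R + η / 6 := fun y => by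
    have h1 := san 0 y
    rw [sub_zero] at h1
    have h2 := mul_le_mul_of_nonneg_left (hRs y) hp.le
    have h3 := hw0 (P.pr y)
    have h4 : |U y| ≤ |U y - w 0 (P.pr y)| + |w 0 (P.pr y)| := by
      simpa using abs_add_le (U y - w 0 (P.pr y)) (w 0 (P.pr y))
    linarith
  have hpzb : ∀ y, P.pz p R u a y ≤ p * (B + R) + p := fun y => by
    have h1 := ((hPSI n M p (R * P.sn y) u a hp.le hu ha).2.2.2.2.2.1 (P.pr y)).2.2
    have h2 := abs_le.1 (hRs y)
    have h3 := abs_le.1 (hB (P.pr y)).1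
    have h4 := abs_le.1 (hB (P.pr y)).2
    have h5 : max (u (P.pr y)) (a (P.pr y) + R * P.sn y) ≤ B + R :=
      max_le (by linarith [h3.2]) (by linarith [h4.2, h2.2])
    have h6 := mul_le_mul_of_nonneg_left h5 hp.le
    exact h1.trans (by linarith)
  obtain ⟨G, hG⟩ : ∃ G, G = P.up (N + p * R / 4) ((p + 1) • D.th e e') + P.Z.hs U := ⟨_, rfl⟩
  have kG : P.Z.Kae G := hG ▸ hU.kae
  have hrz := hRZ n M P D.H (D.th e e') (D.Q C d) p R N V u a (D.χ d) U hp.le hR.le hN hV hH cϑ fQ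
    hu ha sχ pu pa (hadj e he.le e' he'.1.le) hU
  have hs := hs0 d hd U hU.sm hU.kae hUb fQ
  have hslc := hSLC n M P ((p + 1) • D.th e e') N (p * R / 4) U hN cα.toTen hU.sm hU.kae.toMet
  have hdq := hU.eq
  rw [← hG] at hrz hs hslc hdq
  have fQ' : P.Z.Form (P.up 0 (D.Q C d)) := uF 0 _ fQ
  have nQ' : P.Z.Le 0 (P.up 0 (D.Q C d)) := (uL 0 0 _ _ fQ.toTen fQ.toTen).2.1 le_rfl nQ
  obtain ⟨sf, hcl⟩ := hCLZ n M P G _ N kG fQ' nQ' hrz
  have hint := hINT (n + 1) P.Z G _ (P.Z.tr G (P.up 0 (D.Q C d))) N kG sf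
    ((mINV _ _ G kG.toMet).1 _ fQ'.toTen).2.1.continuous hN
    fun y => ⟨(hcl y).1, kG.toMet.tr_nonneg nQ' y, (hcl y).2⟩
  have cj : Continuous fun y => N * max (N * P.Z.tr G (P.up 1 0) y - 1) 0 :=
    continuous_const.mul (((continuous_const.mul sf.continuous).sub continuous_const).max
      continuous_const)
  have nj : ∀ y, 0 ≤ N * max (N * P.Z.tr G (P.up 1 0) y - 1) 0 := fun y =>
    mul_nonneg hN.le (le_max_right _ _)
  obtain ⟨S, mS, hS, hJ⟩ := hCHE n M P D.H G _ (fun x => Real.exp (-D.χ d x)) c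
    (η * (c * (η / 6))) (η / 6) hH kG.toMet cj (Real.continuous_exp.comp sχ.continuous.neg) nj
    (fun x => (Real.exp_pos _).le) hc0 hδ (fun y => by
      rw [hdq y, hc, mul_assoc (N * cV), ← Real.exp_add]
      have h1 := hv e' he'.1 V _ _ (hw 0)
      have h2 := abs_le.1 (hUb y)
      have h3 := hpzb y
      gcongr
      linarith [h2.1]) (by
      rw [integral_const_mul]
      have := mul_le_mul_of_nonneg_left (hint.trans hs) hN.le
      rwa [mul_div_cancel₀ _ hN.ne'] at this)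
  refine ⟨S, mS, hS.trans (le_of_eq (by field_simp)), fun x hx t T ht htT hTL => ?_⟩
  have hT : 0 < T := by linarith
  have sa : ∀ (s : ℝ) (τ : ℂ), |U (P.q τ x) - w s x| ≤ p * |R * Real.sin τ.re - s| + η / 6 :=
    fun s τ => by simpa only [P.prq, P.snq] using san s (P.q τ x)
  have hρ : 0 ≤ p * (L ^ 2 / (4 * R)) := by positivity
  have tri := hTRI (fun τ => U (P.q τ x)) (fun τ => N * max (N * P.Z.tr G (P.up 1 0) (P.q τ x) - 1) 0)
    (p * R / 4) (t / R) (T / R) (w 0 x + η / 6) (w t x - (p * (L ^ 2 / (4 * R)) + η / 6))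
    (w T x + (p * (L ^ 2 / (4 * R)) + η / 6)) (hfib U hU.sm x).1
    (cj.comp (P.cont.comp (continuous_id.prodMk continuous_const)))
    (fun τ => by rw [(hfib U hU.sm x).2 τ]) hK (div_pos ht hR) (by gcongr)
    ((div_le_one hR).2 (by linarith)) (fun τ => ⟨nj _, hslc τ x⟩)
    (fun τ hτ => by
      have h1 := sa 0 τ
      rw [hτ, Real.sin_zero, mul_zero, sub_zero, abs_zero, mul_zero, zero_add] at h1
      linarith [(abs_le.1 h1).2])
    (fun τ hτ => by
      have h1 := sa t τ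
      rw [hτ] at h1
      have h2 := mul_le_mul_of_nonneg_left (sin_err ht (htT.trans hTL) hLR) hp.le
      linarith [(abs_le.1 h1).1])
    (fun τ hτ => by
      have h1 := sa T τ
      rw [hτ] at h1
      have h2 := mul_le_mul_of_nonneg_left (sin_err hT hTL hLR) hp.le
      linarith [(abs_le.1 h1).2])
  have h1 := CV3.fin ht htT hTL hR hp.le hρ (hJ x hx) tri
  have h2 : 3 * p * L ^ 2 / R ≤ η := by
    rw [div_le_iff₀ hR]
    rw [div_le_iff₀ hη] at hRη
    linarith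
  have h3 : 2 * (p * (L ^ 2 / (4 * R))) + p * L ^ 2 / R = 3 * p * L ^ 2 / R / 2 := by
    field_simp
    ring
  linarith

end Pool.Agent.Lib.ZE
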