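import Pool.Agent.Lib.ZE.Blue
import Pool.Agent.Lib.ZE46.B_CZBI
import Pool.Agent.Lib.ZK.B_KIT

/-! Row `CZ2` of the project ze: the bound at time zero. -/

open Set

namespace Pool.Agent.Lib.ZE

theorem zCZ2 (hPSI : ZK.St_PSI) (hUNI : ZK.St_UNI) (hUP2 : St_UP2) : St_CZ2 := by
  intro n M _ H C₀ p C q B₀ hH hp hq
  rcases Nat.eq_zero_or_pos n with hn | hn
  · exact ⟨0, fun _ _ _ _ _ _ hD => absurd hD.pos (by omega)⟩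
  obtain ⟨B, hB⟩ := ZE46.st_CZBI ZK.st_KIT hPSI hUNI hUP2 n M H C₀ p C q 0 B₀ hn hH hp hq
  exact ⟨B, fun ϑ V u a χ w => hB ϑ V u a χ w 0 ⟨le_rfl, le_rfl⟩⟩

end Pool.Agent.Lib.ZE
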