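import Pool.Agent.Lib.ZE.Blue
import Pool.Agent.Lib.ZK48.Uni

/-! Project ze, row FA2: the potentials are close in measure. -/

open scoped Classical Topology ContDiff ComplexOrder Matrix
open Set MeasureTheory Filter

noncomputable section

namespace Pool.Agent.Lib.ZE

open Pool.Agent.Lib.HS32 Pool.Agent.Lib.DM.K63

theorem zFA2 (hKT : St_KT) : St_FA2 := by
  intro n M _ ι _ D a η ha hη
  obtain ⟨-, ⟨C, hC⟩, -, hK, -⟩ := hKT n M ι D
  have hH := D.kae
  obtain ⟨P, hP⟩ := sup_le hH.toMet C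
  obtain ⟨-, fin, -, v0, -⟩ := mMU n M _ hH.toMet
  set V := (M.mu D.H).real univ with hV
  set r := min 1 (η / (4 * V)) with hr
  have r0 : 0 < r := by positivity
  have r1 : r ≤ 1 := min_le_left _ _
  have r2 : r * (4 * V) ≤ η := (le_div_iff₀ (by positivity)).1 (min_le_right _ _)
  have sub : ∀ {s}, s ∈ Ioc 0 r → s ∈ Ioc (0 : ℝ) 1 := fun h => ⟨h.1, h.2.trans r1⟩
  have hm : ∀ {e e' s s' : ℝ}, e ∈ Ioc 0 r → e' ∈ Ioc 0 r → s ∈ Ioc 0 r → s' ∈ Ioc 0 r → s ≤ e →
      s' ≤ e' → ∀ x, a s s' x ≤ a e e' x + e' := fun h1 h2 h3 h4 h5 h6 =>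
    have p := ha _ (sub h3) _ (sub h4)
    (ha _ (sub h1) _ (sub h2)).mx _ p.sm (hK _ _ _ _ _ h5 h6 p.sm p.kae.toMet).1 p.np
  have ig : ∀ {e e' : ℝ}, e ∈ Ioc 0 r → e' ∈ Ioc 0 r → Integrable (a e e') (M.mu D.H) :=
    fun h1 h2 => int hH.toMet (ha _ (sub h1) _ (sub h2)).sm.continuous
  have bd : BddBelow ((fun s => ∫ x, a s s x ∂M.mu D.H) '' Ioc 0 r) := by
    refine ⟨-V - P, ?_⟩
    rintro _ ⟨s, hs, rfl⟩
    have h := ha s (sub hs) s (sub hs)
    obtain ⟨y, hy⟩ := h.sm.exists_max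
    have k := h.mx (fun x => a s s x + -a s s y) (h.sm.add (Mf.sm_const _))
      (h.kae.toMet.congr fun e he z hz => by
        simp only [Pi.add_apply]; rw [hs_add_const h.sm _ e he z hz])
      (fun x => by linarith [hy x]) y
    have k2 := hP _ h.sm (ZK48.le_psh (hC s (sub hs) s (sub hs)) h.kae.toMet.nonneg) y
    have k3 := mul_le_mul_of_nonneg_right (show -1 ≤ a s s y by linarith [(sub hs).2]) v0.le
    simp only
    linarith
  obtain ⟨_, ⟨e, he, rfl⟩, h1⟩ := exists_lt_of_csInf_lt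
    ((nonempty_Ioc.2 r0).image fun s => ∫ x, a s s x ∂M.mu D.H)
    (lt_add_of_pos_right _ (half_pos hη))
  refine ⟨e, sub he, fun s hs e' he' => ?_⟩
  have h2 : e' ∈ Ioc 0 r := ⟨he'.1, he'.2.trans he.2⟩
  have h2' : s ∈ Ioc 0 r := ⟨hs.1, hs.2.trans he.2⟩
  have h6 : min s e' ∈ Ioc 0 r := ⟨lt_min hs.1 he'.1, (min_le_left _ _).trans h2'.2⟩
  have h3 := csInf_le bd (mem_image_of_mem _ h6)
  have h4 := integral_mono (ig h6 h6) ((ig h2' h2).add (integrable_const e'))
    (hm h2' h2 h6 h6 (min_le_left _ _) (min_le_right _ _))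
  rw [integral_add' (ig h2' h2) (integrable_const _), integral_const, smul_eq_mul, ← hV] at h4
  have i1 := ig he he
  have i2 := ig h2' h2
  have h5 := mul_meas_ge_le_integral_of_nonneg (μ := M.mu D.H)
    (f := fun x => a e e x - a s e' x + e)
    (ae_of_all _ fun x => by simp only [Pi.zero_apply]; linarith [hm he he h2' h2 hs.2 he'.2 x])
    ((i1.sub i2).add (integrable_const _)) 1
  rw [one_mul, integral_add (f := fun x => a e e x - a s e' x) (i1.sub i2) (integrable_const _),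
    integral_sub i1 i2, integral_const, smul_eq_mul, ← hV] at h5
  refine (measureReal_mono fun x (hx : 1 < a e e' x - a s e' x) => ?_).trans (h5.trans ?_)
  · show 1 ≤ a e e x - a s e' x + e
    linarith [hm he he he h2 le_rfl he'.2 x]
  · simp only at h1 h3
    nlinarith [mul_le_mul_of_nonneg_left he.2 v0.le, mul_le_mul_of_nonneg_left h2.2 v0.le]

end Pool.Agent.Lib.ZE
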