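import Pool.Agent.Lib.ZE.Blue

/-! Row FU2: consequences of the theorem of Fubini. -/

open scoped Classical Topology ENNReal
open Set MeasureTheory Filter

namespace Pool.Agent.Lib.ZE

open Pool.Agent.Lib.HS32

namespace FU2

theorem vol_box : volume box = ENNReal.ofReal ((2 * Real.pi) ^ 2) := by
  have h := Complex.volume_preserving_equiv_real_prod.measure_preimage_equiv
    (Ioc 0 (2 * Real.pi) ×ˢ Ioc 0 (2 * Real.pi))
  rw [Measure.volume_eq_prod, Measure.prod_prod, Real.volume_Ioc, sub_zero,
    ← ENNReal.ofReal_mul (by positivity), ← sq] at h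
  exact h

end FU2

theorem zFU2 (hPKT : St_PKT) (hFUB : St_FUB) : St_FU2 := by
  intro n M _ P H hH
  have := (mCOV n M).1
  have := (mMU n M H hH).2.1
  have : IsFiniteMeasure (volume.restrict box) :=
    isFiniteMeasure_restrict.2 (FU2.vol_box ▸ ENNReal.ofReal_ne_top)
  have cq : Continuous fun s : M.X × ℂ => P.q s.2 s.1 := P.cont.comp continuous_swap
  have mp := (hPKT n M P).2.1.measurable
  have e : (P.Z.mu (P.up 1 H)).map P.pr = ENNReal.ofReal ((2 * Real.pi) ^ 2) • M.mu H := by
    rw [hFUB n M P H hH, Measure.map_map mp cq.measurable, ← FU2.vol_box,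
      ← Measure.restrict_apply_univ, ← Measure.map_fst_prod]
    exact congrArg (Measure.map · _) (funext fun s => P.prq _ _)
  refine ⟨fun g hg => ?_, fun A hA => Measure.preimage_null_of_map_null mp.aemeasurable
    (by rw [e, Measure.smul_apply, hA, smul_zero]), fun f hf => ?_⟩
  · have h : Integrable g ((P.Z.mu (P.up 1 H)).map P.pr) :=
      e ▸ hg.smul_measure ENNReal.ofReal_ne_top
    refine ⟨h.comp_measurable mp, (integral_map mp.aemeasurable h.aestronglyMeasurable).symm.trans ?_⟩
    rw [e, integral_smul_measure, ENNReal.toReal_ofReal (sq_nonneg _), smul_eq_mul]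
  · obtain ⟨B, hB⟩ := isCompact_univ.exists_bound_of_continuousOn hf.continuousOn
    have c := hf.comp cq
    refine ⟨continuous_of_dominated (bound := fun _ => B)
      (fun x => (c.comp (Continuous.prodMk_right x)).aestronglyMeasurable)
      (fun x => .of_forall fun τ => hB _ trivial) (integrable_const B)
      (.of_forall fun τ => c.comp (Continuous.prodMk_left τ)), ?_⟩
    rw [hFUB n M P H hH, integral_map cq.aemeasurable hf.aestronglyMeasurable]
    exact integral_prod _ (.of_bound c.aestronglyMeasurable B (.of_forall fun _ => hB _ trivial))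

end Pool.Agent.Lib.ZE
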