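import Pool.Agent.Lib.ZE.Blue

/-! The theorem of Fubini on the product with a torus. -/

open scoped Classical Topology ContDiff ComplexOrder Matrix ENNReal
open Set MeasureTheory Filter

set_option linter.unusedVariables false

noncomputable section

namespace Pool.Agent.Lib.ZE

open Pool.Agent.Lib.SV (E)
open Pool.Agent.Lib.HS32

namespace FUB

/-- The lattice. -/
def lat (g : ℤ × ℤ) : ℂ := (2 * Real.pi * g.1 : ℝ) + (2 * Real.pi * g.2 : ℝ) * Complex.I

theorem lat_re (g : ℤ × ℤ) : (lat g).re = 2 * Real.pi * g.1 := by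
  simp only [lat, Complex.add_re, Complex.ofReal_re, Complex.mul_re, Complex.I_re, mul_zero,
    Complex.ofReal_im, Complex.I_im, zero_mul, sub_self, add_zero]

theorem lat_im (g : ℤ × ℤ) : (lat g).im = 2 * Real.pi * g.2 := by
  simp only [lat, Complex.add_im, Complex.ofReal_re, Complex.mul_im, Complex.I_re, mul_zero,
    Complex.ofReal_im, Complex.I_im, mul_one, zero_add, add_zero]

theorem int_eq {a b : ℤ} (h : |2 * Real.pi * a - 2 * Real.pi * b| < 2 * Real.pi) : a = b := by
  have hp := Real.pi_pos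
  rw [← mul_sub, abs_mul, abs_of_pos (by positivity : 0 < 2 * Real.pi)] at h
  have h1 : |(a : ℝ) - b| < 1 := by
    by_contra hc
    push Not at hc
    nlinarith
  have h2 : |a - b| < 1 := by exact_mod_cast h1
  have := Int.abs_lt_one_iff.1 h2
  omega

theorem mbox : MeasurableSet box :=
  (measurableSet_Ioc.preimage Complex.measurable_re).inter
    (measurableSet_Ioc.preimage Complex.measurable_im)

theorem cov1 (x : ℝ) : ∃ a : ℤ, x - 2 * Real.pi * a ∈ Ioc 0 (2 * Real.pi) := by
  have hp : 0 < 2 * Real.pi := by have := Real.pi_pos; positivity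
  refine ⟨toIocDiv hp 0 x, ?_⟩
  have := sub_toIocDiv_zsmul_mem_Ioc hp 0 x
  rwa [zero_add, zsmul_eq_mul, mul_comm _ (2 * Real.pi)] at this

theorem per {S : Set ℂ} (hS : MeasurableSet S) (τ₀ : ℂ) (hp : ∀ τ g, τ + lat g ∈ S ↔ τ ∈ S)
    (hc : ∀ τ ∈ S, ∃ g, ‖τ + lat g - τ₀‖ < 1) :
    volume (S ∩ box) = volume (S ∩ {τ | ‖τ - τ₀‖ < 1}) := by
  have hpi := Real.pi_gt_three
  have mD : MeasurableSet {τ : ℂ | ‖τ - τ₀‖ < 1} :=
    (isOpen_lt (by fun_prop) continuous_const).measurableSet
  have e1 : S ∩ box = ⋃ g, (S ∩ box) ∩ (· + lat g) ⁻¹' {τ | ‖τ - τ₀‖ < 1} := by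
    ext τ
    simp only [mem_iUnion, mem_inter_iff, mem_preimage, mem_ofPred_eq]
    exact ⟨fun h => (hc τ h.1).imp fun g hg => ⟨h, hg⟩, fun ⟨g, h, _⟩ => h⟩
  have e2 : S ∩ {τ | ‖τ - τ₀‖ < 1} =
      ⋃ g, (S ∩ {τ | ‖τ - τ₀‖ < 1}) ∩ (· - lat g) ⁻¹' box := by
    ext τ
    simp only [mem_iUnion, mem_inter_iff, mem_preimage, mem_ofPred_eq]
    refine ⟨fun h => ?_, fun ⟨g, h, _⟩ => h⟩
    obtain ⟨a, ha⟩ := cov1 τ.re
    obtain ⟨b, hb⟩ := cov1 τ.im
    exact ⟨(a, b), h, by rwa [Complex.sub_re, lat_re], by rwa [Complex.sub_im, lat_im]⟩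
  rw [e1, e2, measure_iUnion, measure_iUnion]
  · refine tsum_congr fun g => ?_
    rw [← measure_preimage_add_right volume (lat g) (S ∩ {τ | ‖τ - τ₀‖ < 1} ∩ _)]
    congr 1
    ext τ
    simp only [mem_inter_iff, mem_preimage, mem_ofPred_eq, hp, add_sub_cancel_right]
    tauto
  · intro g g' hg
    refine disjoint_left.2 fun τ h h' => hg ?_
    obtain ⟨h1, h2⟩ := h.2
    obtain ⟨h3, h4⟩ := h'.2
    simp only [Complex.sub_re, Complex.sub_im, lat_re, lat_im, mem_Ioc] at h1 h2 h3 h4
    exact Prod.ext (int_eq (abs_lt.2 ⟨by linarith [h1.1, h3.2], by linarith [h1.2, h3.1]⟩))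
      (int_eq (abs_lt.2 ⟨by linarith [h2.1, h4.2], by linarith [h2.2, h4.1]⟩))
  · exact fun g => (hS.inter mD).inter (mbox.preimage (by fun_prop))
  · intro g g' hg
    refine disjoint_left.2 fun τ h h' => hg ?_
    have h1 : ‖τ + lat g - τ₀‖ < 1 := h.2
    have h2 : ‖τ + lat g' - τ₀‖ < 1 := h'.2
    have h3 : ‖lat g - lat g'‖ < 2 := by
      have := norm_sub_le (τ + lat g - τ₀) (τ + lat g' - τ₀)
      rw [show τ + lat g - τ₀ - (τ + lat g' - τ₀) = lat g - lat g' by ring] at this
      linarith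
    have h4 := Complex.abs_re_le_norm (lat g - lat g')
    have h5 := Complex.abs_im_le_norm (lat g - lat g')
    rw [Complex.sub_re, lat_re, lat_re] at h4
    rw [Complex.sub_im, lat_im, lat_im] at h5
    exact Prod.ext (int_eq (by linarith)) (int_eq (by linarith))
  · exact fun g => (hS.inter mbox).inter (mD.preimage (by fun_prop))

theorem ton {n : ℕ} {ρ : E n → ℝ≥0∞} (hρ : Measurable ρ) {B : Set (E (n + 1))}
    (hB : MeasurableSet B) :
    ∫⁻ w in B, ρ (tl w) = ∫⁻ z, ρ z * volume {τ | cn τ z ∈ B} := by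
  let φ := (MeasurableEquiv.piFinSuccAbove (fun _ : Fin (n + 1) => ℂ) 0).symm
  have hφ : MeasurePreserving φ :=
    (volume_preserving_piFinSuccAbove (fun _ : Fin (n + 1) => ℂ) 0).symm _
  have e : ∀ s : ℂ × E n, φ s = cn s.1 s.2 := fun s => Fin.insertNth_zero' s.1 s.2
  have mt : Measurable (tl : E (n + 1) → E n) := measurable_pi_iff.2 fun i => measurable_pi_apply _
  have mf : Measurable (B.indicator fun w => ρ (tl w)) := (hρ.comp mt).indicator hB
  rw [← lintegral_indicator hB, ← hφ.lintegral_comp mf, Measure.volume_eq_prod,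
    lintegral_prod_symm' (fun a => B.indicator (fun w => ρ (tl w)) (φ a)) (mf.comp φ.measurable)]
  refine lintegral_congr fun z => ?_
  have mc : MeasurableSet {τ | cn τ z ∈ B} := by
    have : Measurable fun τ : ℂ => φ (τ, z) := φ.measurable.comp measurable_prodMk_right
    simp only [e] at this
    exact hB.preimage this
  rw [← setLIntegral_const, ← lintegral_indicator mc]
  refine lintegral_congr fun τ => ?_
  rw [e]
  by_cases h : cn τ z ∈ B
  · rw [indicator_of_mem h, indicator_of_mem (show τ ∈ {τ | cn τ z ∈ B} from h)]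
    rfl
  · rw [indicator_of_notMem h, indicator_of_notMem (show τ ∉ {τ | cn τ z ∈ B} from h)]

end FUB

open FUB in
theorem zFUB (hBLK : St_BLK) (hPKT : St_PKT) (hUPK : St_UPK) : St_FUB := by
  intro n M _ P H hH
  obtain ⟨hS, hpr, -, k4, -⟩ := hPKT n M P
  obtain ⟨u1, -, -, u4, -⟩ := hUPK n M P
  have hG := u4 1 H one_pos hH
  have hU := (u1 1 H hH.toTen).2
  have mQ : Measurable fun s : M.X × ℂ => P.q s.2 s.1 := (P.cont.comp continuous_swap).measurable
  have := (mMU n M H hH).2.1
  choose c hc hy using hS.cov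
  obtain ⟨T, hT⟩ := isCompact_univ.elim_finite_subcover (fun y => (c y).source)
    (fun y => (c y).open_source) fun y _ => mem_iUnion.2 ⟨y, hy y⟩
  refine Measure.ext_of_biUnion_eq_univ (S := (T : Set P.Z.X)) (s := fun y => (c y).source)
    T.countable_toSet (univ_subset_iff.1 hT) fun y₀ _ => ?_
  obtain ⟨e, he, τ₀, hc₀⟩ := hc y₀
  rw [hc₀]
  ext A₀ hA₀
  rw [Measure.restrict_apply hA₀, Measure.restrict_apply hA₀]
  have hA : MeasurableSet (A₀ ∩ (P.pc e τ₀).source) :=
    hA₀.inter (P.pc e τ₀).open_source.measurableSet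
  have hAs : A₀ ∩ (P.pc e τ₀).source ⊆ (P.pc e τ₀).source := inter_subset_right
  generalize A₀ ∩ (P.pc e τ₀).source = A at hA hAs
  set k := P.pc e τ₀ with hk
  have mB : MeasurableSet (k.target ∩ k.symm ⁻¹' A) := by
    have := (k.continuousOn_symm.measurable_piecewise (g := fun _ => y₀) continuousOn_const
      k.open_target.measurableSet) hA
    have e1 : k.target ∩ k.symm ⁻¹' A =
        k.target ∩ (k.target.piecewise k.symm fun _ => y₀) ⁻¹' A := by
      ext w
      refine and_congr_right fun hw => ?_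
      rw [mem_preimage, mem_preimage, piecewise_eq_of_mem _ _ _ hw]
    rw [e1]
    exact k.open_target.measurableSet.inter this
  have eA : k.symm '' (k.target ∩ k.symm ⁻¹' A) = A := by
    refine Subset.antisymm (by rintro _ ⟨w, hw, rfl⟩; exact hw.2) fun y hy => ?_
    exact ⟨k y, ⟨k.map_source (hAs hy), by rw [mem_preimage, k.left_inv (hAs hy)]; exact hy⟩,
      k.left_inv (hAs hy)⟩
  have cρ : ContinuousOn (fun z => ENNReal.ofReal (H e z).det.re) e.target := fun z hz => by
    have h1 : ContinuousAt (H e) z :=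
      continuousAt_pi.2 fun i => continuousAt_pi.2 fun j => (hH.sm e he z hz i j).continuousAt
    exact (ENNReal.continuous_ofReal.continuousAt.comp (Complex.continuous_re.continuousAt.comp
      ((continuous_id.matrix_det).continuousAt.comp h1))).continuousWithinAt
  have mρ : Measurable (e.target.indicator fun z => ENNReal.ofReal (H e z).det.re) := by
    rw [← piecewise_eq_indicator]
    exact cρ.measurable_piecewise continuousOn_const e.open_target.measurableSet
  have L := ((mMU (n + 1) P.Z _ hG).2.2.2.2.2.1 k (P.mem e he τ₀) _ mB inter_subset_left).2.1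
    fun _ => 1
  rw [eA, setLIntegral_one] at L
  have R := ((mMU n M H hH).2.2.2.2.2.1 e he e.target e.open_target.measurableSet subset_rfl).2.1
    fun x => volume.restrict box {τ | P.q τ x ∈ A}
  rw [e.symm_image_target_eq_source] at R
  rw [L, Measure.map_apply mQ hA, Measure.prod_apply (mQ hA)]
  have z1 : ∫⁻ x, volume.restrict box (Prod.mk x ⁻¹' ((fun s : M.X × ℂ => P.q s.2 s.1) ⁻¹' A))
      ∂M.mu H = ∫⁻ x in e.source, volume.restrict box {τ | P.q τ x ∈ A} ∂M.mu H := by
    rw [← lintegral_indicator e.open_source.measurableSet]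
    refine lintegral_congr fun x => ?_
    by_cases hx : x ∈ e.source
    · rw [indicator_of_mem hx]; rfl
    · rw [indicator_of_notMem hx]
      have : Prod.mk x ⁻¹' ((fun s : M.X × ℂ => P.q s.2 s.1) ⁻¹' A) = ∅ :=
        eq_empty_of_forall_notMem fun τ hτ => hx (by
          have := (k4 e he τ₀ _ (hAs hτ)).1
          rwa [P.prq] at this)
      rw [this, measure_empty]
  rw [z1, R, setLIntegral_congr_fun mB (g := fun w =>
    e.target.indicator (fun z => ENNReal.ofReal (H e z).det.re) (tl w)) fun w hw => by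
      simp only [mul_one]
      rw [hU e he τ₀ w hw.1, indicator_of_mem ((P.tgt e he τ₀ w).1 hw.1).2,
        ((hBLK n).1 1 1 1 (H e (tl w)) 0).2.2.2.2.2.2.2.2.1, Complex.ofReal_one, one_mul],
    ton mρ mB, ← lintegral_indicator e.open_target.measurableSet]
  refine lintegral_congr fun z => ?_
  by_cases hz : z ∈ e.target
  swap
  · rw [indicator_of_notMem hz, indicator_of_notMem hz, zero_mul]
  rw [indicator_of_mem hz, indicator_of_mem hz]
  congr 1
  have mS : MeasurableSet {τ | P.q τ (e.symm z) ∈ A} :=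
    hA.preimage (P.cont.comp (continuous_id.prodMk continuous_const)).measurable
  rw [Measure.restrict_apply mS, per mS τ₀]
  · congr 1
    ext τ
    have t1 : cn τ z ∈ k.target ↔ ‖τ - τ₀‖ < 1 :=
      (P.tgt e he τ₀ _).trans ⟨fun h => h.1, fun h => ⟨h, hz⟩⟩
    simp only [mem_ofPred_eq, mem_inter_iff, mem_preimage]
    constructor
    · rintro ⟨h1, h2⟩
      rw [P.sym e he τ₀ _ h1] at h2
      exact ⟨h2, t1.1 h1⟩
    · rintro ⟨h1, h2⟩
      refine ⟨t1.2 h2, ?_⟩
      rw [P.sym e he τ₀ _ (t1.2 h2)]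
      exact h1
  · intro τ g
    have : P.q (τ + lat g) (e.symm z) = P.q τ (e.symm z) :=
      (P.eqv _ _ _).2 ⟨g.1, g.2, by rw [lat, add_assoc]⟩
    simp only [mem_ofPred_eq, this]
  · intro τ hτ
    have h1 := (k4 e he τ₀ _ (hAs hτ)).2.2
    rw [P.prq] at h1
    obtain ⟨a, b, h2⟩ := (P.eqv _ _ _).1 h1.symm
    refine ⟨(a, b), ?_⟩
    have h3 := ((P.tgt e he τ₀ _).1 (k.map_source (hAs hτ))).1
    rwa [h2, add_assoc] at h3

end Pool.Agent.Lib.ZE
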