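import Pool.Agent.Lib.ZE.Blue
import Pool.Agent.Lib.HS32.MAll

/-! The row INT of the project ze: integration of the inequality of Chern and Lu. -/

open scoped Classical Topology ContDiff ComplexOrder Matrix ENNReal
open Set MeasureTheory Filter

noncomputable section

namespace Pool.Agent.Lib.ZE

open Pool.Agent.Lib.HS32

namespace INT

theorem cut_le (t η : ℝ) (hη : 0 < η) : max t 0 ≤ Real.smoothTransition (t / η) * t + η := by
  have h0 := Real.smoothTransition.nonneg (t / η)
  rcases le_total t 0 with h | h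
  · rw [max_eq_right h,
      Real.smoothTransition.zero_of_nonpos (div_nonpos_of_nonpos_of_nonneg h hη.le)]
    linarith
  · rw [max_eq_left h]
    rcases le_total t η with h' | h'
    · have := mul_nonneg h0 h
      linarith
    · rw [Real.smoothTransition.one_of_one_le ((one_le_div hη).2 h')]
      linarith

theorem step {n : ℕ} (M : Mf n) [M.Cpt] (G : M.Fam (Mat n)) (f g : M.X → ℝ) (N η : ℝ)
    (hG : M.Kae G) (hf : M.Sm f) (hg : Continuous g) (hN : 0 < N) (hη : 0 < η)
    (h : ∀ x, 0 < f x ∧ 0 ≤ g x ∧ N * f x - 1 - g x ≤ M.lap G (fun y => Real.log (f y)) x) :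
    ∫ x, max (N * f x - 1) 0 ∂M.mu G ≤ ∫ x, g x ∂M.mu G + η * (M.mu G).real univ := by
  obtain ⟨-, hfin, -, -, hint, -⟩ := mMU n M G hG.toMet
  have hu : M.Sm fun y => Real.log (f y) := hf.log fun x => (h x).1.ne'
  set u : M.X → ℝ := fun y => Real.log (f y) with hud
  set φ : ℝ → ℝ := fun s => Real.smoothTransition ((N * Real.exp s - 1) / η) with hφd
  have hφ : ContDiff ℝ ∞ φ :=
    Real.smoothTransition.contDiff.comp
      (((contDiff_const.mul Real.contDiff_exp).sub contDiff_const).div_const η)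
  have hm : Monotone φ := fun a b hab => Real.smoothTransition.monotone
    (div_le_div_of_nonneg_right
      (sub_le_sub_right (mul_le_mul_of_nonneg_left (Real.exp_le_exp.2 hab) hN.le) 1) hη.le)
  have hw : M.Sm fun x => φ (u x) := hu.comp fun x => hφ.contDiffAt
  obtain ⟨-, -, hL⟩ := mLAP n M u u hu hu
  obtain ⟨hl, -, hp, hc, -⟩ := hL G hG.toMet
  obtain ⟨-, -, hL'⟩ := mLAP n M u _ hu hw
  obtain ⟨-, -, hp', -, -⟩ := hL' G hG.toMet
  have hgr : ∀ x, 0 ≤ M.gr G u (fun x => φ (u x)) x := fun x => by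
    rw [(hp' x 0).2.2.2.2.2.1, (hc φ (fun x => hφ.contDiffAt) x).2]
    exact mul_nonneg hm.deriv_nonneg (hp x 0).2.2.2.2.2.2.1
  have hG0 : ∫ x, φ (u x) * M.lap G u x ∂M.mu G ≤ 0 := by
    rw [((mGRN n M).2 G u _ hG hu hw).2.1]
    exact neg_nonpos.2 (integral_nonneg hgr)
  have hc1 : Continuous fun x => φ (u x) * M.lap G u x := hw.continuous.mul hl.continuous
  have hpt : ∀ x, max (N * f x - 1) 0 ≤ φ (u x) * M.lap G u x + g x + η := fun x => by
    have e : φ (u x) = Real.smoothTransition ((N * f x - 1) / η) := by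
      simp only [hφd, hud, Real.exp_log (h x).1]
    have h1 := cut_le (N * f x - 1) η hη
    have h2 := Real.smoothTransition.nonneg ((N * f x - 1) / η)
    have h3 := Real.smoothTransition.le_one ((N * f x - 1) / η)
    have h4 := mul_le_mul_of_nonneg_left (h x).2.2 h2
    have h5 := mul_le_mul_of_nonneg_right h3 (h x).2.1
    rw [e]
    nlinarith
  have i1 := hint ℝ _ hc1
  have i2 := hint ℝ _ hg
  have i3 : Integrable (fun _ : M.X => η) (M.mu G) := integrable_const η
  have i4 := hint ℝ (fun x => max (N * f x - 1) 0)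
    (((continuous_const.mul hf.continuous).sub continuous_const).max continuous_const)
  have i5 : Integrable (fun x => φ (u x) * M.lap G u x + g x) (M.mu G) := i1.add i2
  have h6 := integral_mono i4 (i5.add i3) hpt
  have h7 : ∫ x, (φ (u x) * M.lap G u x + g x + η) ∂M.mu G =
      ∫ x, φ (u x) * M.lap G u x ∂M.mu G + ∫ x, g x ∂M.mu G + η * (M.mu G).real univ := by
    rw [integral_add i5 i3, integral_add i1 i2, integral_const, smul_eq_mul, mul_comm]
  have h8 : ∫ x, max (N * f x - 1) 0 ∂M.mu G ≤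
      ∫ x, (φ (u x) * M.lap G u x + g x + η) ∂M.mu G := h6
  linarith

end INT

theorem zINT : St_INT := by
  intro n M _ G f g N hG hf hg hN h
  have hv : 0 < (M.mu G).real univ := (mMU n M G hG.toMet).2.2.2.1
  refine le_of_forall_pos_le_add fun ε hε => ?_
  have := INT.step M G f g N (ε / (M.mu G).real univ) hG hf hg hN (div_pos hε hv) h
  rwa [div_mul_cancel₀ _ hv.ne'] at this

end Pool.Agent.Lib.ZE
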