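import Pool.Agent.Lib.ZE.Blue

/-! Row LA2: from the weighted tail to the exponential integral. -/

open Set MeasureTheory

noncomputable section

namespace Pool.Agent.Lib.ZE

namespace LA2

variable {X : Type} [MeasurableSpace X] {μ : Measure X} [IsFiniteMeasure μ]

theorem itg90 {f : X → ℝ} {B : ℝ} (c : ℝ) (hf : Measurable f) (hB : ∀ x, |f x| ≤ B) :
    Integrable (fun x => Real.exp (c * f x)) μ :=
  (integrable_const (Real.exp (|c| * B))).mono' (hf.const_mul c).exp.aestronglyMeasurable
    (ae_of_all _ fun x => by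
      rw [Real.norm_of_nonneg (Real.exp_pos _).le]
      refine Real.exp_le_exp.2 ((le_abs_self _).trans ?_)
      rw [abs_mul]
      exact mul_le_mul_of_nonneg_left (hB x) (abs_nonneg c))

omit [IsFiniteMeasure μ] in
theorem lay90 {ρ y : X → ℝ} {m A t B : ℝ} (hm : 0 < m) (hρI : Integrable ρ μ) (hR : ∀ x, 0 ≤ ρ x)
    (hy : Measurable y) (hB : ∀ x, |y x| ≤ B)
    (hT : ∀ T, t ≤ T → ∫ x in {x | T ≤ y x}, ρ x ∂μ ≤ A * Real.exp (-((m + 1) * T))) :
    ∫ x, ρ x * Real.exp (m * y x) ∂μ ≤
      (∫ x, ρ x ∂μ) * Real.exp (m * t) + |A| * Real.exp (m - t) * (1 - Real.exp (-1))⁻¹ := by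
  set N := ⌊B - t⌋₊ + 1 with hN
  have hS : ∀ k : ℕ, MeasurableSet {x | t + k ≤ y x} := fun k => measurableSet_le measurable_const hy
  have hI : ∀ k : ℕ, Integrable
      ({x | t + k ≤ y x}.indicator fun x => ρ x * Real.exp (m * (t + k + 1))) μ := fun k =>
    (hρI.mul_const _).indicator (hS k)
  have hpt : ∀ x, ρ x * Real.exp (m * y x) ≤ ρ x * Real.exp (m * t) + ∑ k ∈ Finset.range N,
      {x | t + k ≤ y x}.indicator (fun x => ρ x * Real.exp (m * (t + k + 1))) x := fun x => by
    have h0 : ∀ k ∈ Finset.range N,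
        0 ≤ {x | t + k ≤ y x}.indicator (fun x => ρ x * Real.exp (m * (t + k + 1))) x := fun k _ =>
      indicator_nonneg (fun x _ => mul_nonneg (hR x) (Real.exp_pos _).le) x
    rcases le_total (y x) t with h | h
    · exact le_add_of_le_of_nonneg (mul_le_mul_of_nonneg_left
        (Real.exp_le_exp.2 (mul_le_mul_of_nonneg_left h hm.le)) (hR x)) (Finset.sum_nonneg h0)
    · have h1 := Nat.floor_le (sub_nonneg.2 h)
      have h2 := Nat.lt_floor_add_one (y x - t)
      have h3 : ⌊y x - t⌋₊ ∈ Finset.range N := Finset.mem_range.2 (Nat.lt_succ_of_le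
        (Nat.floor_le_floor (sub_le_sub_right ((le_abs_self _).trans (hB x)) t)))
      refine le_add_of_nonneg_of_le (mul_nonneg (hR x) (Real.exp_pos _).le)
        (le_trans ?_ (Finset.single_le_sum h0 h3))
      rw [indicator_of_mem (show x ∈ {x' | t + (⌊y x - t⌋₊ : ℝ) ≤ y x'} from by
        change t + _ ≤ y x
        linarith)]
      exact mul_le_mul_of_nonneg_left
        (Real.exp_le_exp.2 (mul_le_mul_of_nonneg_left (by linarith) hm.le)) (hR x)
  have hsum := integrable_finsetSum (Finset.range N) fun k _ => hI k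
  refine (integral_mono_of_nonneg (ae_of_all _ fun x => mul_nonneg (hR x) (Real.exp_pos _).le)
    ((hρI.mul_const _).add hsum) (ae_of_all _ hpt)).trans ?_
  rw [integral_add' (hρI.mul_const _) hsum, integral_mul_const, integral_finsetSum _ fun k _ => hI k]
  refine add_le_add le_rfl ?_
  have e1 : Real.exp (-1) < 1 := Real.exp_lt_one_iff.2 (by norm_num)
  have e2 := (summable_geometric_of_lt_one (Real.exp_pos _).le e1).sum_le_tsum (Finset.range N)
    fun k _ => pow_nonneg (Real.exp_pos _).le k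
  rw [tsum_geometric_of_lt_one (Real.exp_pos _).le e1] at e2
  refine le_trans ?_ (mul_le_mul_of_nonneg_left e2 (by positivity))
  rw [Finset.mul_sum]
  refine Finset.sum_le_sum fun k _ => ?_
  rw [integral_indicator (hS k), integral_mul_const]
  have e3 := (hT (t + k) (le_add_of_nonneg_right (Nat.cast_nonneg k))).trans
    (mul_le_mul_of_nonneg_right (le_abs_self A) (Real.exp_pos _).le)
  refine (mul_le_mul_of_nonneg_right e3 (Real.exp_pos _).le).trans (le_of_eq ?_)
  rw [mul_assoc, mul_assoc, ← Real.exp_nat_mul, ← Real.exp_add, ← Real.exp_add]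
  exact congrArg _ (congrArg _ (by ring))

theorem yng90 {m δ a b : ℝ} (hδ : 0 < δ) : Real.exp (m * a) ≤
    Real.exp (δ * b) + Real.exp (-b) * Real.exp ((1 + 1 / δ) * m * a) := by
  rw [← Real.exp_add]
  rcases le_total (m * a) (δ * b) with h | h
  · exact le_add_of_le_of_nonneg (Real.exp_le_exp.2 h) (Real.exp_pos _).le
  · refine le_add_of_nonneg_of_le (Real.exp_pos _).le (Real.exp_le_exp.2 ?_)
    have h1 : b ≤ 1 / δ * (m * a) := by
      rw [one_div, ← div_eq_inv_mul, le_div_iff₀ hδ]
      linarith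
    linarith

theorem one90 {q b : ℝ} (hq : 1 < q) : Real.exp (-b) ≤ Real.exp (-(q * b)) + 1 := by
  rcases le_total 0 b with h | h
  · exact le_add_of_nonneg_of_le (Real.exp_pos _).le (Real.exp_le_one_iff.2 (neg_nonpos.2 h))
  · exact le_add_of_le_of_nonneg (Real.exp_le_exp.2 (by nlinarith)) zero_le_one

end LA2

open LA2 in
theorem zLA2 : St_LA2 := by
  intro m δ q C hm hδ hq
  have hr : 0 < (1 + 1 / δ) * m := by positivity
  refine ⟨(1 + 1 / δ) * m + 1, by positivity, fun X _ μ _ A t => ⟨C + ((C + μ.real univ) *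
    Real.exp ((1 + 1 / δ) * m * t) + |A| * Real.exp ((1 + 1 / δ) * m - t) * (1 - Real.exp (-1))⁻¹),
    fun y χ B hy hχ hB h1 h2 hT => ?_⟩⟩
  have i1 : Integrable (fun x => Real.exp (-χ x)) μ :=
    (itg90 (μ := μ) (-1) hχ fun x => (hB x).2).congr
      (ae_of_all _ fun x => congrArg Real.exp (neg_one_mul _))
  have i2 : Integrable (fun x => Real.exp (-(q * χ x))) μ :=
    (itg90 (μ := μ) (-q) hχ fun x => (hB x).2).congr
      (ae_of_all _ fun x => congrArg Real.exp (neg_mul _ _))
  have i3 := itg90 (μ := μ) δ hχ fun x => (hB x).2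
  have i4 : Integrable (fun x => Real.exp (-χ x) * Real.exp ((1 + 1 / δ) * m * y x)) μ :=
    (itg90 (μ := μ) ((1 + 1 / δ) * m) hy fun x => (hB x).1).bdd_mul (c := Real.exp B)
      hχ.neg.exp.aestronglyMeasurable (ae_of_all _ fun x => by
        rw [Real.norm_of_nonneg (Real.exp_pos _).le]
        exact Real.exp_le_exp.2 ((neg_le_abs _).trans (hB x).2))
  have l1 := lay90 hr i1 (fun x => (Real.exp_pos _).le) hy (fun x => (hB x).1) hT
  have l2 : ∫ x, Real.exp (-χ x) ∂μ ≤ C + μ.real univ := by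
    refine (integral_mono i1 (i2.add (integrable_const 1)) fun x => one90 hq).trans ?_
    rw [integral_add' i2 (integrable_const 1), integral_const, smul_eq_mul, mul_one]
    exact add_le_add h1 le_rfl
  refine (integral_mono (itg90 m hy fun x => (hB x).1) (i3.add i4) fun x => yng90 hδ).trans ?_
  rw [integral_add' i3 i4]
  exact add_le_add h2 (l1.trans (add_le_add
    (mul_le_mul_of_nonneg_right l2 (Real.exp_pos _).le) le_rfl))

end Pool.Agent.Lib.ZE
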