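import Pool.Agent.Lib.ZE.Blue

/-! Charts and functions of the product with a torus. -/

open scoped Classical Topology ContDiff ComplexOrder Matrix ENNReal
open Set MeasureTheory Filter

noncomputable section

namespace Pool.Agent.Lib.ZE

open Pool.Agent.Lib.SV (E)
open Pool.Agent.Lib.HS32

namespace PKT

variable {n : ℕ} {M : Mf n} (P : Pd M)

theorem fwd {e : M.Ch} (he : e ∈ M.C) {τ₀ τ : ℂ} (h : ‖τ - τ₀‖ < 1) {x : M.X}
    (hx : x ∈ e.source) : cn τ (e x) ∈ (P.pc e τ₀).target ∧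
      (P.pc e τ₀).symm (cn τ (e x)) = P.q τ x := by
  have t : cn τ (e x) ∈ (P.pc e τ₀).target := (P.tgt e he τ₀ _).2 ⟨h, e.map_source hx⟩
  refine ⟨t, ?_⟩
  rw [P.sym e he τ₀ _ t]
  show P.q τ (e.symm (e x)) = _
  rw [e.left_inv hx]

theorem src {e : M.Ch} (he : e ∈ M.C) {τ₀ τ : ℂ} (h : ‖τ - τ₀‖ < 1) {x : M.X}
    (hx : x ∈ e.source) : P.q τ x ∈ (P.pc e τ₀).source ∧ P.pc e τ₀ (P.q τ x) = cn τ (e x) := by
  obtain ⟨t, s⟩ := fwd P he h hx
  rw [← s]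
  exact ⟨(P.pc e τ₀).map_target t, (P.pc e τ₀).right_inv t⟩

theorem bwd {e : M.Ch} (he : e ∈ M.C) {τ₀ : ℂ} {y : P.Z.X} (hy : y ∈ (P.pc e τ₀).source) :
    P.pr y = e.symm (tl (P.pc e τ₀ y)) ∧ P.pr y ∈ e.source ∧ tl (P.pc e τ₀ y) = e (P.pr y) ∧
      y = P.q (P.pc e τ₀ y 0) (P.pr y) := by
  have t := (P.pc e τ₀).map_source hy
  have s := P.sym e he τ₀ _ t
  rw [(P.pc e τ₀).left_inv hy] at s
  have t2 := ((P.tgt e he τ₀ _).1 t).2
  have r : P.pr y = e.symm (tl (P.pc e τ₀ y)) := by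
    conv_lhs => rw [s]
    exact P.prq _ _
  refine ⟨r, ?_, ?_, ?_⟩
  · rw [r]; exact e.map_target t2
  · rw [r, e.right_inv t2]
  · rw [r]; exact s

theorem sub : P.Z.Sub P.S := ⟨fun c ⟨e, he, τ, h⟩ => h ▸ P.mem e he τ, fun y => by
  obtain ⟨τ, x, rfl⟩ := P.surj y
  obtain ⟨e, he, hx⟩ := M.cov x
  exact ⟨_, ⟨e, he, τ, rfl⟩, (src P he (by simp) hx).1⟩⟩

theorem ctl : Continuous (tl : E (n + 1) → E n) := continuous_pi fun _ => continuous_apply _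

theorem cpr : Continuous P.pr := continuous_iff_continuousAt.2 fun y => by
  obtain ⟨c, ⟨e, he, τ, rfl⟩, hy⟩ := (sub P).cov y
  have t2 := ((P.tgt e he τ _).1 ((P.pc e τ).map_source hy)).2
  have h : ContinuousAt (fun v => e.symm (tl (P.pc e τ v))) y :=
    ContinuousAt.comp (f := fun v => tl (P.pc e τ v)) (e.continuousAt_symm t2)
      (ctl.continuousAt.comp ((P.pc e τ).continuousAt hy))
  refine h.congr ?_
  filter_upwards [(P.pc e τ).open_source.mem_nhds hy] with v hv using (bwd P he hv).1.symm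

theorem evs {e : M.Ch} (he : e ∈ M.C) {τ : ℂ} {w : E (n + 1)} (hw : w ∈ (P.pc e τ).target) :
    ∀ᶠ v in 𝓝 w, (P.pc e τ).symm v = P.q (v 0) (e.symm (tl v)) := by
  filter_upwards [(P.pc e τ).open_target.mem_nhds hw] with v hv using P.sym e he τ v hv

theorem jac (hC : St_CAL) {e e' : M.Ch} (he : e ∈ M.C) (he' : e' ∈ M.C) {τ τ' : ℂ} {y : P.Z.X}
    (hy : y ∈ (P.pc e τ).source) (hy' : y ∈ (P.pc e' τ').source) :
    P.Z.J (P.pc e τ) (P.pc e' τ') y = blk 1 (M.J e e' (P.pr y)) := by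
  obtain ⟨-, x1, -, y1⟩ := bwd P he hy
  obtain ⟨-, x2, t2, y2⟩ := bwd P he' hy'
  obtain ⟨a, b, hab⟩ := (P.eqv _ _ _).1 (y1.symm.trans y2)
  set c : ℂ := ((2 * Real.pi * a : ℝ) : ℂ) + (2 * Real.pi * b : ℝ) * Complex.I with hc
  have hab' : P.pc e τ y 0 = P.pc e' τ' y 0 + c := by rw [hab, hc, add_assoc]
  obtain ⟨hol, -, -, ev, -⟩ := (mTR n M).2.1 e he e' he' _ x1 x2
  have n1 : ‖P.pc e' τ' y 0 + c - τ‖ < 1 :=
    hab' ▸ ((P.tgt e he τ _).1 ((P.pc e τ).map_source hy)).1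
  have c1 : Continuous fun v : E (n + 1) => ‖v 0 + c - τ‖ := by fun_prop
  have e1 : ∀ᶠ v in 𝓝 (P.pc e' τ' y), ‖v 0 + c - τ‖ < 1 :=
    c1.continuousAt.eventually (gt_mem_nhds n1)
  have e2 : ∀ᶠ v in 𝓝 (P.pc e' τ' y), e'.symm (tl v) ∈ e.source := by
    have := ctl.continuousAt (x := P.pc e' τ' y)
    rw [ContinuousAt, t2] at this
    exact this.eventually (ev.mono fun w hw => hw.2.1)
  have e3 : (P.pc e τ ∘ (P.pc e' τ').symm) =ᶠ[𝓝 (P.pc e' τ' y)]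
      fun v => cn (v 0 + c) ((e ∘ e'.symm) (tl v)) := by
    filter_upwards [e1, e2, evs P he' ((P.pc e' τ').map_source hy')] with v h1 h2 h3
    have h4 : P.q (v 0 + c) (e'.symm (tl v)) = P.q (v 0) (e'.symm (tl v)) :=
      (P.eqv _ _ _).2 ⟨a, b, by rw [hc, add_assoc]⟩
    rw [Function.comp_apply, h3, ← h4]
    exact (src P he h1 h2).2
  have d : DifferentiableAt ℂ (e ∘ e'.symm) (tl (P.pc e' τ' y)) := t2 ▸ hol.self_of_nhds
  have k := ((hC n).2.2.2.2.2.2.2.2 (e ∘ e'.symm) c _ d).2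
  rw [t2] at k
  rw [Mf.J, Mf.J, ← k, jm, jm, e3.fderiv_eq]

end PKT

open PKT in
theorem zPKT (hCAL : St_CAL) : St_PKT := fun n M _ P => by
  refine ⟨sub P, cpr P, fun e he τ₀ τ h x hx => src P he h hx,
    fun e he τ₀ y hy => (bwd P he hy).2, fun e he e' he' τ τ' y hy hy' => jac P hCAL he he' hy hy',
    fun f hf => ?_, fun g hg => ?_, fun U hU x => ⟨?_, fun τ => ?_⟩⟩
  · refine (mSUB _ P.Z P.S (sub P)).2.1 ℝ _ ?_
    rintro c ⟨e, he, τ, rfl⟩ w hw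
    have h := (hf e he _ ((P.tgt e he τ w).1 hw).2).comp w (hCAL n).2.2.1.contDiffAt
    refine h.congr_of_eventuallyEq ?_
    filter_upwards [evs P he hw] with v hv
    simp only [Function.comp_apply, Pd.pb, hv, P.prq]
  · have hs : ContDiff ℝ ∞ fun s => g (Real.sin s) := hg.comp Real.contDiff_sin
    have ev : ∀ e ∈ M.C, ∀ τ, ∀ w ∈ (P.pc e τ).target,
        ∀ᶠ v in 𝓝 w, g (P.sn ((P.pc e τ).symm v)) = g (Real.sin (v 0).re) := fun e he τ w hw => by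
      filter_upwards [evs P he hw] with v hv
      rw [hv, P.snq]
    refine ⟨(mSUB _ P.Z P.S (sub P)).2.1 ℝ _ ?_, fun e he τ w hw => ?_⟩
    · rintro c ⟨e, he, τ, rfl⟩ w hw
      exact ((hCAL n).2.2.2.2.2.1 _ w hs).1.contDiffAt.congr_of_eventuallyEq (ev e he τ w hw)
    · rw [← ((hCAL n).2.2.2.2.2.1 _ w hs).2]
      refine hess_congr ?_
      filter_upwards [ev e he τ w hw] with v hv
      simp only [Mf.lc, hv]
  · refine contDiff_iff_contDiffAt.2 fun τ₀ => ?_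
    obtain ⟨e, he, hx⟩ := M.cov x
    have h := (hU _ (P.mem e he τ₀) _ (fwd P he (τ₀ := τ₀) (τ := τ₀) (by simp) hx).1).comp τ₀
      ((hCAL n).2.2.2.1 (e x)).contDiffAt
    refine h.congr_of_eventuallyEq ?_
    have c1 : Continuous fun τ : ℂ => ‖τ - τ₀‖ := by fun_prop
    filter_upwards [c1.continuousAt.eventually (gt_mem_nhds (show ‖τ₀ - τ₀‖ < 1 by simp))] with τ h1
    simp only [Function.comp_apply, (fwd P he h1 hx).2]
  · exact (P.eqv _ _ _).2 ⟨0, 1, by simp⟩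

end Pool.Agent.Lib.ZE
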