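import Pool.Agent.Lib.ZE.Blue
import Pool.Agent.Lib.ZE80.Prod

/-! The product with a torus exists. -/

open scoped Topology Real
open Set Complex

noncomputable section

namespace Pool.Agent.Lib.ZE

open Pool.Agent.Lib.SV (E)
open Pool.Agent.Lib.HS32

namespace PMK

theorem ci_eq {s t : ℝ} : (s : ZE80.Ci) = t ↔ ∃ a : ℤ, s = t + 2 * π * a := by
  rw [eq_comm, QuotientAddGroup.eq, AddSubgroup.mem_zmultiples_iff]
  refine exists_congr fun a => ?_
  rw [zsmul_eq_mul]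
  constructor <;> intro h <;> linarith

theorem q_eq {τ τ' : ℂ} : ZE80.q τ' = ZE80.q τ ↔
    ∃ a b : ℤ, τ' = τ + (2 * π * a : ℝ) + (2 * π * b : ℝ) * I := by
  rw [ZE80.q, ZE80.q, Prod.mk.injEq, ci_eq, ci_eq]
  simp only [Complex.ext_iff, add_re, add_im, ofReal_re, ofReal_im, mul_re, mul_im, I_re, I_im,
    mul_zero, mul_one, sub_zero, add_zero, exists_and_left, exists_and_right]

theorem opn (n : ℕ) (τ : ℂ) : IsOpen {w : E (n + 1) | ‖w 0 - τ‖ < 1} :=
  isOpen_lt (by fun_prop) continuous_const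

theorem sq {σ τ : ℂ} (h : ‖σ - τ‖ < 1) : σ ∈ (ZE80.tc τ).target := by
  have h1 := abs_lt.1 ((abs_re_le_norm _).trans_lt h)
  have h2 := abs_lt.1 ((abs_im_le_norm _).trans_lt h)
  rw [sub_re] at h1
  rw [sub_im] at h2
  have := Real.two_le_pi
  rw [ZE80.tc_tgt]
  refine ⟨⟨?_, ?_⟩, ?_, ?_⟩ <;> linarith [h1.1, h1.2, h2.1, h2.2]

end PMK

open PMK in
theorem zPMK : St_PMK := fun n M _ => ⟨{
  Z := ZE80.pd M
  cpt := inferInstance
  q := fun τ x => (x, ZE80.q τ)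
  pr := Prod.fst
  sn := fun y => Real.sin_periodic.lift y.2.1
  pc := fun e τ => (ZE80.pc e τ).trans (OpenPartialHomeomorph.ofSet _ (opn n τ))
  cont := continuous_snd.prodMk (ZE80.q_cont.comp continuous_fst)
  surj := fun y => (ZE80.q_surj y.2).imp fun _ h => ⟨y.1, Prod.ext rfl h⟩
  prq := fun _ _ => rfl
  snq := fun _ _ => rfl
  eqv := fun _ _ _ => (Prod.mk_right_inj (α := M.X)).trans q_eq
  mem := fun _ he τ => (ZE80.pd M).sat _ (ZE80.pc_mem he τ) _ differentiableOn_id differentiableOn_id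
  tgt := fun _ _ _ _ => ⟨fun h => ⟨h.1, h.2.1⟩, fun h => ⟨h.1, h.2, sq h.1⟩⟩
  sym := fun _ _ _ _ _ => rfl }⟩

end Pool.Agent.Lib.ZE
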