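import Pool.Agent.Lib.ZE.Blue

/-! The Ricci form of the solution on the product. -/

open scoped Classical Topology ContDiff ComplexOrder Matrix
open Set MeasureTheory Filter

noncomputable section

namespace Pool.Agent.Lib.ZE

open Pool.Agent.Lib.HS32

theorem zRZ (hUPK : St_UPK) (hUPS : St_UPS) (hPKT : St_PKT) (hPZ : St_PZ) : St_RZ := by
  intro n M _ P H ϑ Q p R N V u a χ U hp hR hN hV hH hϑ hQ hu ha hχ pu pa hle hS
  obtain ⟨-, -, -, kMet, -, k6, k7, -, k0⟩ := hUPK n M P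
  obtain ⟨hz1, hz2⟩ := hPZ n M P ϑ p R u a hp hR hϑ.toForm hu ha pu pa
  have hpb : P.Z.Sm (P.pb χ) := (hPKT n M P).2.2.2.2.2.1 χ hχ
  have hF : P.Z.Sm fun y => P.pz p R u a y + P.pb χ y := hz1.add hpb
  have hric := ((mHES _ P.Z).2.2.2.2.2.2.2.2.2 _ _ hS.kae.toMet (kMet 1 H one_pos hH)).2
  have hlog : (fun y => Real.log
      (P.Z.dq (P.up 1 H) (P.up (N + p * R / 4) ((p + 1) • ϑ) + P.Z.hs U) y)) =
      fun y => Real.log (N * V) + (U y - (P.pz p R u a y + P.pb χ y)) := by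
    funext y
    rw [hS.eq y, Real.log_mul (mul_pos hN hV).ne' (Real.exp_pos _).ne', Real.log_exp]
    rfl
  have t0 : M.Ten 0 := k0.toForm.toTen
  have tϑ := hϑ.toForm.toTen
  have tr := ((mHES n M).2.2.2.2.2.2.2.2.1 H hH).toForm.toTen
  have th := ((mHES n M).1 χ hχ).toForm.toTen
  have t1 := tϑ.add tr
  have t2 := t1.add th
  have p2 := (k6 0 0 _ _ (t2.add hQ.toTen) t0).2.1 le_rfl hle
  intro e he w hw
  have h1 := (mLAP _ P.Z (fun _ => Real.log (N * V)) _ (Mf.sm_const _) (hS.sm.sub hF)).1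
    (Real.log (N * V)) e he w hw
  have h2 := ((mLAP _ P.Z U _ hS.sm hF).1 0 e he w hw).2.2.1
  have h3 := ((mLAP _ P.Z _ _ hz1 hpb).1 0 e he w hw).2.1
  have h4 := hric e he w hw
  rw [hlog, h1.2.1, h1.1, h2, h3, (k7 χ χ hχ hχ e he w hw).1,
    (hUPS n M P H hH).1 e he w hw] at h4
  have a1 := ((k6 0 0 _ _ t2 hQ.toTen).2.2.2 0 e he w hw).1
  have a2 := ((k6 0 0 _ _ t1 th).2.2.2 0 e he w hw).1
  have a3 := ((k6 0 0 _ _ tϑ tr).2.2.2 0 e he w hw).1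
  have a4 := ((k6 (p * R / 4) 0 _ _ (tϑ.smul p) tϑ).2.2.2 0 e he w hw).1
  have a5 := ((k6 (N * 1) (p * R / 4 + 0) _ _ (t0.smul N) ((tϑ.smul p).add tϑ)).2.2.2 0 e he w hw).1
  have a6 := ((k6 1 0 _ _ t0 t0).2.2.2 N e he w hw).2
  rw [a4, a6, smul_zero, zero_add, add_zero, mul_one,
    show p • ϑ + ϑ = (p + 1) • ϑ by rw [add_smul, one_smul]] at a5
  rw [add_zero] at a1 a2 a3
  have key : P.Z.ric (P.up (N + p * R / 4) ((p + 1) • ϑ) + P.Z.hs U) e w -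
      (N • P.up 1 0 - (P.up (N + p * R / 4) ((p + 1) • ϑ) + P.Z.hs U) - P.up 0 Q) e w =
      (P.up (p * R / 4) (p • ϑ) + P.Z.hs (P.pz p R u a)) e w - (0 : P.Z.Fam (Mat (n + 1))) e w +
        (P.up 0 (ϑ + M.ric H + M.hs χ + Q) e w - (0 : P.Z.Fam (Mat (n + 1))) e w) := by
    rw [h4]
    simp only [Pi.add_apply, Pi.sub_apply, Pi.smul_apply, Pi.zero_apply, a1, a2, a3, a5]
    module
  rw [key]
  exact (hz2 e he w hw).add (p2 e he w hw)

end Pool.Agent.Lib.ZE
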