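import Pool.Agent.Lib.ZE.Blue
import Pool.Agent.Lib.ZE45.Kit

/-! Row S0 of the project ze: the integral of the error tends to zero. -/

open scoped Classical Topology ContDiff ComplexOrder Matrix ENNReal
open Set MeasureTheory Filter

set_option linter.unusedVariables false

noncomputable section

namespace Pool.Agent.Lib.ZE

open Pool.Agent.Lib.HS32 Pool.Agent.Lib.DM.K63
open Pool.Agent.Lib.ZK (fm)
open Pool.Agent.Lib.DX (ta mx fl la)

namespace S0

variable {n : ℕ} {M : Mf n} [M.Cpt]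

/-- Bounded potentials put little mass near the zero set. -/
theorem cln0 {H G : M.Fam (Mat n)} {σ : M.X → ℝ} {C η : ℝ} (hH : M.Kae H) (hG : M.Kae G)
    (hσ : M.Sm σ) (σ0 : ∀ x, 0 ≤ σ x) (hne : ∃ x, σ x ≠ 0) (C0 : 0 ≤ C)
    (hC : ∀ δ > 0, M.Le 0 (C • H + M.hs fun x => Real.log (σ x + δ))) (A : ℝ) (η0 : 0 < η) :
    ∃ d₀ > (0 : ℝ), ∀ δ ∈ Ioc 0 d₀, ∀ u, M.Sm u → M.Met (G + M.hs u) → (∀ x, |u x| ≤ A) →
      ∫ x, δ / (σ x + δ) * M.tr (G + M.hs u) H x ∂M.mu (G + M.hs u) ≤ η := by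
  obtain ⟨S, S0, hS⟩ := hσ.exists_bound
  have σ1 : ∀ x, 0 ≤ σ x ∧ σ x ≤ S := fun x => ⟨σ0 x, (le_abs_self _).trans (hS x)⟩
  have hGH := hG.toClo.add hH.toClo
  obtain ⟨A₂, A0', h2⟩ := psi_bd hH.toMet hσ σ1 hne hC
    ((mINV n M H hH.toMet).1 _ hGH.toTen).2.2.2.1
  set V := ∫ x, M.dq H (G + H) x ∂M.mu H with hV
  set Z := |A₂ + n * C * (A + A) * V| + 1 with hZ
  have Z0 : 0 < Z := by positivity
  set R := 2 * Z / η with hR
  have R0 : 0 < R := by positivity
  refine ⟨min 1 (η / (2 * Real.exp R * (|V| + 1))), by positivity, fun δ hδ u u1 u2 ub => ?_⟩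
  have δ0 := hδ.1
  have δ1 : δ ∈ Ioc (0 : ℝ) 1 := ⟨δ0, hδ.2.trans (min_le_left _ _)⟩
  have p : ∀ x, 0 < σ x + δ := fun x => add_pos_of_nonneg_of_pos (σ0 x) δ0
  have hf : M.Sm fun x => Real.log (σ x + δ) := (hσ.add (Mf.sm_const δ)).log fun x => (p x).ne'
  have fS : ∀ x, Real.log (σ x + δ) ≤ S := fun x => by
    linarith [Real.log_le_sub_one_of_pos (p x), (σ1 x).2, δ1.2]
  have hψ := (Mf.sm_const S).sub hf
  have c1 := cln' hH hG u1 u2 hψ (fun e he z hz => by
    have := hC δ δ0 e he z hz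
    simp only [Pi.add_apply, Pi.zero_apply, sub_zero] at this
    simp only [hs_const_sub hf S e he z hz, sub_neg_eq_add]
    exact this) C0 fun x => abs_le.1 (ub x)
  have hm : M.Met (G + M.hs u + H) := u2.of_le (u2.toForm.add hH.toForm)
    fun e he z hz => (congrArg Matrix.PosSemidef (add_sub_cancel_left _ _)).mpr
      (hH.pos e he z hz).posSemidef
  have cq := dq_c hH.toMet hm.toTen
  have cl : Continuous fun x => δ / (σ x + δ) :=
    continuous_const.div (hσ.continuous.add continuous_const) fun x => (p x).ne'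
  have v1 : ∫ x, M.dq H (G + M.hs u + H) x ∂M.mu H = V := by
    rw [add_right_comm]; exact mCOH n M H _ u hH.toMet hGH u1
  calc _ ≤ _ := tr_le hH.toMet u2 hH.toForm hH.toMet.nonneg cl
        fun x => div_nonneg δ0.le (p x).le
    _ ≤ ∫ x, (δ * Real.exp R * M.dq H (G + M.hs u + H) x +
          R⁻¹ * ((S - Real.log (σ x + δ)) * M.dq H (G + M.hs u + H) x)) ∂M.mu H :=
        integral_mono (int hH.toMet (cl.mul cq)) (int hH.toMet ((continuous_const.mul cq).add
          (continuous_const.mul (hψ.continuous.mul cq)))) fun x =>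
          (mul_le_mul_of_nonneg_right (lam_le (σ0 x) δ0 S0.le R0 (fS x))
            (((mINV n M H hH.toMet).2.2.2.2.2.2.2 _ hm).1 x).le).trans_eq (by ring)
    _ ≤ η / 2 + η / 2 := by
        rw [integral_add (int hH.toMet (continuous_const.fun_mul cq))
          (int hH.toMet (continuous_const.fun_mul (hψ.continuous.fun_mul cq))), integral_const_mul,
          integral_const_mul, v1]
        refine add_le_add ?_ ?_
        · have k := (le_div_iff₀ (by positivity)).1 (hδ.2.trans (min_le_right _ _))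
          have k2 := mul_le_mul_of_nonneg_left
            ((le_abs_self V).trans (le_add_of_nonneg_right zero_le_one))
            (mul_pos δ0 (Real.exp_pos R)).le
          linarith
        · have k : R⁻¹ * Z = η / 2 := by rw [hR]; field_simp
          rw [← k]
          refine mul_le_mul_of_nonneg_left ?_ (inv_pos.2 R0).le
          linarith [h2 δ δ1, le_abs_self (A₂ + n * C * (A + A) * V)]
    _ = η := add_halves η

omit [M.Cpt] in
theorem tc_sm {H T S : M.Fam (Mat n)} (hH : M.Met H) (hT : M.Ten T) (hS : M.Ten S) :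
    M.Sm (M.ev fun e z => ((T e z).adjugate * S e z).trace / (H e z).det) :=
  (ZE45.ta_inv hH hT hS).sm fun e he z hz => by
    simp only [div_eq_mul_inv]
    exact ((hT.sm e he z hz).adjugate.mul (hS.sm e he z hz)).trace.mul
      ((hH.sm e he z hz).det.inv (hH.det_ne e he z hz))

omit [M.Cpt] in
theorem ta_c {H T S : M.Fam (Mat n)} (hH : M.Met H) (hT : M.Ten T) (hS : M.Ten S) :
    Continuous (ta M H T S) := (tc_sm hH hT hS).re.continuous

open Polynomial in
theorem der1 {H T S : M.Fam (Mat n)} (hH : M.Met H) (hT : M.Form T) (hS : M.Form S) :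
    HasDerivAt (fun t : ℝ => ∫ x, M.dq H (T + t • S) x ∂M.mu H) (mx M H T S) 0 := by
  have hF : ∀ t : ℝ, M.Form (T + t • S) := fun t => hT.add (hS.smul t)
  have hdq : ∀ (t : ℝ) x, ((M.dq H (T + t • S) x : ℝ) : ℂ) =
      (BCOH.pl (M.ev T x) (M.ev S x) * C ((M.ev H x).det⁻¹)).eval (t : ℂ) := fun t x => by
    have h := ((mINV n M H hH).2.1 _ (hF t) (M.ch x) (Mf.ch_mem x) _ (Mf.ch_tgt x)).2.1
    rw [Mf.ch_symm] at h
    rw [h, eval_mul, eval_C, BCOH.pl_eval, div_eq_mul_inv]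
    rfl
  have h := poly_der (M.mu H)
    (fun x => BCOH.pl (M.ev T x) (M.ev S x) * C ((M.ev H x).det⁻¹)) n
    (fun x => (natDegree_mul_C_le _ _).trans ((natDegree_det_X_add_C_le _ _).trans (by simp)))
    (fun t => (int hH (dq_c hH (hF t).toTen)).ofReal.congr (ae_of_all _ (hdq t))) 0
  have e : ∀ x, (derivative (BCOH.pl (M.ev T x) (M.ev S x) * C ((M.ev H x).det⁻¹))).eval
      ((0 : ℝ) : ℂ) = M.ev (fun e z => ((T e z).adjugate * S e z).trace / (H e z).det) x :=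
    fun x => by
    rw [derivative_mul, derivative_C, mul_zero, add_zero, eval_mul, eval_C, BCOH.pl_deriv,
      Complex.ofReal_zero, zero_smul, add_zero, ← div_eq_mul_inv]
    rfl
  simp only [← hdq, e, integral_complex_ofReal] at h
  have k := Complex.reCLM.hasFDerivAt.comp_hasDerivAt (0 : ℝ) h
  exact k.congr_deriv (Complex.reCLM.integral_comp_comm
    ((mMU n M H hH).2.2.2.2.1 ℂ _ (tc_sm hH hT.toTen hS.toTen).continuous)).symm

/-- The mixed volume depends only on the class. -/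
theorem pol3 {H T S : M.Fam (Mat n)} {u : M.X → ℝ} (hH : M.Met H) (hT : M.Clo T) (hS : M.Clo S)
    (hu : M.Sm u) : mx M H (T + M.hs u) S = mx M H T S := by
  have h1 := der1 hH hT.toForm hS.toForm
  have h2 := der1 hH (hT.add ((mHES n M).1 u hu)).toForm hS.toForm
  rw [show (fun t : ℝ => ∫ x, M.dq H (T + M.hs u + t • S) x ∂M.mu H) =
      fun t : ℝ => ∫ x, M.dq H (T + t • S) x ∂M.mu H from funext fun t => by
    rw [add_right_comm]
    exact mCOH n M H _ u hH (hT.add (hS.smul t)) hu] at h2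
  exact h2.unique h1

variable (P : Pd M) (G : P.Z.Fam (Mat (n + 1)))

theorem up_add (hU : St_UPK) {S T : M.Fam (Mat n)} (hS : M.Ten S) (hT : M.Ten T) (y : P.Z.X) :
    P.Z.tr G (P.up 0 (S + T)) y = P.Z.tr G (P.up 0 S) y + P.Z.tr G (P.up 0 T) y := by
  have h := ((hU n M P).2.2.2.2.2.1 0 0 S T hS hT).2.2.2 1
  rw [← Mf.tr_add, Mf.tr_congr (G := G) (G' := G) (T := P.up 0 (S + T))
    (T' := P.up 0 S + P.up 0 T) (fun _ _ _ _ => rfl) fun e he w hw => by
      simpa only [add_zero, Pi.add_apply] using (h e he w hw).1]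

theorem up_smul (hU : St_UPK) {T : M.Fam (Mat n)} (hT : M.Ten T) (c : ℝ) (y : P.Z.X) :
    P.Z.tr G (P.up 0 (c • T)) y = c * P.Z.tr G (P.up 0 T) y := by
  have h := ((hU n M P).2.2.2.2.2.1 0 0 T T hT hT).2.2.2 c
  rw [← Mf.tr_smul, Mf.tr_congr (G := G) (G' := G) (T := P.up 0 (c • T))
    (T' := c • P.up 0 T) (fun _ _ _ _ => rfl) fun e he w hw => by
      simpa only [mul_zero, Pi.smul_apply] using (h e he w hw).2]

theorem up_sum (hU : St_UPK) {ι : Type} {T : ι → M.Fam (Mat n)} (hT : ∀ i, M.Ten (T i))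
    (s : Finset ι) : M.Ten (∑ i ∈ s, T i) ∧
      ∀ y, P.Z.tr G (P.up 0 (∑ i ∈ s, T i)) y = ∑ i ∈ s, P.Z.tr G (P.up 0 (T i)) y := by
  induction s using Finset.induction_on with
  | empty =>
    refine ⟨Mf.ten_zero, fun y => ?_⟩
    have h := up_smul P G hU (Mf.ten_zero (M := M)) 0 y
    simpa using h
  | insert i s hi ih =>
    simp only [Finset.sum_insert hi]
    exact ⟨(hT i).add ih.1, fun y => by rw [up_add P G hU (hT i) ih.1, ih.2]⟩

end S0

open S0 in
theorem zS0 (hPKT : St_PKT) (hUPK : St_UPK) (hUPS : St_UPS) (hFU2 : St_FU2) (hSGU : St_SGU)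
    (hKT : St_KT) (hOR2 : St_OR2) : St_S0 := by
  intro n M _ P ι _ D k e N' C A s hk he hN hC hs
  have hm := D.kae.toMet
  obtain ⟨-, u2, u3, -, u5, u6, u7, u8, -⟩ := hUPK n M P
  have hH : P.Z.Kae (P.up 1 D.H) := u5 _ _ one_pos D.kae
  obtain ⟨K, hK⟩ : ∃ K : ℝ, K = ∑ i, max (D.κ i) 0 + 1 := ⟨_, rfl⟩
  have K0 : 0 ≤ ∑ i, max (D.κ i) 0 := Finset.sum_nonneg fun i _ => le_max_right _ _
  have K1 : 0 < K := by linarith
  have hπ := Real.two_pi_pos
  obtain ⟨ε₀, ε0, ho⟩ := hOR2 n M ι D k e (s / 2 / (K * ((2 * Real.pi) ^ 2 * N'))) hk he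
    (by positivity)
  refine ⟨ε₀, ε0, fun e' he' => ?_⟩
  have hα : M.Clo (k • D.th e e') := ((hKT n M ι D).1 e e').smul k
  have hα' := u3 N' _ hα
  by_cases hex : ∃ U, P.Z.Sm U ∧ P.Z.Kae (P.up N' (k • D.th e e') + P.Z.hs U) ∧ ∀ y, |U y| ≤ A
  swap
  · exact ⟨1, one_pos, fun d _ U h1 h2 h3 _ => absurd ⟨U, h1, h2, h3⟩ hex⟩
  obtain ⟨U₀, a1, a2, a3⟩ := hex
  have sg := fun i => hSGU n M P D.H _ _ hm (D.sg i)
  obtain ⟨L, hL⟩ : ∃ L : ℝ, L = (C + 1) * (Fintype.card ι + 1) := ⟨_, rfl⟩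
  have L0 : 0 < L := by rw [hL]; positivity
  have kg := fun i => ZE45.bridge hH.toMet (sg i)
  choose c c0 hc _ using fun i => (mBD _ P.Z _ hH.toMet).1 _ (sg i).clo.toForm
  choose d₀ d0 hd using fun i => cln0 hH a2 (sg i).sm (sg i).nn (kg i).ne (c0 i).le
    ((kg i).low hH.toMet (c0 i).le (hc i)) (A + A) (η := s / 2 / L) (by positivity)
  obtain ⟨d₁, d1, hd1⟩ : ∃ d₁ > (0 : ℝ), ∀ i, d₁ ≤ d₀ i := by
    obtain ⟨r, hr, r0⟩ := ((eventually_all.2 fun i =>
      mem_nhdsWithin_of_mem_nhds (Iic_mem_nhds (d0 i))).and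
      (self_mem_nhdsWithin (a := (0 : ℝ)) (s := Ioi 0))).exists
    exact ⟨r, r0, hr⟩
  refine ⟨d₁, d1, fun d hdd U b1 b2 b3 hQ => ?_⟩
  set G := P.up N' (k • D.th e e') + P.Z.hs U with hG
  have gm := b2.toMet
  have rg : ∀ i, M.Sm (fl (D.σ i) d) ∧ M.Sm (la (D.σ i) d) := fun i =>
    ⟨(ZE45.bridge hm (D.sg i)).lsm hdd.1, (ZE45.bridge hm (D.sg i)).lam hdd.1⟩
  have pb := (hPKT n M P).2.2.2.2.2.1
  have sl : M.Sm fun x => C * ∑ i, la (D.σ i) d x :=
    (Mf.Sm.sum fun i _ => (rg i).2).const_mul C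
  have tΘ := fun i => (D.sg i).clo.toTen
  have tf := fun i => ((mHES n M).1 _ (rg i).1).toTen
  obtain ⟨t1, t2⟩ := up_sum P G hUPK (fun i => ((tΘ i).add (tf i)).smul (max (D.κ i) 0)) Finset.univ
  obtain ⟨t3, t4⟩ := u8 _ _ sl hm.toTen
  have e1 : ∀ y, P.Z.tr G (P.up 0 (D.Q C d)) y =
      ∑ i, (max (D.κ i) 0 * (P.Z.tr G (P.up 0 (D.Θ i)) y + P.Z.lap G (P.pb (fl (D.σ i) d)) y) +
        C * (d / (P.pb (D.σ i) y + d) * P.Z.tr G (P.up 0 D.H) y)) := fun y => by
    rw [Dt.Q, up_add P G hUPK t1 t3, t2, Mf.tr_congr (G := G) (G' := G) (fun _ _ _ _ => rfl) t4,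
      Finset.sum_add_distrib, ← Finset.mul_sum, ← Finset.sum_mul, ← mul_assoc]
    congr 1
    · refine Finset.sum_congr rfl fun i _ => ?_
      rw [up_smul P G hUPK ((tΘ i).add (tf i)), up_add P G hUPK (tΘ i) (tf i), Mf.lap,
        Mf.tr_congr (G := G) (G' := G) (fun _ _ _ _ => rfl)
          fun e he w hw => (u7 _ _ (rg i).1 (rg i).1 e he w hw).1]
    · exact Mf.tr_fsmul _
  have c1 := fun i => tr_c gm (sg i).clo.toTen
  have c2 : ∀ i, Continuous (P.Z.lap G (P.pb (fl (D.σ i) d))) := fun i =>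
    tr_c gm ((mHES _ P.Z).1 _ (pb _ (rg i).1)).toTen
  have c3 := tr_c gm (u2 0 _ hm.toForm).toTen
  have c4 := tr_c gm hH.toTen
  have c5 : ∀ i, Continuous fun y => d / (P.pb (D.σ i) y + d) := fun i =>
    (pb _ (rg i).2).continuous
  have i1 : ∀ i, max (D.κ i) 0 * ∫ y, P.Z.tr G (P.up 0 (D.Θ i)) y ∂P.Z.mu G ≤
      max (D.κ i) 0 * (s / 2 / K) := fun i => by
    rcases le_or_gt (D.κ i) 0 with h | h
    · simp [max_eq_right h]
    refine mul_le_mul_of_nonneg_left ?_ (le_max_right _ _)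
    have k1 := (ZE45.mx_met (S := P.up 0 (D.Θ i)) hH.toMet gm).symm
    have k2 := pol3 hH.toMet hα' (sg i).clo b1
    have k3 := ((hFU2 n M P _ hm).1 _ (int hm (ta_c hm hα.toTen (tΘ i)))).2
    have k4 : mx P.Z (P.up 1 D.H) (P.up N' (k • D.th e e')) (P.up 0 (D.Θ i)) =
        N' * ((2 * Real.pi) ^ 2 * mx M D.H (k • D.th e e') (D.Θ i)) := by
      rw [mx, mx, ← k3, ← integral_const_mul]
      exact integral_congr_ae (ae_of_all _ fun y =>
        ((hUPS n M P _ hm).2 N' _ _ hα.toTen (tΘ i) y).2)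
    rw [k1, k2, k4, ← mul_assoc, mul_comm N']
    refine (mul_le_mul_of_nonneg_left (ho e' he' i h) (by positivity)).trans_eq ?_
    field_simp
  have i2 : ∀ i, ∫ y, d / (P.pb (D.σ i) y + d) * P.Z.tr G (P.up 0 D.H) y ∂P.Z.mu G ≤
      s / 2 / L := fun i => by
    have e2 : P.Z.All fun a w => (P.up N' (k • D.th e e') + P.Z.hs U₀ +
        P.Z.hs fun y => U y - U₀ y) a w = G a w := fun a ha w hw => by
      simp only [hG, Pi.add_apply, ((mLAP _ P.Z U U₀ b1 a1).1 0 a ha w hw).2.2.1]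
      abel
    have k1 := hd i d ⟨hdd.1, hdd.2.trans (hd1 i)⟩ _ (b1.sub a1) (gm.congr e2)
      fun y => (abs_sub _ _).trans (add_le_add (b3 y) (a3 y))
    rw [Mf.mu_congr e2, Mf.tr_congr (T := P.up 1 D.H) e2 fun _ _ _ _ => rfl] at k1
    refine le_trans (integral_mono (int gm ((c5 i).mul c3)) (int gm ((c5 i).mul c4)) fun y =>
      mul_le_mul_of_nonneg_left (gm.tr_mono ((u6 0 1 _ _ hm.toTen hm.toTen).1 zero_le_one
        fun a ha z hz => by simpa using Matrix.PosSemidef.zero) y)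
        (div_nonneg hdd.1.le (add_nonneg ((sg i).nn y) hdd.1.le))) k1
  simp only [e1]
  rw [integral_finsetSum _ fun i _ => int gm ((continuous_const.fun_mul ((c1 i).fun_add (c2 i))).fun_add
    (continuous_const.fun_mul ((c5 i).fun_mul c3)))]
  calc _ ≤ ∑ i, (max (D.κ i) 0 * (s / 2 / K) + C * (s / 2 / L)) := Finset.sum_le_sum fun i _ => by
        rw [integral_add (int gm (continuous_const.fun_mul ((c1 i).fun_add (c2 i))))
          (int gm (continuous_const.fun_mul ((c5 i).fun_mul c3))), integral_const_mul,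
          integral_const_mul, integral_add (int gm (c1 i)) (int gm (c2 i)),
          ((mGRN _ P.Z).2 G _ _ b2 (pb _ (rg i).1) (pb _ (rg i).1)).1, add_zero]
        exact add_le_add (i1 i) (mul_le_mul_of_nonneg_left (i2 i) hC)
    _ ≤ s / 2 + s / 2 := by
        rw [Finset.sum_add_distrib, ← Finset.sum_mul, Finset.sum_const, Finset.card_univ,
          nsmul_eq_mul, ← mul_assoc]
        refine add_le_add ?_ ?_
        · rw [← mul_div_assoc, div_le_iff₀ K1]
          nlinarith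
        · rw [← mul_div_assoc, div_le_iff₀ L0, hL]
          have : (0 : ℝ) ≤ Fintype.card ι := Nat.cast_nonneg _
          nlinarith [mul_nonneg this hC]
    _ = s := add_halves s

end Pool.Agent.Lib.ZE
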