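import Pool.Agent.Lib.ZE.Blue

/-! Project ze: the pull-back of the norm of a section. -/

open scoped Classical Topology ContDiff ComplexOrder Matrix ENNReal
open Set MeasureTheory Filter

noncomputable section

namespace Pool.Agent.Lib.ZE

open Pool.Agent.Lib.HS32
open Pool.Agent.Lib.ZK (fm)

theorem SGU.le_smul {n : ℕ} {M : Mf n} [M.Cpt] {H G : M.Fam (Mat n)} (hH : M.Met H)
    (hG : M.Met G) : ∃ C : ℝ, M.mu G ≤ ENNReal.ofReal C • M.mu H := by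
  obtain ⟨C, -, hC⟩ := ((mINV n M H hH).1 G hG.toTen).2.2.2.1.exists_bound
  refine ⟨C, ?_⟩
  rw [((mMU n M H hH).2.2.2.2.2.2 G hG).1, ← withDensity_const]
  exact withDensity_mono (Eventually.of_forall fun x =>
    ENNReal.ofReal_le_ofReal ((le_abs_self _).trans (hC x)))

theorem zSGU (hU : St_UPK) (hF : St_FU2) (hP : St_PKT) : St_SGU := by
  intro n M _ P H Θ σ hH h
  obtain ⟨-, -, u3, u4, -, u6, u7, u8, -⟩ := hU n M P
  obtain ⟨f1, f2, -⟩ := hF n M P H hH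
  have hH' := u4 1 H one_pos hH
  have t1 : M.Ten (M.hs σ) := ((mHES n M).1 σ h.sm).toTen
  have t2 : M.Ten (M.ds σ σ) := ((mHES n M).2.1 σ σ h.sm h.sm).1
  obtain ⟨a1, a2⟩ := u8 σ _ h.sm t1
  obtain ⟨b1, b2⟩ := u8 (fun x => σ x ^ 2) Θ (h.sm.pow 2) h.clo.toTen
  refine ⟨(hP n M P).2.2.2.2.2.1 σ h.sm, fun y => h.nn _, u3 0 Θ h.clo, fun e he w hw => ?_,
    fun G hG => ?_, fun G hG => ?_⟩
  · have c1 := (u6 0 0 _ _ a1 b1).2.2.2 1 e he w hw
    have c2 := (u6 0 0 _ _ (a1.add b1) t2).2.2.1 h.eq e he w hw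
    have c3 := u7 σ σ h.sm h.sm e he w hw
    rw [add_zero] at c1
    beta_reduce at c1 c2 c3 ⊢
    rw [c3.1, c3.2, ← c2, c1.1, a2 e he w hw, b2 e he w hw]
    rfl
  · obtain ⟨C, hC⟩ := SGU.le_smul hH' hG
    exact Measure.absolutelyContinuous_of_le_smul hC (f2 _ (h.nul H hH))
  · obtain ⟨C, hC⟩ := SGU.le_smul hH' hG
    exact ((f1 _ (h.int H hH)).1.smul_measure ENNReal.ofReal_ne_top).mono_measure hC

end Pool.Agent.Lib.ZE
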