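import Pool.Agent.Lib.ZE.Blue

/-! The Laplacian along the torus. -/

open scoped Classical Topology ContDiff ComplexOrder Matrix
open Filter

noncomputable section

namespace Pool.Agent.Lib.ZE

open Pool.Agent.Lib.HS32

namespace SLC

theorem lp_congr {u v : ℂ → ℝ} {τ : ℂ} (h : u =ᶠ[𝓝 τ] v) : lp u τ = lp v τ := by
  rw [lp, lp, (h.fderiv (𝕜 := ℝ)).fderiv_eq]

theorem amgm {N r : ℝ} (hN : 0 < N) (hr : 0 < r) : N - 1 / r ≤ N * max (N * r - 1) 0 := by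
  have h1 := mul_le_mul_of_nonneg_left (le_max_left (N * r - 1) 0) hN.le
  have h2 : 0 ≤ (N * r - 1) ^ 2 / r := by positivity
  have h3 : (N * r - 1) ^ 2 / r = N * (N * r - 1) - (N - 1 / r) := by
    field_simp
  linarith

end SLC

theorem zSLC (hBLK : St_BLK) (hCAL : St_CAL) (hPKT : St_PKT) (hUPK : St_UPK) : St_SLC := by
  intro n M _ P α N K U hN hα hU hG τ x
  obtain ⟨-, -, k3, -⟩ := hPKT n M P
  obtain ⟨u1, -, -, -, -, -, -, -, u0⟩ := hUPK n M P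
  obtain ⟨b1, -, b3⟩ := hBLK n
  obtain ⟨-, -, -, -, -, -, c7, -⟩ := hCAL n
  have he := M.ch_mem x
  have hc := P.mem _ he τ
  obtain ⟨hs, hw⟩ := k3 _ he τ τ (by simp) x (Mf.mem_ch x)
  have ht : cn τ (M.ch x x) ∈ (P.pc (M.ch x) τ).target := hw ▸ (P.pc (M.ch x) τ).map_source hs
  have hy : (P.pc (M.ch x) τ).symm (cn τ (M.ch x x)) = P.q τ x :=
    hw ▸ (P.pc (M.ch x) τ).left_inv hs
  have h1 := ((mINV (n + 1) P.Z _ hG).1 _ (u1 1 0 u0.toTen).1).1 _ hc _ ht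
  obtain ⟨g1, g2, g3⟩ := b3 _ (hG.pos _ hc _ ht)
  beta_reduce at h1
  rw [hy, (u1 1 0 u0.toTen).2 _ he τ _ ht, Pi.zero_apply, Pi.zero_apply, g1] at h1
  have h2 := c7 (U ∘ (P.pc (M.ch x) τ).symm) τ (M.ch x x) (hU _ hc _ ht)
  have h3 : (fun s => (U ∘ (P.pc (M.ch x) τ).symm) (cn s (M.ch x x))) =ᶠ[𝓝 τ]
      fun s => U (P.q s x) := by
    filter_upwards [Metric.ball_mem_nhds τ one_pos] with s hs'
    obtain ⟨a1, a2⟩ := k3 _ he τ s (by rwa [← dist_eq_norm]) x (Mf.mem_ch x)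
    rw [Function.comp_apply, ← a2, (P.pc (M.ch x) τ).left_inv a1]
  rw [SLC.lp_congr h3] at h2
  have h4 : ((P.up (N + K) α + P.Z.hs U) (P.pc (M.ch x) τ) (cn τ (M.ch x x)) 0 0).re =
      N + K + lp (fun s => U (P.q s x)) τ := by
    rw [Pi.add_apply, Pi.add_apply, Matrix.add_apply, Complex.add_re, (u1 _ α hα).2 _ he τ _ ht,
      (b1 (N + K) 0 0 _ 0).2.2.2.2.2.2.2.2.2.2.1, Complex.ofReal_re, ← h2]
    rfl
  have h5 := SLC.amgm hN g2
  rw [h1]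
  linarith

end Pool.Agent.Lib.ZE
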