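import Pool.Agent.Lib.ZE.Blue

/-! Existence of the solution on the product. -/

open scoped Classical Topology ContDiff ComplexOrder Matrix
open Set Filter

noncomputable section

namespace Pool.Agent.Lib.ZE

open Pool.Agent.Lib.HS32

theorem zSOL (hUPK : St_UPK) (hAUB : St_AUB) (hPKT : St_PKT) : St_SOL := by
  intro n M _ P H α N N' V φ F hH hα hφ hk hN hN' hV hF
  obtain ⟨-, -, -, -, -, k2, -, -⟩ := hPKT n M P
  obtain ⟨-, -, -, u1, u2, u3, u4, -⟩ := hUPK n M P
  have tφ := ((mHES n M).1 φ hφ).toTen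
  have hK : P.Z.Kae (P.up N' α + P.Z.hs (P.pb φ)) :=
    (u2 N' _ hN' hk).congr fun c hc w hw => by
      have r := ((u3 N' 0 α _ hα.toTen tφ).2.2.2 0 c hc w hw).1
      rw [add_zero] at r
      beta_reduce
      rw [r, Pi.add_apply, Pi.add_apply, (u4 φ φ hφ hφ c hc w hw).1]
  obtain ⟨U, a1, a2, a3⟩ := hAUB (n + 1) P.Z (P.up 1 H) (P.up N' α) (P.pb φ)
    (fun y => Real.log (N * V) - F y) n.succ_pos (u1 1 H one_pos hH) (k2 φ hφ) hK
    ((Mf.sm_const _).sub hF)
  refine ⟨U, a1, a2, fun y => ?_⟩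
  rw [a3 y, show U y + (Real.log (N * V) - F y) = Real.log (N * V) + (U y - F y) by ring,
    Real.exp_add, Real.exp_log (mul_pos hN hV)]

end Pool.Agent.Lib.ZE
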