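import Pool.Agent.Lib.ZE.Blue
import Pool.Agent.Lib.ZK.B_KIT

/-! The weighted tail at a fixed level. -/

open scoped Classical Topology ContDiff ComplexOrder Matrix ENNReal
open Set MeasureTheory Filter

noncomputable section

namespace Pool.Agent.Lib.ZE

open Pool.Agent.Lib.HS32
open Pool.Agent.Lib.ZK (fm Env ps Sol Dat)
open Pool.Agent.Lib.DX (ta mx fl la Sg)

namespace TL

theorem ext {p t T A c η v w₀ w₁ w₂ : ℝ} (ht : 0 < t) (hT : t ≤ T) (hA : 0 ≤ A) (hη : η ≤ 1)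
    (e : t = c + A + 1) (h0 : w₀ - v ≤ A) (h1 : p * t - c ≤ w₁ - v)
    (h : w₁ ≤ ((T - t) * w₀ + t * w₂) / T + η) : (p - 1) * T - 1 ≤ w₂ - v := by
  have T0 : 0 < T := ht.trans_le hT
  rw [← sub_le_iff_le_add, le_div_iff₀ T0] at h
  have a1 : (T - t) * (w₀ - v) ≤ T * A :=
    (mul_le_mul_of_nonneg_left h0 (sub_nonneg.2 hT)).trans
      (mul_le_mul_of_nonneg_right (by linarith) hA)
  have a2 := mul_le_mul_of_nonneg_left h1 T0.le
  have a3 := mul_le_mul_of_nonneg_left hη T0.le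
  have a4 : t * ((p - 1) * T) ≤ t * (w₂ - v) := by
    have : c = t - A - 1 := by linarith
    subst this
    nlinarith
  linarith [le_of_mul_le_mul_left a4 ht]

end TL

theorem zTL (hKT : St_KT) (hQQ : St_QQ) (hCV3 : St_CV3) (hUP2 : St_UP2) (hLO2 : St_LO2)
    (hCZ2 : St_CZ2) (hTA2 : St_TA2) (hFA2 : St_FA2) (hEXS : ZK.St_EXS) : St_TL := by
  intro n M _ ι _ D a m ha hm
  obtain ⟨k1, ⟨C₀, k2⟩, -, k4, k5, -⟩ := hKT n M ι D
  obtain ⟨Cq, -, sq⟩ := hQQ n M ι D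
  obtain ⟨q, δ, C, hq, hδ, kl⟩ := D.klt
  have mu := mMU n M D.H D.kae.toMet
  have ig : ∀ f : M.X → ℝ, M.Sm f → Integrable f (M.mu D.H) := fun f hf =>
    mu.2.2.2.2.1 ℝ f hf.continuous
  set p : ℝ := m + 1 with hp
  have p0 : 0 < p := by positivity
  set C' : ℝ := max C (C / δ) with hC'
  have c1 : ∀ d ∈ Ioc (0 : ℝ) 1, ∫ x, D.χ d x ∂M.mu D.H ≤ C' := fun d hd => by
    refine le_trans ?_ (le_max_right _ _)
    rw [le_div_iff₀ hδ, mul_comm, ← integral_const_mul]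
    have s := (sq d hd.1).1.const_mul δ
    refine le_trans (integral_mono (ig _ s) (ig _ s.exp) fun x => ?_) ?_
    · linarith [Real.add_one_le_exp (δ * D.χ d x)]
    · simpa only [Dt.χ, mul_neg] using (kl d hd).2
  have c2 : ∀ d ∈ Ioc (0 : ℝ) 1, ∫ x, Real.exp (-(q * D.χ d x)) ∂M.mu D.H ≤ C' := fun d hd => by
    refine le_trans ?_ (le_max_left _ _)
    simpa only [Dt.χ, mul_neg, neg_neg] using (kl d hd).1
  obtain ⟨C₁, C10, up⟩ := hUP2 n M D.H C₀ p C' D.kae p0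
  obtain ⟨C₄, C40, lo⟩ := hLO2 n M D.H C₀ p C' q D.pos D.kae p0 hq
  set t : ℝ := C₄ + (p * 0 + C₁ + (p + 1)) + 1 with ht
  have A0 : 0 ≤ p * 0 + C₁ + (p + 1) := by positivity
  have t0 : 0 < t := by positivity
  obtain ⟨η₀, η0, lo⟩ := lo t t0.le
  obtain ⟨e, he, fa⟩ := hFA2 n M ι D a η₀ ha η0
  obtain ⟨B, hB⟩ := k5 a ha e he
  obtain ⟨B', cz⟩ := hCZ2 n M D.H C₀ p C' q B D.kae p0 hq
  refine ⟨Real.exp (B + 1 + p) + 1, t, e, he, fun e₂ h₂ => ?_⟩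
  have h₂' : e₂ ∈ Ioc (0 : ℝ) 1 := ⟨h₂.1, h₂.2.trans he.2⟩
  obtain ⟨B₂, hB₂⟩ := k5 a ha e₂ h₂'
  set L : ℝ := |B| + |B₂| + 1 with hL
  set η : ℝ := min 1 (Real.exp (-(m * L))) with hη
  obtain ⟨ε₀, ε0, cv⟩ := hCV3 n M ι D p e (max (max B B₂) B') L η p0 he.1 (by positivity)
    (by positivity)
  refine ⟨min ε₀ e, lt_min ε0 he.1, fun e' h' => ?_⟩
  have h1 : e' ∈ Ioc 0 e := ⟨h'.1, h'.2.trans (min_le_right _ _)⟩
  have h1' : e' ∈ Ioc (0 : ℝ) 1 := ⟨h'.1, h1.2.trans he.2⟩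
  obtain ⟨d₀, d0, cv⟩ := cv e' ⟨h'.1, h'.2.trans (min_le_left _ _)⟩
  have hd : min d₀ 1 ∈ Ioc (0 : ℝ) 1 := ⟨lt_min d0 one_pos, min_le_right _ _⟩
  refine ⟨min d₀ 1, hd, fun T hT => ?_⟩
  set d : ℝ := min d₀ 1
  have eu := ha e he e' h1'
  have ea := ha e₂ h₂' e' h1'
  have sχ := (sq d hd.1).1
  rcases lt_or_ge L T with hLT | hLT
  · have : {x | T ≤ a e e' x - a e₂ e' x} = ∅ := eq_empty_of_forall_notMem fun x hx => by
      have b1 := abs_le.1 (hB e' h1' x)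
      have b2 := abs_le.1 (hB₂ e' h1' x)
      have : T ≤ a e e' x - a e₂ e' x := hx
      linarith [le_abs_self B, le_abs_self B₂, b1.2, b2.1]
    rw [this, setIntegral_empty]
    positivity
  have pa := (k4 e₂ e' e e' _ h₂.2 le_rfl ea.sm ea.kae.toMet).2
  have dat : Dat M D.H (D.th e e') C₀ (a e e') (a e₂ e') :=
    ⟨D.pos, D.kae, k1 e e', k2 e he e' h1',
      ⟨eu.sm, eu.kae, eu.np, fun ψ s1 s2 s3 x => (eu.mx ψ s1 s2 s3 x).trans (by linarith [h1'.2])⟩,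
      ea.sm, pa, ea.np⟩
  have ev := (ZK.st_KIT n M D.H _ D.kae (k1 e e')).2.2.2.2.2 (p + 1) _ _ (by positivity) eu
  obtain ⟨V, ex⟩ := hEXS n M D.H _ _ D.pos D.kae ((k1 e e').smul (p + 1)) ev.sm ev.kae
  choose w hw using fun s : ℝ => ex (fun x => ps M p (a e e') (a e₂ e') s x + D.χ d x)
    ((((eu.sm.exp.add (ea.sm.add (Mf.sm_const s)).exp).log fun x => by positivity).const_mul
      p).add sχ)
  obtain ⟨S, mS, iS, cx⟩ := cv d ⟨hd.1, min_le_left _ _⟩ V _ _ w eu.sm ea.sm eu.kae.toMet.nonneg pa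
    (fun x => ⟨(hB e' h1' x).trans ((le_max_left _ _).trans (le_max_left _ _)),
      (hB₂ e' h1' x).trans ((le_max_right _ _).trans (le_max_left _ _))⟩) hw
    fun x => (cz _ V _ _ _ _ dat (hB e' h1') sχ (c1 d hd) (c2 d hd) (hw 0) x).trans
      (le_max_right _ _)
  obtain ⟨u1, u2⟩ := up _ V 0 _ _ _ _ dat sχ (c1 d hd) le_rfl (hw 0)
  have l1 := lo _ V _ _ _ _ dat sχ (c1 d hd) (c2 d hd) (fa e₂ h₂ e' h1) (hw t)
  have ta := hTA2 n M D.H _ p V B T η _ _ _ _ S p0 D.kae.toMet eu.sm ea.sm sχ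
    (fun x => (abs_le.1 (hB e' h1' x)).1) (hw T) mS iS fun x hx =>
      TL.ext t0 hT A0 (min_le_left _ _) ht (u2 _ u1 x).1 (l1 x) (cx x hx t T t0 hT hLT)
  rw [show p - 1 = m by rw [hp]; ring] at ta
  have : η ≤ Real.exp (-(m * T)) := (min_le_right _ _).trans
    (Real.exp_le_exp.2 (neg_le_neg (mul_le_mul_of_nonneg_left hLT hm.le)))
  linarith

end Pool.Agent.Lib.ZE
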