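import Pool.Agent.Lib.ZE.Blue

/-! Project ZE, row TRI: three lines. -/

open scoped ContDiff
open Set MeasureTheory Complex intervalIntegral

noncomputable section

namespace Pool.Agent.Lib.ZE

namespace TRI

theorem rect {F : ℝ × ℝ → ℝ} (hF : Continuous F) (a b c d : ℝ) :
    IntegrableOn F (uIoc a b ×ˢ uIoc c d) :=
  (hF.continuousOn.integrableOn_compact (isCompact_uIcc.prod isCompact_uIcc)).mono_set
    (prod_mono uIoc_subset_uIcc uIoc_subset_uIcc)

theorem box_eq {j : ℂ → ℝ} (hj : Continuous j) : ∫ τ in box, j τ =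
    ∫ x in (0 : ℝ)..2 * Real.pi, ∫ y in (0 : ℝ)..2 * Real.pi, j (x + y * I) := by
  have h0 : (0 : ℝ) ≤ 2 * Real.pi := by positivity
  have h1 := volume_preserving_equiv_real_prod.setIntegral_preimage_emb
    measurableEquivRealProd.measurableEmbedding (fun p : ℝ × ℝ => j (p.1 + p.2 * I))
    (Ioc 0 (2 * Real.pi) ×ˢ Ioc 0 (2 * Real.pi))
  have h2 := rect (F := fun p : ℝ × ℝ => j (p.1 + p.2 * I)) (by fun_prop) 0 (2 * Real.pi) 0
    (2 * Real.pi)
  rw [uIoc_of_le h0] at h2
  simp only [measurableEquivRealProd_apply, re_add_im] at h1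
  simp only [integral_of_le h0]
  exact h1.trans (setIntegral_prod _ h2)

theorem tent {f f' f'' : ℝ → ℝ} (h1 : ∀ x, HasDerivAt f (f' x) x)
    (h2 : ∀ x, HasDerivAt f' (f'' x) x) (h3 : Continuous f'') (b c : ℝ) :
    (∫ x in (0 : ℝ)..b, (c - b) * x * f'' x) + ∫ x in b..c, b * (c - x) * f'' x =
      (c - b) * f 0 + b * f c - c * f b := by
  rw [integral_eq_sub_of_hasDerivAt (f := fun x => (c - b) * (x * f' x - f x)) (fun x _ => ?_)
      (Continuous.intervalIntegrable (by fun_prop) _ _),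
    integral_eq_sub_of_hasDerivAt (f := fun x => b * ((c - x) * f' x + f x)) (fun x _ => ?_)
      (Continuous.intervalIntegrable (by fun_prop) _ _)]
  · ring
  · refine (((((hasDerivAt_id' x).const_sub c).fun_mul (h2 x)).fun_add (h1 x)).const_mul
      b).congr_deriv ?_
    ring
  · refine ((((hasDerivAt_id' x).fun_mul (h2 x)).fun_sub (h1 x)).const_mul (c - b)).congr_deriv ?_
    ring

end TRI

open TRI in
theorem zTRI : St_TRI := by
  intro u j K b c A₀ A₁ A₂ hu hj per K0 b0 bc c1 hl a0 a1 a2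
  have π0 := Real.pi_pos
  have h0 : (0 : ℝ) ≤ 2 * Real.pi := by positivity
  have hu1 : ContDiff ℝ ∞ (fderiv ℝ u) := hu.fderiv_right (by simp)
  have hu2 : Continuous (fderiv ℝ (fderiv ℝ u)) := hu1.continuous_fderiv (by simp)
  have d1 : ∀ (γ : ℝ → ℂ) v t, HasDerivAt γ v t →
      HasDerivAt (fun s => u (γ s)) (fderiv ℝ u (γ t) v) t := fun γ v t h =>
    (hu.differentiable (by simp) _).hasFDerivAt.comp_hasDerivAt t h
  have d2 : ∀ (γ : ℝ → ℂ) v t, HasDerivAt γ v t →
      HasDerivAt (fun s => fderiv ℝ u (γ s) v) (fderiv ℝ (fderiv ℝ u) (γ t) v v) t :=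
    fun γ v t h => by
      simpa using ((hu1.differentiable (by simp) _).hasFDerivAt.comp_hasDerivAt t h).clm_apply
        (hasDerivAt_const t v)
  have gx : ∀ x y : ℝ, HasDerivAt (fun s : ℝ => (s : ℂ) + y * I) 1 x := fun x y =>
    (hasDerivAt_id' x).ofReal_comp.add_const _
  have gy : ∀ x y : ℝ, HasDerivAt (fun s : ℝ => (x : ℂ) + s * I) I y := fun x y => by
    simpa using ((hasDerivAt_id' y).ofReal_comp.mul_const I).const_add (x : ℂ)
  obtain ⟨a, ha⟩ : ∃ a : ℝ → ℝ → ℝ, a = fun (x y : ℝ) => fderiv ℝ (fderiv ℝ u) (x + y * I) 1 1 :=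
    ⟨_, rfl⟩
  obtain ⟨e, he⟩ : ∃ a : ℝ → ℝ → ℝ, a = fun (x y : ℝ) => fderiv ℝ (fderiv ℝ u) (x + y * I) I I :=
    ⟨_, rfl⟩
  obtain ⟨J, hJ⟩ : ∃ J : ℝ → ℝ, J = fun x : ℝ => ∫ y in (0 : ℝ)..2 * Real.pi, j (x + y * I) :=
    ⟨_, rfl⟩
  have ca : Continuous a.uncurry := by
    rw [ha]
    show Continuous fun p : ℝ × ℝ => fderiv ℝ (fderiv ℝ u) (p.1 + p.2 * I) 1 1
    fun_prop
  have ce : ∀ x, Continuous (e x) := fun x => by
    rw [he]
    fun_prop
  have cJ : Continuous J := hJ ▸ continuous_parametric_intervalIntegral_of_continuous'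
    (f := fun x y : ℝ => j (x + y * I))
    (show Continuous fun p : ℝ × ℝ => j (p.1 + p.2 * I) by fun_prop) _ _
  have J0 : ∀ x, 0 ≤ J x := fun x => hJ ▸ integral_nonneg h0 fun y _ => (hl _).1
  have e0 : ∀ x, ∫ y in (0 : ℝ)..2 * Real.pi, e x y = 0 := fun x => by
    rw [integral_eq_sub_of_hasDerivAt (f := fun s : ℝ => fderiv ℝ u (x + s * I) I)
      (fun y _ => he ▸ d2 _ _ _ (gy x y)) ((ce x).intervalIntegrable _ _),
      ← fderiv_comp_add_right, funext per]
    simp
  have la : ∀ x, -(8 * Real.pi * K + 4 * J x) ≤ ∫ y in (0 : ℝ)..2 * Real.pi, a x y := fun x => by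
    have cj : Continuous fun y : ℝ => j (x + y * I) := by fun_prop
    have h1 := integral_mono_on (μ := volume) (f := fun y : ℝ => -(4 * K) - 4 * j (x + y * I))
      (g := fun y => a x y + e x y) h0 (Continuous.intervalIntegrable (by fun_prop) _ _)
      (((ca.uncurry_left x).add (ce x)).intervalIntegrable _ _) fun y _ => by
        have := (hl (x + y * I)).2
        simp only [lp] at this
        simp only [ha, he]
        linarith
    rw [integral_add ((ca.uncurry_left x).intervalIntegrable _ _) ((ce x).intervalIntegrable _ _),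
      e0, integral_sub (by simp) ((cj.const_mul 4).intervalIntegrable _ _),
      intervalIntegral.integral_const_mul, intervalIntegral.integral_const] at h1
    simp only [hJ, smul_eq_mul] at h1 ⊢
    linarith
  have piece : ∀ (p q : ℝ) (w : ℝ → ℝ), Continuous w → p ≤ q →
      (∀ x ∈ Icc p q, 0 ≤ w x ∧ w x ≤ c ^ 2) →
      ∫ x in p..q, -(c ^ 2 * (8 * Real.pi * K + 4 * J x)) ≤
        ∫ y in (0 : ℝ)..2 * Real.pi, ∫ x in p..q, w x * a x y := fun p q w hw pq hb => by
    rw [← intervalIntegral_intervalIntegral_swap (F := fun x y => w x * a x y)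
      (rect ((hw.comp continuous_fst).mul ca) _ _ _ _)]
    refine integral_mono_on pq (Continuous.intervalIntegrable (by fun_prop) _ _)
      ((continuous_parametric_intervalIntegral_of_continuous' (f := fun x y => w x * a x y)
        ((hw.comp continuous_fst).mul ca) _ _).intervalIntegrable _ _) fun x hx => ?_
    rw [intervalIntegral.integral_const_mul]
    have := J0 x
    nlinarith [mul_le_mul_of_nonneg_left (la x) (hb x hx).1, mul_le_mul_of_nonneg_right
      (hb x hx).2 (show 0 ≤ 8 * Real.pi * K + 4 * J x by positivity)]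
  have cp : ∀ (p q : ℝ) (w : ℝ → ℝ), Continuous w →
      IntervalIntegrable (fun y => ∫ x in p..q, w x * a x y) volume 0 (2 * Real.pi) :=
    fun p q w hw => (continuous_parametric_intervalIntegral_of_continuous'
      (f := fun y x => w x * a x y)
      ((hw.comp continuous_snd).mul (ca.comp continuous_swap)) _ _).intervalIntegrable _ _
  have p1 := piece 0 b (fun x => (c - b) * x) (by fun_prop) b0.le fun x hx =>
    ⟨mul_nonneg (by linarith) hx.1, by nlinarith [hx.1, hx.2]⟩
  have p2 := piece b c (fun x => b * (c - x)) (by fun_prop) bc fun x hx =>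
    ⟨mul_nonneg b0.le (by linarith [hx.2]), by nlinarith [hx.1, hx.2]⟩
  have p3 := integral_mono_on (μ := volume) (g := fun _ => (c - b) * A₀ + b * A₂ - c * A₁) h0
    ((cp 0 b (fun x => (c - b) * x) (by fun_prop)).add
      (cp b c (fun x => b * (c - x)) (by fun_prop))) (by simp) fun y _ => by
      rw [tent (fun x => d1 _ _ _ (gx x y)) (fun x => ha ▸ d2 _ _ _ (gx x y))
        (ca.uncurry_right y)]
      nlinarith [a0 ((0 : ℝ) + y * I) (by simp), a1 (b + y * I) (by simp), a2 (c + y * I) (by simp)]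
  have ci : ∀ p q : ℝ, IntervalIntegrable (fun x => -(c ^ 2 * (8 * Real.pi * K + 4 * J x)))
      volume p q := fun p q => Continuous.intervalIntegrable (by fun_prop) _ _
  have p4 := integral_add_adjacent_intervals (ci 0 b) (ci b c)
  have p5 : ∫ x in (0 : ℝ)..c, J x ≤ ∫ τ in box, j τ := by
    rw [box_eq hj, ← hJ]
    exact integral_mono_interval le_rfl (by linarith) (by linarith [Real.pi_gt_three])
      (ae_of_all _ J0) (cJ.intervalIntegrable _ _)
  have p6 : 0 ≤ ∫ x in (0 : ℝ)..c, J x := integral_nonneg (by linarith) fun x _ => J0 x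
  rw [integral_add (cp 0 b _ (by fun_prop)) (cp b c _ (by fun_prop)),
    intervalIntegral.integral_const, smul_eq_mul] at p3
  rw [intervalIntegral.integral_neg (a := 0) (b := c), intervalIntegral.integral_const_mul,
    integral_add (by simp) ((cJ.const_mul 4).intervalIntegrable _ _),
    intervalIntegral.integral_const_mul 4, intervalIntegral.integral_const, smul_eq_mul] at p4
  have c0 : 0 < c := b0.trans_le bc
  rw [add_assoc, ← sub_le_iff_le_add, le_div_iff₀ c0]
  refine le_of_mul_le_mul_left ?_ (show 0 < 2 * Real.pi by positivity)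
  have p7 : c ^ 2 * (4 * ∫ x in (0 : ℝ)..c, J x) ≤ 2 * Real.pi * (c * ∫ τ in box, j τ) := by
    have : c * 4 ≤ 2 * Real.pi := by linarith [Real.pi_gt_three]
    nlinarith [mul_le_mul this p5 p6 h0]
  nlinarith

end Pool.Agent.Lib.ZE
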