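import Pool.Agent.Lib.ZE.Blue

/-! Project ze: the pull-back of forms to the product. -/

open scoped Classical Topology ContDiff ComplexOrder Matrix
open Set Filter

noncomputable section

namespace Pool.Agent.Lib.ZE

open Pool.Agent.Lib.SV (E)
open Pool.Agent.Lib.HS32
open Pool.Agent.Lib.ZK (fm)

namespace UPK

variable {n : ℕ} {M : Mf n} {P : Pd M} {c : ℝ} {T : M.Fam (Mat n)}

/-- A property on the product charts. -/
theorem onS {p : P.Z.Ch → E (n + 1) → Prop}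
    (h : ∀ e ∈ M.C, ∀ τ, ∀ w ∈ (P.pc e τ).target, tl w ∈ e.target → p (P.pc e τ) w) :
    P.Z.AllOn P.S p := by
  rintro _ ⟨e, he, τ, rfl⟩ w hw
  exact h e he τ w hw ((P.tgt e he τ w).1 hw).2

theorem pr_symm {e : M.Ch} (he : e ∈ M.C) {τ : ℂ} {w : E (n + 1)}
    (hw : w ∈ (P.pc e τ).target) : P.pr ((P.pc e τ).symm w) = e.symm (tl w) := by
  rw [P.sym e he τ w hw, P.prq]

theorem cmp [M.Cpt] (hB : St_BLK) (hK : St_PKT) (hT : M.Ten T) {e e' : M.Ch} (he : e ∈ M.C)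
    (he' : e' ∈ M.C) {τ τ' : ℂ} {y : P.Z.X} (h : y ∈ (P.pc e τ).source)
    (h' : y ∈ (P.pc e' τ').source) : blk c (T e' (tl (P.pc e' τ' y))) =
      (P.Z.J (P.pc e τ) (P.pc e' τ') y)ᴴ * blk c (T e (tl (P.pc e τ y))) *
        P.Z.J (P.pc e τ) (P.pc e' τ') y := by
  obtain ⟨-, -, -, k1, k2, -⟩ := hK n M P
  obtain ⟨a1, a2, -⟩ := k1 e he τ y h
  obtain ⟨b1, b2, -⟩ := k1 e' he' τ' y h'
  have m := fun c c' A B => ((hB n).1 c c' 0 A B).2.2.2.2.2.2.1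
  rw [k2 e he e' he' τ τ' y h h', a2, b2, ((hB n).1 1 0 0 _ 0).2.2.2.2.2.2.2.1, m, m,
    hT.cmp e he e' he' _ a1 b1, one_mul, mul_one]

theorem up [M.Cpt] (hB : St_BLK) (hC : St_CAL) (hK : St_PKT) (hT : M.Ten T) :
    P.Up c T (P.up c T) := by
  have hS := (hK n M P).1
  have ex : ∃ T', P.Up c T T' := by
    have ch : ∀ a : P.Z.Ch, ∃ e τ, a ∈ P.S → e ∈ M.C ∧ a = P.pc e τ := fun a => by
      by_cases h : a ∈ P.S
      · obtain ⟨e, he, τ, k⟩ := h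
        exact ⟨e, τ, fun _ => ⟨he, k⟩⟩
      · obtain ⟨x⟩ : Nonempty M.X := inferInstance
        exact ⟨M.ch x, 0, fun k => (h k).elim⟩
    choose e τ hc using ch
    obtain ⟨T', h1, h2⟩ := (mEXT _ P.Z P.S hS).1 (fun a w => blk c (T (e a) (tl w)))
      (fun a ha w hw => by
        obtain ⟨k1, k2⟩ := hc a ha
        rw [k2] at hw
        exact ((hC n).2.2.2.2.2.2.2.1 c _ w (hT.sm _ k1 _ ((P.tgt _ k1 _ w).1 hw).2)).1)
      (fun a ha a' ha' y hy hy' => by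
        obtain ⟨k1, k2⟩ := hc a ha
        obtain ⟨k3, k4⟩ := hc a' ha'
        have := cmp (c := c) hB hK hT k1 k3 (k2 ▸ hy) (k4 ▸ hy')
        rwa [← k2, ← k4] at this)
    refine ⟨T', h1, fun e₀ he τ₀ w hw => ?_⟩
    have hm : P.pc e₀ τ₀ ∈ P.S := ⟨e₀, he, τ₀, rfl⟩
    obtain ⟨k1, k2⟩ := hc _ hm
    have hy := (P.pc e₀ τ₀).map_target hw
    have := cmp (c := c) (τ' := τ (P.pc e₀ τ₀)) hB hK hT he k1 hy (by rw [← k2]; exact hy)
    rw [← k2, (mTR _ P.Z).2.2.1 _ (hS.sub hm) _ hy, (P.pc e₀ τ₀).right_inv hw] at this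
    rw [h2 _ hm w hw, this, Matrix.conjTranspose_one, one_mul, mul_one]
  rw [Pd.up, dif_pos ex]
  exact ex.choose_spec

end UPK

open UPK in
theorem zUPK (hBLK : St_BLK) (hCAL : St_CAL) (hPKT : St_PKT) : St_UPK := by
  intro n M _ P
  have u : ∀ c T, M.Ten T → P.Up c T (P.up c T) := fun c T h => up hBLK hCAL hPKT h
  have s := (mSUB _ P.Z P.S (hPKT n M P).1).1
  have b := (hBLK n).1
  have f1 : ∀ c T, M.Form T → P.Z.Form (P.up c T) := fun c T h =>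
    ⟨(u c T h.toTen).1, (s _ (u c T h.toTen).1).1 (onS fun e he τ w hw ht => by
      rw [(u c T h.toTen).2 e he τ w hw]
      exact (b c 0 0 _ 0).2.2.2.2.2.2.2.2.2.2.2.2.2.1 (h.herm e he _ ht))⟩
  have f2 : ∀ c T, M.Clo T → P.Z.Clo (P.up c T) := fun c T h =>
    ⟨f1 c T h.toForm, (s _ (u c T h.toTen).1).2.2.2.1 (onS fun e he τ w hw ht =>
      (((hCAL n).2.2.2.2.2.2.2.1 c _ w (h.sm e he _ ht)).2 (h.cl e he _ ht)).congr
        (((P.pc e τ).open_target.eventually_mem hw).mono fun v hv =>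
          (u c T h.toTen).2 e he τ v hv))⟩
  have f3 : ∀ c T, 0 < c → M.Met T → P.Z.Met (P.up c T) := fun c T hc h =>
    ⟨f1 c T h.toForm, (s _ (u c T h.toTen).1).2.1 (onS fun e he τ w hw ht => by
      rw [(u c T h.toTen).2 e he τ w hw]
      exact (b c 0 0 _ 0).2.2.2.2.2.2.2.2.2.2.2.2.2.2.2 hc (h.pos e he _ ht))⟩
  have f4 : ∀ c c' T T', M.Ten T → M.Ten T' → c ≤ c' → M.Le T T' →
      P.Z.Le (P.up c T) (P.up c' T') := fun c c' T T' h h' hc hl =>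
    (s _ ((u c' T' h').1.sub (u c T h).1)).2.2.1 (onS fun e he τ w hw ht => by
      rw [Pi.sub_apply, Pi.sub_apply, (u c T h).2 e he τ w hw, (u c' T' h').2 e he τ w hw,
        ← (b c' c 0 _ _).2.1]
      exact (b _ 0 0 _ 0).2.2.2.2.2.2.2.2.2.2.2.2.2.2.1 (sub_nonneg.2 hc) (hl e he _ ht))
  have lc : ∀ f : M.X → ℝ, ∀ e ∈ M.C, ∀ τ, ∀ w ∈ (P.pc e τ).target,
      P.Z.lc (P.pb f) (P.pc e τ) =ᶠ[𝓝 w] fun v => M.lc f e (tl v) := fun f e he τ w hw =>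
    ((P.pc e τ).open_target.eventually_mem hw).mono fun v hv => by
      simp only [Mf.lc, Pd.pb, pr_symm he hv]
  have pb := (hPKT n M P).2.2.2.2.2.1
  refine ⟨u, f1, f2, f3, fun c T hc h => { f2 c T h.toClo, f3 c T hc h.toMet with },
    fun c c' T T' h h' => ⟨f4 c c' T T' h h', fun hc hl => ?_, fun k => ?_, fun r => ?_⟩,
    fun f g hf hg => ?_, fun f T hf h => ⟨h.fsmul hf, ?_⟩, Mf.clo_zero⟩
  · refine fun a ha w hw => ?_
    have := (s _ (u c T h).1).2.2.1 (onS fun e he τ w hw ht => by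
      rw [(u c T h).2 e he τ w hw]
      exact (b _ 0 0 _ 0).2.2.2.2.2.2.2.2.2.2.2.2.2.2.1 hc (by simpa using hl e he _ ht)) a ha w hw
    simpa using this
  · exact (s _ (u c T h).1).2.2.2.2.1 _ (u c T' h').1 (onS fun e he τ w hw ht => by
      rw [(u c T h).2 e he τ w hw, (u c T' h').2 e he τ w hw, k e he _ ht])
  · refine Mf.AllOn.and ((s _ (u _ _ (h.add h')).1).2.2.2.2.1 _ ((u c T h).1.add (u c' T' h').1)
      (onS fun e he τ w hw ht => ?_)) ((s _ (u _ _ (h.smul r)).1).2.2.2.2.1 _ ((u c T h).1.smul r)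
      (onS fun e he τ w hw ht => ?_))
    · rw [(u _ _ (h.add h')).2 e he τ w hw, (u c T h).2 e he τ w hw,
        (u c' T' h').2 e he τ w hw]
      exact (b c c' 0 _ _).1
    · rw [(u _ _ (h.smul r)).2 e he τ w hw, (u c T h).2 e he τ w hw]
      exact (b c 0 r _ 0).2.2.1
  · have t1 := ((mHES n M).1 f hf).toTen
    have t2 := ((mHES n M).2.1 f g hf hg).1
    refine Mf.AllOn.and ((s _ ((mHES _ P.Z).1 _ (pb f hf)).toTen).2.2.2.2.1 _ (u 0 _ t1).1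
      (onS fun e he τ w hw ht => ?_))
      ((s _ ((mHES _ P.Z).2.1 _ _ (pb f hf) (pb g hg)).1).2.2.2.2.1 _ (u 0 _ t2).1
      (onS fun e he τ w hw ht => ?_))
    · rw [(u 0 _ t1).2 e he τ w hw, Mf.hs, hess_congr (lc f e he τ w hw)]
      exact ((hCAL n).2.2.2.2.1 _ _ w (hf.lc e he _ ht) (hg.lc e he _ ht)).1
    · rw [(u 0 _ t2).2 e he τ w hw, Mf.ds, dd_congr (lc f e he τ w hw) (lc g e he τ w hw)]
      exact ((hCAL n).2.2.2.2.1 _ _ w (hf.lc e he _ ht) (hg.lc e he _ ht)).2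
  · have t1 : M.Ten (fm M f T) := h.fsmul hf
    have t2 : P.Z.Ten (fm P.Z (P.pb f) (P.up 0 T)) := (u 0 T h).1.fsmul (pb f hf)
    refine (s _ (u 0 _ t1).1).2.2.2.2.1 _ t2 (onS fun e he τ w hw ht => ?_)
    rw [(u 0 _ t1).2 e he τ w hw, fm, fm, (u 0 T h).2 e he τ w hw, Pd.pb, pr_symm he hw,
      ← (b 0 0 _ _ 0).2.2.1, mul_zero]

end Pool.Agent.Lib.ZE
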