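import Pool.Agent.Lib.ZE.Blue

/-! Project ze, row UPS: the scalars of the pull-backs. -/

open scoped Classical Topology ContDiff ComplexOrder Matrix
open Set MeasureTheory Filter

noncomputable section

namespace Pool.Agent.Lib.ZE

open Pool.Agent.Lib.SV (E)
open Pool.Agent.Lib.HS32
open Pool.Agent.Lib.DX (ta)

namespace UPS

variable {n : ℕ}

theorem adj_cj (J T S H : Mat n) (hJ : J.det ≠ 0) :
    ((Jᴴ * T * J).adjugate * (Jᴴ * S * J)).trace / (Jᴴ * H * J).det =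
      (T.adjugate * S).trace / H.det := by
  have h1 : (Jᴴ).det ≠ 0 := by
    rw [Matrix.det_conjTranspose]
    exact star_ne_zero.2 hJ
  have e : (Jᴴ * T * J).adjugate * (Jᴴ * S * J) =
      (Jᴴ).det • (J.adjugate * (T.adjugate * S) * J) := by
    rw [Matrix.adjugate_mul_distrib, Matrix.adjugate_mul_distrib]
    calc J.adjugate * (T.adjugate * Jᴴ.adjugate) * (Jᴴ * S * J)
        = J.adjugate * (T.adjugate * ((Jᴴ.adjugate * Jᴴ) * S)) * J := by
          simp only [Matrix.mul_assoc]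
      _ = _ := by
          rw [Matrix.adjugate_mul]
          simp only [Matrix.smul_mul, Matrix.mul_smul, Matrix.one_mul]
  rw [e, Matrix.trace_smul, Matrix.trace_mul_cycle, Matrix.mul_adjugate, Matrix.smul_mul,
    Matrix.one_mul, Matrix.trace_smul, Matrix.det_mul, Matrix.det_mul, smul_eq_mul, smul_eq_mul]
  by_cases h : H.det = 0
  · simp [h]
  · field_simp

theorem ta_rep (M : Mf n) {H T S : M.Fam (Mat n)} (hH : M.Ten H) (hT : M.Ten T) (hS : M.Ten S) :
    M.Rep (ta M H T S) fun e z => (((T e z).adjugate * S e z).trace / (H e z).det).re := by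
  have hI : M.Inv fun e z => (((T e z).adjugate * S e z).trace / (H e z).det).re := by
    intro e he e' he' x hx hx'
    have hJ := ((mTR n M).2.1 e he e' he' x hx hx').2.1
    show (((T e' (e' x)).adjugate * S e' (e' x)).trace / (H e' (e' x)).det).re = _
    rw [hH.cmp e he e' he' x hx hx', hT.cmp e he e' he' x hx hx', hS.cmp e he e' he' x hx hx',
      adj_cj _ _ _ _ hJ]
  exact (mTR n M).2.2.2.2.1 ℝ _ hI

end UPS

open UPS in
theorem zUPS (hB : St_BLK) (hC : St_CAL) (hP : St_PKT) (hU : St_UPK) : St_UPS := by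
  intro n M _ P H hH
  obtain ⟨u1, -, -, u4, -⟩ := hU n M P
  obtain ⟨p1, -, p3, p4, -⟩ := hP n M P
  have hZ := u4 1 H one_pos hH
  have tg : ∀ e ∈ M.C, ∀ τ, ∀ w ∈ (P.pc e τ).target, tl w ∈ e.target := fun e he τ w hw =>
    ((P.tgt e he τ w).1 hw).2
  refine ⟨?_, fun c T S hT hS y => ?_⟩
  · have r1 := ((mHES (n + 1) P.Z).2.2.2.2.2.2.2.2.1 _ hZ).toForm.toTen
    have r2 := ((mHES n M).2.2.2.2.2.2.2.2.1 _ hH).toForm.toTen
    refine ((mSUB (n + 1) P.Z P.S p1).1 _ r1).2.2.2.2.1 _ (u1 0 _ r2).1 ?_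
    rintro _ ⟨e, he, τ, rfl⟩ w hw
    rw [(u1 0 _ r2).2 e he τ w hw]
    have ev : ld (P.up 1 H (P.pc e τ)) =ᶠ[𝓝 w] fun v => ld (H e) (tl v) := by
      filter_upwards [(P.pc e τ).open_target.mem_nhds hw] with v hv
      rw [ld, ld, (u1 1 H hH.toForm.toTen).2 e he τ v hv,
        ((hB n).1 1 0 0 (H e (tl v)) 0).2.2.2.2.2.2.2.2.1, Complex.ofReal_one, one_mul]
    have sm : ContDiffAt ℝ ∞ (ld (H e)) (tl w) :=
      ((mCOF n (H e) (tl w) (hH.sm e he _ (tg e he τ w hw))).2.2.2.2.2 (by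
        filter_upwards [e.open_target.mem_nhds (tg e he τ w hw)] with v hv
        exact hH.pos e he v hv)).1
    have e1 := ((hC n).2.2.2.2.1 _ _ w sm sm).1
    have e2 := ((hB n).1 0 0 0 (hess (ld (H e)) (tl w)) 0).2.2.2.1
    rw [neg_zero] at e2
    show -hess (ld (P.up 1 H (P.pc e τ))) w = blk 0 (-hess (ld (H e)) (tl w))
    rw [e2, ← e1, hess_congr ev]
  · obtain ⟨τ, x, rfl⟩ := P.surj y
    obtain ⟨he, hx⟩ := (mTR n M).1 x
    set e := M.ch x
    obtain ⟨a1, a2⟩ := p3 e he τ τ (by simp) x hx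
    have hw := (P.pc e τ).map_source a1
    have hq := (P.pc e τ).left_inv a1
    have t1 : tl (P.pc e τ (P.q τ x)) = e x := by rw [a2, ((hC n).1 τ (e x)).2]
    have hz := e.map_source hx
    have d1 := (((mINV (n + 1) P.Z _ hZ).1 _ (u1 c T hT).1).2.2.1) _ (P.mem e he τ) _ hw
    have d2 := ta_rep P.Z hZ.toForm.toTen (u1 c T hT).1 (u1 0 S hS).1 _ (P.mem e he τ) _ hw
    have b1 := (hB n).1 c 0 0 (T e (e x)) (S e (e x))
    have b2 := ((hB n).1 1 0 0 (H e (e x)) 0).2.2.2.2.2.2.2.2.1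
    simp only [hq, (u1 c T hT).2 e he τ _ hw, (u1 0 S hS).2 e he τ _ hw,
      (u1 1 H hH.toForm.toTen).2 e he τ _ hw, t1, b2, b1.2.2.2.2.2.2.2.2.1,
      b1.2.2.2.2.2.2.2.2.2.2.2.2.1, Complex.ofReal_one, one_mul, mul_div_assoc,
      Complex.re_ofReal_mul] at d1 d2
    rw [d1, d2, P.prq]
    exact ⟨rfl, rfl⟩

end Pool.Agent.Lib.ZE
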