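import Pool.Agent.Lib.ZE.Blue
import Pool.Agent.Lib.ZK.B_MES
import Pool.Agent.Lib.ZK.B_KIT
import Pool.Agent.Lib.ZK.B_LOW

/-! The lower bound at one time, with an integral bound for the boundary. -/

open scoped Classical Topology ContDiff ComplexOrder Matrix
open Set MeasureTheory Filter

noncomputable section

namespace Pool.Agent.Lib.ZE

open Pool.Agent.Lib.HS32
open Pool.Agent.Lib.ZK (ps)

theorem nLO2 (hUNI : ZK.St_UNI) (hUP2 : St_UP2) : St_LO2 := by
  intro n M _ H C₀ p C q hn hH hp hq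
  obtain ⟨-, hfin, -⟩ := mMU n M H hH.toMet
  obtain ⟨C₁, hC₁, hup⟩ := hUP2 n M H C₀ p C hH hp
  obtain ⟨Kr, hKr, hr⟩ := ZK.st_MES M.X (M.mu H) p q ((1 + q) / 2) C hp (by linarith) (by linarith)
  obtain ⟨K₁, hK₁, h1⟩ := ZK.st_MES M.X (M.mu H) p q 1 C hp le_rfl hq
  obtain ⟨S, hS, huni⟩ := hUNI n M H ((p + 1) * C₀) ((p + 1) * 1) ((1 + q) / 2)
    (Real.exp ((1 + q) / 2 * (C₁ + (p + 1))) * Kr) hn hH (by linarith)
  refine ⟨S + (p + 1) + |Real.log K₁|, by positivity, fun t ht => ?_⟩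
  obtain ⟨ηr, hηr, hr⟩ := hr t
  obtain ⟨η₁, hη₁, h1⟩ := h1 t
  refine ⟨min ηr η₁, lt_min hηr hη₁, fun ϑ V E a χ w d hχ hχC hχq hη s x => ?_⟩
  obtain ⟨k1, -, -, -, k5, k6⟩ := ZK.st_KIT n M H ϑ hH d.clo
  obtain ⟨u1, u2⟩ := hup ϑ V t E a χ w d hχ hχC ht s
  obtain ⟨y, hy⟩ := s.sm.exists_max
  obtain ⟨B, -, hB⟩ := hχ.exists_bound
  have cE := d.env.sm.continuous
  have ca := d.sa.continuous
  have cχ := hχ.continuous
  have cw := s.sm.continuous
  have cF := s.sF.continuous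
  have my : Measurable fun x => E x - a x := (cE.sub ca).measurable
  have cg : Continuous fun x => p * min (E x - a x) t - χ x := by fun_prop
  have ir := hr _ χ B my cχ.measurable hB hχq (hη.trans (min_le_left _ _))
  have i1 := h1 _ χ B my cχ.measurable hB hχq (hη.trans (min_le_right _ _))
  have e1 := ZK.LOW.cmp M H hH.toMet (fun x => w x - (ps M p E a t x + χ x)) _ 1
    (w y + (p + 1) - p * t) zero_le_one (cw.sub cF) cg fun x => by
      have := (u2 (w y) hy x).2
      linarith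
  have er := ZK.LOW.cmp M H hH.toMet (fun x => w x - (ps M p E a t x + χ x)) _ ((1 + q) / 2)
    (C₁ + (p + 1)) (by linarith) (cw.sub cF) cg fun x => by
      have := (u2 _ u1 x).2
      linarith
  have hu := huni _ V _ _ w (k1 (p + 1)).2 (k5 (p + 1) C₀ (by linarith) d.le)
    (k6 (p + 1) 1 E (by linarith) d.env) s
    (er.trans (mul_le_mul_of_nonneg_left ir (Real.exp_pos _).le)) x y
  have h2 : 1 ≤ Real.exp (w y + (p + 1) - p * t + Real.log K₁) := by
    rw [Real.exp_add, Real.exp_log hK₁]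
    have := e1.trans (mul_le_mul_of_nonneg_left i1 (Real.exp_pos _).le)
    simp only [one_mul] at this
    rwa [s.one] at this
  have h3 := Real.one_le_exp_iff.1 h2
  have h4 := le_abs_self (Real.log K₁)
  linarith

end Pool.Agent.Lib.ZE
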