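import Pool.Agent.Lib.ZE.Blue

/-! The twisting weight on the product is plurisubharmonic. -/

open scoped Classical Topology ContDiff ComplexOrder Matrix
open Set Filter

noncomputable section

namespace Pool.Agent.Lib.ZE

open Pool.Agent.Lib.HS32
open Pool.Agent.Lib.ZK (ps sg)

theorem nPZ (hPSI : ZK.St_PSI) (hBLK : St_BLK) (hPKT : St_PKT) (hUPK : St_UPK) : St_PZ := by
  intro n M _ P ϑ p R u a hp hR hϑ hu ha pu pa
  obtain ⟨k1, -, -, -, -, k2, k3, -⟩ := hPKT n M P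
  obtain ⟨u1, -, -, -, -, u2, u3, -, -⟩ := hUPK n M P
  obtain ⟨s1, s2⟩ := k3 (fun r => R * r) (by fun_prop)
  have hU := k2 u hu
  have hA := (k2 a ha).add s1
  have t0 : M.Ten 0 := Mf.ten_zero
  have tu := ((mHES n M).1 u hu).toTen
  have ta := ((mHES n M).1 a ha).toTen
  have e : P.pz p R u a = ps P.Z p (P.pb u) (fun y => P.pb a y + R * P.sn y) 0 :=
    funext fun y => by simp only [Pd.pz, ps, Pd.pb, add_zero]
  obtain ⟨b1, -, b2, b3, -⟩ := hPSI (n + 1) P.Z p 0 _ _ hp hU hA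
  have d : ∀ x, deriv (deriv fun s => R * Real.sin s) x = R * -Real.sin x := fun x => by
    rw [show deriv (fun s => R * Real.sin s) = fun s => R * Real.cos s from
      funext fun s => ((Real.hasDerivAt_sin s).const_mul R).deriv]
    exact ((Real.hasDerivAt_cos x).const_mul R).deriv
  have q1 := ((mSUB (n + 1) P.Z P.S k1).1 _
    ((u1 (R / 4) 0 t0).1.add ((mHES (n + 1) P.Z).1 _ s1).toTen)).2.2.1 (by
      rintro _ ⟨c, hc, τ, rfl⟩ w hw
      simp only [Pi.add_apply]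
      rw [(u1 (R / 4) 0 t0).2 c hc τ w hw, s2 c hc τ w hw, d]
      obtain ⟨m1, -, -, -, -, -, -, -, -, -, -, -, -, -, -, -⟩ :=
        (hBLK n).1 (R / 4) (R * -Real.sin (w 0).re / 4) 0 0 0
      refine (congrArg Matrix.PosSemidef m1).mp ?_
      obtain ⟨-, -, -, -, -, -, -, -, -, -, -, -, -, -, m2, -⟩ :=
        (hBLK n).1 (R / 4 + R * -Real.sin (w 0).re / 4) 0 0 (0 + 0) 0
      refine m2 ?_ (by rw [add_zero]; exact Matrix.PosSemidef.zero)
      nlinarith [Real.sin_le_one (w 0).re])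
  rw [e]
  refine ⟨b1, fun c hc w hw => ?_⟩
  have q2 := (u2 (R / 4) 0 0 0 t0 t0).2.1 (by positivity) (Mf.Le.refl 0) c hc w hw
  have q3 := (u2 (0 + 0) 0 _ 0 (hϑ.toTen.add tu) t0).2.1 (by norm_num) pu c hc w hw
  have q4 := (u2 (0 + 0) 0 _ 0 (hϑ.toTen.add ta) t0).2.1 (by norm_num) pa c hc w hw
  have q5 := ((mHES (n + 1) P.Z).2.2.1 _ (hU.sub hA)).2 c hc w hw
  have r1 := ((u2 0 (R / 4) ϑ 0 hϑ.toTen t0).2.2.2 p c hc w hw).1
  have r2 := ((u2 (R / 4) 0 ϑ 0 hϑ.toTen t0).2.2.2 p c hc w hw).2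
  rw [zero_add, add_zero] at r1
  beta_reduce at q3 q4
  rw [((u2 0 0 ϑ _ hϑ.toTen tu).2.2.2 p c hc w hw).1] at q3
  rw [((u2 0 0 ϑ _ hϑ.toTen ta).2.2.2 p c hc w hw).1] at q4
  obtain ⟨g0, g1⟩ := b2 (c.symm w)
  have z := ((Mf.psd_rsmul (q3.add q2) (mul_nonneg hp (sub_nonneg.2 g1.le))).add
    (Mf.psd_rsmul (q4.add (q1 c hc w hw)) (mul_nonneg hp g0.le))).add
    (Mf.psd_rsmul q5 (mul_nonneg (mul_nonneg hp g0.le) (sub_nonneg.2 g1.le)))
  refine (congrArg Matrix.PosSemidef ?_).mp z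
  simp only [Pi.add_apply, Pi.zero_apply]
  rw [mul_div_assoc, r2, r1, b3 c hc w hw,
    ((mLAP (n + 1) P.Z _ _ (k2 a ha) s1).1 0 c hc w hw).2.1, (u3 u u hu hu c hc w hw).1,
    (u3 a a ha ha c hc w hw).1]
  module

end Pool.Agent.Lib.ZE
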