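import Pool.Agent.Lib.ZE.Blue
import Pool.Agent.Lib.ZK.B_UP
import Pool.Agent.Lib.ZK.B_KIT

/-! Row UPI of the project ze: upper bounds with a mean bound for the weight. -/

open scoped Classical Topology ContDiff ComplexOrder Matrix
open Set MeasureTheory Filter

noncomputable section

namespace Pool.Agent.Lib.ZE

open Pool.Agent.Lib.HS32 Pool.Agent.Lib.HS32.Mf Pool.Agent.Lib.ZK

theorem nUP2 (hPSI : ZK.St_PSI) : St_UP2 := by
  intro n M _ H C₀ p C hH hp
  obtain ⟨D, -, hD, -⟩ := mPSH n M H ((p + 1) * C₀) hH.toMet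
  obtain ⟨-, hfin, -, hv, hint, -⟩ := mMU n M H hH.toMet
  set v := (M.mu H).real univ with hvdef
  refine ⟨max 0 (p + C / v + D / v - Real.log v), le_max_left _ _, ?_⟩
  intro ϑ V t E a χ w hd hχ hC ht hs
  obtain ⟨-, -, -, -, hle, henv⟩ := st_KIT n M H ϑ hH hd.clo
  obtain ⟨-, -, -, -, -, hps, -⟩ := hPSI n M p t E a hp.le hd.env.sm hd.sa
  have hp1 : 0 < p + 1 := by linarith
  refine ⟨?_, fun m hm x => ?_⟩
  · obtain ⟨x₀, hx₀⟩ := hs.sm.exists_max
    have hu : M.Sm fun x => w x - w x₀ := hs.sm.sub (sm_const _)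
    have hmet := UP.met_sub_const hs.sm (w x₀) hs.kae.toMet
    have h1 := hD _ hu (hmet.nonneg.trans ((hle (p + 1) C₀ hp1.le hd.le).add (Le.refl _)))
      (fun x => sub_nonpos.2 (hx₀ x)) ⟨x₀, sub_self _⟩
    set c := w x₀ - p * t - p - C / v - D / v with hc
    have iu := hint ℝ _ hu.continuous
    have iχ := hint ℝ _ hχ.continuous
    have iw : Integrable (fun x => w x - w x₀ - χ x) (M.mu H) := iu.sub iχ
    have h2 : ∫ x, Real.exp c * (1 + C / v + D / v + (w x - w x₀ - χ x)) ∂M.mu H ≤
        ∫ x, Real.exp (w x - (ps M p E a t x + χ x)) ∂M.mu H := by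
      refine integral_mono (((integrable_const _).add iw).const_mul _)
        (hint ℝ _ (hs.sm.sub hs.sF).exp.continuous) fun x => ?_
      refine le_trans (mul_le_mul_of_nonneg_left ?_ (Real.exp_pos c).le) (UP.exp_tan _ c)
      have h3 := (hps x).2.2
      have h4 : max (E x) (a x + t) ≤ t :=
        max_le ((hd.env.np x).trans ht) (by linarith [hd.na x])
      have h5 := mul_le_mul_of_nonneg_left h4 hp.le
      rw [hc]
      linarith
    rw [hs.one, integral_const_mul, integral_add (integrable_const _) iw, integral_sub iu iχ,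
      integral_const, smul_eq_mul, ← hvdef] at h2
    have h7 : v * (1 + C / v + D / v) = v + C + D := by field_simp
    have h8 : Real.exp c * v ≤ 1 :=
      le_trans (mul_le_mul_of_nonneg_left (by linarith) (Real.exp_pos c).le) h2
    have h9 : c + Real.log v ≤ 0 := by
      rw [← Real.exp_le_one_iff, Real.exp_add, Real.exp_log hv]
      exact h8
    intro x
    have h10 := le_max_right 0 (p + C / v + D / v - Real.log v)
    have h11 := hx₀ x
    linarith
  · have h1 := (henv (p + 1) 1 E hp1 hd.env).mx _ (hs.sm.sub (sm_const m))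
      (UP.met_sub_const hs.sm m hs.kae.toMet) (fun y => sub_nonpos.2 (hm y)) x
    have h2 := hd.env.np x
    obtain ⟨h3, h4, -⟩ := hps x
    beta_reduce at h1
    refine ⟨by linarith, ?_⟩
    rcases le_total (E x - a x) t with h | h
    · rw [min_eq_left h]
      nlinarith
    · rw [min_eq_right h]
      nlinarith

end Pool.Agent.Lib.ZE
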