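import Pool.Agent.Lib.ZE.Blue
import Pool.Agent.Lib.ZK.B_KIT

/-! Project ze, row ZE: the theorem from the rows. -/

open scoped Classical Topology ContDiff ComplexOrder Matrix ENNReal
open Set MeasureTheory Filter

set_option linter.unusedVariables false

noncomputable section

namespace Pool.Agent.Lib.ZE

open Pool.Agent.Lib.HS32
open Pool.Agent.Lib.ZK (Env st_KIT)

theorem nZE (hENV : ZK.St_ENV) (hKT : St_KT) (hQQ : St_QQ) (hTL : St_TL) (hLA2 : St_LA2) : St_ZE := by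
  intro n M _ ι _ D
  obtain ⟨k1, -, k3, -, k5, -, k7, k8⟩ := hKT n M ι D
  obtain ⟨j1, -, j3, -⟩ := st_KIT n M D.H D.T D.kae D.cT
  obtain ⟨-, hfin, -, -, hint, -⟩ := mMU n M D.H D.kae.toMet
  have ex : ∀ e : ℝ, ∃ φ, 0 < e → Env M (D.T + e • D.H) φ e := fun e => by
    by_cases he : 0 < e
    · obtain ⟨ψ, h1, h2⟩ := k7 e he
      exact (hENV n M D.H _ ψ e D.pos D.kae (j1 e).1 h1 h2 he).imp fun _ h _ => h
    · exact ⟨0, fun h => absurd h he⟩
  choose b hb using ex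
  have ex2 : ∀ e e' : ℝ, ∃ φ, 0 < e → 0 < e' → Env M (D.th e e') φ e' := fun e e' => by
    by_cases he : 0 < e ∧ 0 < e'
    · obtain ⟨ψ, h1, h2⟩ := k3 e he.1 e' he.2
      exact (hENV n M D.H _ ψ e' D.pos D.kae (k1 e e') h1 h2 he.2).imp fun _ h _ _ => h
    · exact ⟨0, fun h h' => absurd ⟨h, h'⟩ he⟩
  choose a ha using ex2
  have hF : D.Fam a := fun e he e' he' => ha e e' he.1 he'.1
  refine ⟨b, fun e he => hb e he.1, fun e he e' he' => (hb e he.1).mx _ (hb e' he'.1).sm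
    (j3 e e' _ he'.2 (hb e' he'.1).sm (hb e' he'.1).kae).1.toMet (hb e' he'.1).np,
    fun m hm => ?_⟩
  obtain ⟨q, δ, C, hq, hδ, hk⟩ := D.klt
  obtain ⟨C', -, hχ⟩ := hQQ n M ι D
  obtain ⟨m', hm', la⟩ := hLA2 m δ q C hm hδ hq
  obtain ⟨A, t, e, he, tl⟩ := hTL n M ι D a m' hF hm'
  obtain ⟨K, hK⟩ := la M.X (M.mu D.H) A t
  obtain ⟨B, hB⟩ := k5 a hF e he
  refine ⟨Real.exp (m * (B + 1)) * K, fun s hs => ?_⟩
  obtain ⟨r, hr, h8⟩ := k8 s hs.1
  have h2 : 0 < min e r := lt_min he.1 hr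
  obtain ⟨ε, hε, tl⟩ := tl (min e r) ⟨h2, min_le_left _ _⟩
  have h3 : 0 < min (min ε r) 1 := lt_min (lt_min hε hr) one_pos
  obtain ⟨d, hd, tl⟩ := tl (min (min ε r) 1) ⟨h3, (min_le_left _ _).trans (min_le_left _ _)⟩
  have E1 := ha e _ he.1 h3
  have E2 := ha _ _ h2 h3
  have E3 := hb s hs.1
  have hy := E1.sm.sub E2.sm
  have hc := (hχ d hd.1).1
  obtain ⟨B1, p1, hB1⟩ := hy.exists_bound
  obtain ⟨B2, p2, hB2⟩ := hc.exists_bound
  have key := hK _ (D.χ d) (B1 + B2) hy.continuous.measurable hc.continuous.measurable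
    (fun x => ⟨(hB1 x).trans (by linarith), (hB2 x).trans (by linarith)⟩)
    (by simpa only [Dt.χ, mul_neg, neg_neg] using (hk d hd).1)
    (by simpa only [Dt.χ, mul_neg] using (hk d hd).2) tl
  have cmp := E3.mx _ E2.sm (h8 _ ⟨h2, min_le_right _ _⟩ _
    ⟨h3, (min_le_left _ _).trans (min_le_right _ _)⟩ _ E2.sm E2.kae.toMet) E2.np
  refine le_trans ?_ (mul_le_mul_of_nonneg_left key (Real.exp_pos _).le)
  rw [← integral_const_mul]
  have c1 := E1.sm.continuous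
  have c2 := E2.sm.continuous
  have c3 := E3.sm.continuous
  refine integral_mono (hint ℝ _ (by fun_prop)) (hint ℝ _ (by fun_prop)) fun x => ?_
  beta_reduce
  rw [← Real.exp_add]
  have b1 := (abs_le.1 (hB _ ⟨h3, min_le_right _ _⟩ x)).1
  exact Real.exp_le_exp.2 (by nlinarith [cmp x, hs.2])

end Pool.Agent.Lib.ZE
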