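import Pool.Agent.Lib.ZE.B_BLK
import Pool.Agent.Lib.ZE.B_CAL
import Pool.Agent.Lib.ZE.B_CHE
import Pool.Agent.Lib.ZE.B_CLZ
import Pool.Agent.Lib.ZE.B_CV3
import Pool.Agent.Lib.ZE.B_CZ2
import Pool.Agent.Lib.ZE.B_FA2
import Pool.Agent.Lib.ZE.B_FU2
import Pool.Agent.Lib.ZE.B_FUB
import Pool.Agent.Lib.ZE.B_INT
import Pool.Agent.Lib.ZE.B_KT
import Pool.Agent.Lib.ZE.B_LA2
import Pool.Agent.Lib.ZE.B_OR2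
import Pool.Agent.Lib.ZE.B_PKT
import Pool.Agent.Lib.ZE.B_PMK
import Pool.Agent.Lib.ZE.B_QQ
import Pool.Agent.Lib.ZE.B_RZ
import Pool.Agent.Lib.ZE.B_S0
import Pool.Agent.Lib.ZE.B_SGU
import Pool.Agent.Lib.ZE.B_SLC
import Pool.Agent.Lib.ZE.B_SOL
import Pool.Agent.Lib.ZE.B_TL
import Pool.Agent.Lib.ZE.B_TRI
import Pool.Agent.Lib.ZE.B_UPK
import Pool.Agent.Lib.ZE.B_UPS
import Pool.Agent.Lib.ZE.N_AUB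
import Pool.Agent.Lib.ZE.N_LO2
import Pool.Agent.Lib.ZE.N_PZ
import Pool.Agent.Lib.ZE.N_SAN
import Pool.Agent.Lib.ZE.N_TA2
import Pool.Agent.Lib.ZE.N_UP2
import Pool.Agent.Lib.ZE.N_ZE
import Pool.Agent.Lib.ZK.N_ENV
import Pool.Agent.Lib.ZK.N_EXS
import Pool.Agent.Lib.ZK.N_PSI
import Pool.Agent.Lib.ZK.N_UNI

/-! Assembly of the project ze. -/

namespace Pool.Agent.Lib.ZE

open Pool.Agent.Lib.ZK (n_PSI n_UNI n_ENV n_EXS)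

theorem aPKT : St_PKT := zPKT st_CAL

theorem aUPK : St_UPK := zUPK zBLK st_CAL aPKT

theorem aUPS : St_UPS := zUPS zBLK st_CAL aPKT aUPK

theorem aFU2 : St_FU2 := zFU2 aPKT (zFUB zBLK aPKT aUPK)

theorem aPZ : St_PZ := nPZ n_PSI zBLK aPKT aUPK

theorem aS0 : St_S0 := zS0 aPKT aUPK aUPS aFU2 (zSGU aUPK aFU2 aPKT) zKT zOR2

theorem aCV3 (hA : HS.St_AUBIN) : St_CV3 :=
  zCV3 zPMK aPKT aUPK aPZ (zSOL aUPK (nAUB hA) aPKT) (nSAN n_PSI zBLK aPKT aUPK aUPS)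
    (zRZ aUPK aUPS aPKT aPZ) (zCLZ zBLK aPKT aUPK) zINT (zSLC zBLK st_CAL aPKT aUPK) zTRI
    (zCHE aUPK aFU2 aPKT) zKT zQQ aS0 n_PSI

theorem ze0 (hA : HS.St_AUBIN) : St_ZE :=
  nZE (n_ENV hA) zKT zQQ (zTL zKT zQQ (aCV3 hA) (nUP2 n_PSI) (nLO2 (n_UNI hA) (nUP2 n_PSI))
    (zCZ2 n_PSI (n_UNI hA) (nUP2 n_PSI)) (nTA2 n_PSI) (zFA2 zKT) (n_EXS hA)) zLA2

end Pool.Agent.Lib.ZE
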