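import Pool.Agent.Lib.ZE.Out

/-! Row BGF: the form read in all charts. -/

open scoped Classical Topology ComplexOrder Matrix Manifold
open Set Filter

namespace Pool.Agent.Lib.ZE

open Pool.Agent.Lib.SV (E)
open Pool.Agent.Lib.HS32 Pool.Agent.Lib.HS.BBR Pool.Agent.Lib.RB.R32

theorem oBGF : St_BGF := by
  intro n X _ _ _ h hh
  let M : Mf n := mf n X
  let c : M.X → M.Ch := chartAt (M := X) (E n)
  have hc : ∀ x, c x ∈ M.C := fun x y => ⟨cp_chart (X := X) x y, cp_chart (X := X) y x⟩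
  have hs : ∀ x, x ∈ (c x).source := mem_chart_source (M := X) (E n)
  obtain ⟨-, hov, h1, -⟩ := mTR n M
  have hH : ∀ e : M.Ch, ∀ x ∈ e.source,
      fam h e (e x) = (M.J (c x) e x)ᴴ * h x * M.J (c x) e x := fun e x hx => by
    simp only [fam, e.left_inv hx, Mf.J]
    rfl
  have cmp : M.Ov fun e e' x =>
      fam h e' (e' x) = (M.J e e' x)ᴴ * fam h e (e x) * M.J e e' x := by
    intro e he e' he' x hx hx'
    show fam h e' (e' x) = (M.J e e' x)ᴴ * fam h e (e x) * M.J e e' x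
    rw [hH e x hx, hH e' x hx', (hov _ (hc x) e he x (hs x) hx).2.2.2.2 e' he' hx']
    simp only [Matrix.conjTranspose_mul, Matrix.mul_assoc]
  have pos : ∀ e z, (fam h e z).PosSemidef := fun e z =>
    (hh.nonneg _).conjTranspose_mul_mul_same _
  have key : M.All fun e z => SmM (fam h e) z ∧ ClM (fam h e) z := by
    intro e he z hz
    obtain ⟨h1, h2, -, h3, -⟩ := hov _ (hc (e.symm z)) e he _ (hs _) (e.map_target hz)
    rw [Mf.J] at h2
    rw [e.right_inv hz] at h1 h2 h3
    obtain ⟨h5, h6, -⟩ := mPB n (c (e.symm z) ∘ e.symm) z (fam h (c (e.symm z))) (fam h e) h1 h2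
      (hh.smooth (e.symm z)) (by
        filter_upwards [h3] with w hw
        have h8 : fam h e (e (e.symm w)) = _ := cmp _ (hc (e.symm z)) e he _ hw.2.1 hw.2.2.1
        rw [hw.2.2.2.2.2.1, hw.2.2.2.2.2.2] at h8
        exact h8)
    exact ⟨h5, h6 (clM_of (hh.closed (e.symm z)))⟩
  refine ⟨⟨⟨⟨fun e he z hz => (key e he z hz).1, cmp⟩, fun e _ z _ => (pos e z).1⟩,
    fun e he z hz => (key e he z hz).2⟩, fun e _ z _ => ?_, fun x => ?_⟩
  · show (fam h e z - 0).PosSemidef
    rw [sub_zero]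
    exact pos e z
  · refine (hH _ x (hs x)).trans ?_
    rw [h1 _ (hc x) x (hs x), Matrix.conjTranspose_one, Matrix.one_mul, Matrix.mul_one]

end Pool.Agent.Lib.ZE
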