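import Pool.Agent.Lib.ZE.Out
import Pool.Agent.Lib.GH76.Pshp

/-! Project ze, outer layer, row KL2: the two uniform integrals. -/

open scoped Classical Topology ContDiff ComplexOrder Matrix ENNReal
open Set MeasureTheory Complex Metric Filter

noncomputable section

namespace Pool.Agent.Lib.ZE

open Pool.Agent.Lib.HS32

namespace KL2

theorem pt {I : Type} [Fintype I] {N κ A : I → ℝ} {c d : ℝ} (hc : 0 ≤ c) (hN : ∀ k, 0 ≤ N k)
    (hA : ∀ k, N k ≤ A k) (hd : d ∈ Ioc (0 : ℝ) 1) :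
    ENNReal.ofReal (Real.exp (c * ∑ k, κ k * Real.log (N k + d))) ≤
      ENNReal.ofReal (Real.exp (∑ k, c * max (κ k) 0 * A k)) *
        ∏ k, ENNReal.ofReal (N k) ^ (-(c * max (-κ k) 0)) := by
  have hp : ∀ k, 0 < N k + d := fun k => add_pos_of_nonneg_of_pos (hN k) hd.1
  have h1 : c * ∑ k, κ k * Real.log (N k + d) ≤ ∑ k, c * max (κ k) 0 * A k +
      ∑ k, Real.log (N k + d) * -(c * max (-κ k) 0) := by
    rw [Finset.mul_sum, ← Finset.sum_add_distrib]
    refine Finset.sum_le_sum fun k _ => ?_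
    have a : Real.log (N k + d) ≤ A k := by
      linarith [Real.log_le_sub_one_of_pos (hp k), hA k, hd.2]
    have b := mul_le_mul_of_nonneg_left a (mul_nonneg hc (le_max_right (κ k) 0))
    have e := congrArg (c * · * Real.log (N k + d)) (max_zero_sub_max_neg_zero_eq_self (κ k))
    beta_reduce at e
    linarith
  refine (ENNReal.ofReal_le_ofReal (Real.exp_le_exp.2 h1)).trans ?_
  rw [Real.exp_add, ENNReal.ofReal_mul (Real.exp_pos _).le, Real.exp_sum _ fun k => _ * -_,
    ENNReal.ofReal_prod_of_nonneg fun k _ => (Real.exp_pos _).le]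
  refine mul_le_mul_right (Finset.prod_le_prod' fun k _ => ?_) _
  rw [← Real.rpow_def_of_pos (hp k), ← ENNReal.ofReal_rpow_of_pos (hp k), ENNReal.rpow_neg,
    ENNReal.rpow_neg]
  exact ENNReal.inv_le_inv.2 (ENNReal.rpow_le_rpow
    (ENNReal.ofReal_le_ofReal (le_add_of_nonneg_right hd.1.le)) (mul_nonneg hc (le_max_right _ _)))

theorem pt2 {I : Type} [Fintype I] {y κ α : I → ℝ} (hy : ∀ k, 0 ≤ y k) (hα : ∀ k, 0 < α k) :
    Real.exp ((1 + ∑ k, |κ k| / α k)⁻¹ * ∑ k, κ k * y k) ≤ 1 + ∑ k, Real.exp (α k * y k) := by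
  have s0 : 0 ≤ ∑ k, Real.exp (α k * y k) := Finset.sum_nonneg fun k _ => (Real.exp_pos _).le
  have t0 : 0 ≤ ∑ k, |κ k| / α k :=
    Finset.sum_nonneg fun k _ => div_nonneg (abs_nonneg _) (hα k).le
  have L0 : 0 ≤ Real.log (1 + ∑ k, Real.exp (α k * y k)) := Real.log_nonneg (by linarith)
  rw [← Real.le_log_iff_exp_le (by linarith), inv_mul_le_iff₀ (by linarith), add_mul, Finset.sum_mul]
  refine le_add_of_nonneg_of_le (by linarith) (Finset.sum_le_sum fun k _ => ?_)
  have a : α k * y k ≤ Real.log (1 + ∑ k, Real.exp (α k * y k)) := by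
    rw [Real.le_log_iff_exp_le (by linarith)]
    exact le_add_of_nonneg_of_le zero_le_one (Finset.single_le_sum
      (f := fun k => Real.exp (α k * y k)) (fun k _ => (Real.exp_pos _).le) (Finset.mem_univ k))
  calc κ k * y k ≤ |κ k| * y k := mul_le_mul_of_nonneg_right (le_abs_self _) (hy k)
    _ = |κ k| / α k * (α k * y k) := by have := (hα k).ne'; field_simp
    _ ≤ _ := mul_le_mul_of_nonneg_left a (div_nonneg (abs_nonneg _) (hα k).le)

variable {n : ℕ} {M : Mf n} [M.Cpt] {H Θ : M.Fam (Mat n)} {σ : M.X → ℝ}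

theorem one (hH : M.Met H) (h : DM.K63.Sg M σ Θ) (A : ℝ) : ∃ α K : ℝ, 0 < α ∧
    ∀ d ∈ Ioc (0 : ℝ) 1, ∫ x, Real.exp (α * (A - DX.fl σ d x)) ∂M.mu H ≤ K := by
  obtain ⟨C, C0, hC, -⟩ := (mBD n M H hH).1 Θ h.clo.toForm
  obtain ⟨α, K, α0, K0, hK⟩ := GH76.skoda M C hH
  obtain ⟨x₀, h0⟩ := h.ne
  refine ⟨α, Real.exp (α * (A - Real.log (σ x₀))) * K, α0, fun d hd => ?_⟩
  have s := h.lsm hd.1
  obtain ⟨x₁, h1⟩ := s.exists_max
  have k := hK (fun x => Real.log (σ x + d) - Real.log (σ x₁ + d)) (s.sub (Mf.sm_const _))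
    (fun e he z hz => by
      obtain ⟨a, -, b, -⟩ := (mLAP n M _ (fun _ => Real.log (σ x₁ + d)) s (Mf.sm_const _)).1
        (Real.log (σ x₁ + d)) e he z hz
      have := h.low hH C0.le hC d hd.1 e he z hz
      simp only [Pi.add_apply] at this ⊢
      rwa [b, a, sub_zero]) (fun x => sub_nonpos.2 (h1 x)) ⟨x₁, sub_self _⟩
  have e : ∀ x, Real.exp (α * (A - DX.fl σ d x)) = Real.exp (α * (A - Real.log (σ x₁ + d))) *
      Real.exp (α * -(Real.log (σ x + d) - Real.log (σ x₁ + d))) := fun x => by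
    rw [← Real.exp_add, DX.fl]; congr 1; ring
  simp only [e]
  rw [integral_const_mul]
  have m : Real.log (σ x₀) ≤ Real.log (σ x₁ + d) :=
    (Real.log_le_log ((h.nn x₀).lt_of_ne' h0) (le_add_of_nonneg_right hd.1.le)).trans (h1 x₀)
  exact mul_le_mul (Real.exp_le_exp.2 (mul_le_mul_of_nonneg_left (by linarith) α0.le)) k
    (integral_nonneg fun x => (Real.exp_pos _).le) (Real.exp_pos _).le

end KL2

theorem oKL2 : St_KL2 := by
  intro n M _ ι _ H Θ σ κ c hH h hc hI
  choose A A0 hA using fun i => (h i).sm.exists_bound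
  have hA' : ∀ i x, σ i x ≤ A i := fun i x => (le_abs_self _).trans (hA i x)
  choose α K α0 hK using fun i => KL2.one hH (h i) (A i)
  obtain ⟨-, hfin, -, -, hint, -⟩ := mMU n M H hH
  have t0 : 0 ≤ ∑ k, |κ k| / α k :=
    Finset.sum_nonneg fun k _ => div_nonneg (abs_nonneg _) (α0 k).le
  set δ := (1 + ∑ k, |κ k| / α k)⁻¹ with hδ
  set J := ∫⁻ x, ∏ i, ENNReal.ofReal (σ i x) ^ (-(c * max (-κ i) 0)) ∂M.mu H
  refine ⟨c, δ, max (ENNReal.ofReal (Real.exp (∑ k, c * max (κ k) 0 * A k)) * J).toReal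
    (Real.exp (-(δ * ∑ k, κ k * A k)) * ((M.mu H).real univ + ∑ k, K k)), hc, by positivity,
    fun d hd => ⟨le_max_of_le_left ?_, le_max_of_le_right ?_⟩⟩
  all_goals have cf : ∀ i, Continuous (DX.fl (σ i) d) := fun i => ((h i).lsm hd.1).continuous
  · rw [integral_eq_lintegral_of_nonneg_ae (ae_of_all _ fun x => (Real.exp_pos _).le)
      (Continuous.aestronglyMeasurable (by fun_prop))]
    refine ENNReal.toReal_mono (ENNReal.mul_ne_top ENNReal.ofReal_ne_top hI.ne) ?_
    rw [← lintegral_const_mul' _ _ ENNReal.ofReal_ne_top]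
    exact lintegral_mono fun x =>
      KL2.pt (zero_le_one.trans hc.le) (fun k => (h k).nn x) (fun k => hA' k x) hd
  · have ci : ∀ k, Integrable (fun x => Real.exp (α k * (A k - DX.fl (σ k) d x))) (M.mu H) :=
      fun k => hint ℝ _ (by fun_prop)
    calc _ ≤ ∫ x, Real.exp (-(δ * ∑ k, κ k * A k)) *
          (1 + ∑ k, Real.exp (α k * (A k - DX.fl (σ k) d x))) ∂M.mu H := by
          refine integral_mono (hint ℝ _ (by fun_prop)) (hint ℝ _ (by fun_prop)) fun x => ?_
          refine le_trans (le_of_eq ?_) (mul_le_mul_of_nonneg_left (KL2.pt2 (κ := κ)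
            (y := fun k => A k - DX.fl (σ k) d x) (fun k => ?_) α0) (Real.exp_pos _).le)
          · simp only [← Real.exp_add, mul_sub, Finset.sum_sub_distrib, ← hδ]
            congr 1; ring
          · linarith [Real.log_le_sub_one_of_pos ((h k).pos hd.1 x), hA' k x, hd.2,
              show DX.fl (σ k) d x = Real.log (σ k x + d) from rfl]
      _ ≤ _ := by
          rw [integral_const_mul, integral_add (integrable_const _)
            (integrable_finsetSum _ fun k _ => ci k), integral_finsetSum _ fun k _ => ci k,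
            integral_const, smul_eq_mul, mul_one]
          exact mul_le_mul_of_nonneg_left (add_le_add le_rfl
            (Finset.sum_le_sum fun k _ => hK k d hd)) (Real.exp_pos _).le

end Pool.Agent.Lib.ZE
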