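import Pool.Agent.Lib.ZE.Out
import Pool.Agent.Lib.ZK47.B_REG
import Pool.Agent.Lib.NV5.X_KL

/-! Project ze, outer layer, row MNC: the theorem on the manifold layer. -/

open scoped Classical Topology ContDiff ComplexOrder Matrix ENNReal
open Set MeasureTheory Complex Metric Filter

noncomputable section

namespace Pool.Agent.Lib.ZE

open Pool.Agent.Lib.HS32

theorem oMNC (hZE : St_ZE) (hSGK : St_SGK) (hKL2 : St_KL2) (hSGC : St_SGC) : St_MNC := by
  intro n M _ H β I _ L f φ b c hH hβ β0 ⟨e₀, he₀, z₀, hz₀, hp⟩ hf hφ hne hc hl hex hnef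
  rcases Nat.eq_zero_or_pos n with rfl | hn
  · exact ⟨fun _ _ => 0, fun _ _ => Mf.sm_const 0,
      fun _ _ => hH.congr fun _ _ _ _ => Subsingleton.elim _ _, fun _ _ _ => le_rfl,
      fun m _ => ⟨1, ∫ _, 1 ∂M.mu H, one_pos, fun _ _ _ => by simp⟩⟩
  have hB : ∀ s : Finset I, M.Clo fun e z => ∑ k ∈ s, b k • M.hw (φ k) e z := fun s => by
    induction s using Finset.induction_on with
    | empty => exact Mf.clo_zero.congr fun _ _ _ _ => by simp
    | insert a s ha ih =>
      exact (((hφ a).clo.smul (b a)).add ih).congr fun _ _ _ _ => by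
        simp only [Finset.sum_insert ha, Pi.add_apply, Pi.smul_apply]
  have sg := fun k => hSGC n M (L k) (f k) (φ k) (hf k) (hφ k) (hne k)
  have hg := ZK47.REG.glob (β := fun k => c * max (b k) 0) hH.toMet (fun k => (hf k).toSecC) hφ hl
  obtain ⟨a, h1, -, h3⟩ := hZE n M I
    { H := H
      T := (fun e z => ∑ k, b k • M.hw (φ k) e z) - M.ric H
      β := β
      Θ := fun k => M.hw (φ k)
      σ := fun k => M.nrC (φ k) (f k)
      κ := fun k => -b k
      pos := hn
      kae := hH
      cT := (hB _).sub ((mHES n M).2.2.2.2.2.2.2.2.1 H hH.toMet)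
      cβ := hβ
      nβ := β0
      vol := DM.KL.vol_pos hH.toMet hβ.toForm β0 he₀ hz₀ hp
      sg := fun k => hSGK n M _ _ (sg k).1
      adj := fun e _ z _ => by
        simp only [Pi.sub_apply, neg_smul, Finset.sum_neg_distrib]
        abel
      ort := fun k hk => (sg k).2 H β hH hβ β0 (hex k (neg_pos.1 hk))
      nef := hnef
      klt := hKL2 n M I H _ _ _ c hH.toMet (fun k => (sg k).1) hc (by simpa only [neg_neg] using hg) }
  refine ⟨a, fun e he => (h1 e he).sm, fun e he => (h1 e he).kae, fun e he => (h1 e he).np,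
    fun m hm => ?_⟩
  obtain ⟨K, hK⟩ := h3 m hm
  exact ⟨1, K, one_pos, fun ε h _ => hK ε h⟩

end Pool.Agent.Lib.ZE
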