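import Pool.Agent.Lib.ZE.Out
import Pool.Agent.Lib.KP.B_NHS

/-! Project ze, outer layer: the norm of a holomorphic section. -/

open scoped Classical Topology ContDiff ComplexOrder Matrix
open Set MeasureTheory Complex Filter

noncomputable section

namespace Pool.Agent.Lib.ZE

open Pool.Agent.Lib.SV (E)
open Pool.Agent.Lib.HS32 Pool.Agent.Lib.DM

namespace SGC

theorem adj0 {n : ℕ} {B : Mat n} {y ξ : E n} (a : E n) (y0 : y ≠ 0) (h : B *ᵥ y = 0)
    (h' : ξ ⬝ᵥ y = 0) : (B.adjugate * Matrix.vecMulVec a ξ).trace = 0 := by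
  have e : ξ ᵥ* B.adjugate = 0 := by
    rw [← Matrix.mulVec_transpose, Matrix.adjugate_transpose, ← Matrix.cramer_eq_adjugate_mulVec]
    funext j
    rw [Matrix.cramer_transpose_apply]
    refine Matrix.exists_mulVec_eq_zero_iff.1 ⟨y, y0, funext fun i => ?_⟩
    by_cases c : i = j
    · subst c
      simpa [Matrix.mulVec] using h'
    · simpa [Matrix.mulVec, Matrix.updateRow_ne c] using congrFun h i
  rw [Matrix.trace_mul_comm, Matrix.vecMulVec_mul, e]
  simp

theorem fd {n : ℕ} (T : E n →L[ℂ] ℂ) (y : E n) : (fun j => T (Pi.single j 1)) ⬝ᵥ y = T y := by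
  conv_rhs => rw [← Finset.univ_sum_single y, map_sum]
  refine Finset.sum_congr rfl fun j _ => ?_
  rw [mul_comm, ← smul_eq_mul, ← map_smul, ← Pi.single_smul, smul_eq_mul, mul_one]

end SGC

open SGC in
theorem oSGC : St_SGC := by
  intro n M _ L f φ hf hφ ne
  have N := KP.st_NHS n M L f φ hf hφ
  have P : M.All fun e z => K63.pk M (M.nrC φ f) (M.hw φ) e z =
      Real.exp (-φ e z) • Matrix.vecMulVec (star (M.cv φ f e z)) (M.cv φ f e z) :=
    fun e he z hz => eq_sub_iff_add_eq.1 (N e he z hz).1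
  have S : K63.Sg M (M.nrC φ f) (M.hw φ) :=
    ⟨hφ.nr_sm hf.toSecC, Mf.nrC_nonneg φ f, ne, hφ.clo, K63.le0.2 fun e he z hz => by
      beta_reduce
      rw [P e he z hz]
      exact Mf.psd_rsmul (Matrix.posSemidef_vecMulVec_star_self _) (Real.exp_pos _).le,
      fun e he z hz => by
        beta_reduce
        rw [P e he z hz, (N e he z hz).2.1, mul_smul]⟩
  refine ⟨S, fun H β hH hβ β0 hd η η0 => K63.exc hH hβ β0 S (fun x hx => ?_) η0⟩
  obtain ⟨e, he, hs, h⟩ := hd x
  have f0 : f e (e x) = 0 := by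
    rw [(hφ.nr_rep hf.toSecC).at he hs] at hx
    exact normSq_eq_zero.1 ((mul_eq_zero.1 hx).resolve_right (Real.exp_pos _).ne')
  obtain ⟨d0, y, y0, d1, d2⟩ := h f0
  have c : M.cv φ f e (e x) = fun j => fderiv ℂ (f e) (e x) (Pi.single j 1) := funext fun j => by
    rw [Mf.cv, f0, zero_mul, sub_zero, (mHOL n _ _).2.1 (hf.hol.at he hs) j]
  have c0 : M.cv φ f e (e x) ≠ 0 := fun q => d0 (ContinuousLinearMap.ext fun v => by
    rw [← fd, ← c, q, zero_dotProduct]; rfl)
  refine ⟨e, he, hs, ?_, ?_⟩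
  · rw [P.at he hs]
    exact smul_ne_zero (Real.exp_pos _).ne' (Matrix.vecMulVec_ne_zero (star_ne_zero.2 c0) c0)
  · rw [P.at he hs, Matrix.mul_smul, Matrix.trace_smul,
      adj0 _ y0 d2 (by rw [c, fd, d1]), smul_zero]

end Pool.Agent.Lib.ZE
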