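import Pool.Agent.Lib.ZE.Out

/-! Project ze, row SGK: the zero set is negligible and the logarithm is integrable. -/

open scoped Classical Topology ContDiff ComplexOrder Matrix ENNReal
open Set MeasureTheory Complex Filter

noncomputable section

namespace Pool.Agent.Lib.ZE

open Pool.Agent.Lib.HS32

namespace SGK

variable {n : ℕ} {M : Mf n} [M.Cpt] {Θ G : M.Fam (Mat n)} {σ : M.X → ℝ}

theorem nul (h : DM.K63.Sg M σ Θ) (hG : M.Met G) : M.mu G {x | σ x = 0} = 0 := by
  have fin := (mMU n M G hG).2.1
  have ms : MeasurableSet {x | σ x = 0} :=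
    (isClosed_eq h.sm.continuous continuous_const).measurableSet
  rw [← measureReal_eq_zero_iff]
  refine le_antisymm (le_of_forall_pos_le_add fun η η0 => ?_) measureReal_nonneg
  obtain ⟨δ, h1, δ0⟩ := ((h.lam0 hG (Mf.sm_const 1) η0).and self_mem_nhdsWithin).exists
  rw [zero_add, ← integral_indicator_one ms]
  refine le_trans (integral_mono ((integrable_const (1 : ℝ)).indicator ms)
    (DM.K63.int hG ((h.lam δ0).mul (Mf.sm_const 1)).continuous) fun x => ?_) h1
  by_cases hx : σ x = 0
  · have : δ ≠ 0 := ne_of_gt δ0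
    simp [hx, this]
  · simpa [hx] using (h.lam01 δ0 x).1

theorem lint (h : DM.K63.Sg M σ Θ) (hG : M.Met G) :
    Integrable (fun x => Real.log (σ x)) (M.mu G) := by
  have fin := (mMU n M G hG).2.1
  obtain ⟨C, C0, hC, -⟩ := (mBD n M G hG).1 Θ h.clo.toForm
  obtain ⟨S, S0, hS⟩ := h.sm.exists_bound
  have σ1 : ∀ x, 0 ≤ σ x ∧ σ x ≤ S := fun x => ⟨h.nn x, (le_abs_self _).trans (hS x)⟩
  obtain ⟨A, A0, hA⟩ := DM.K63.psi_bd hG h.sm σ1 h.ne (h.low hG C0.le hC) (Mf.sm_const 1)
  have m : AEStronglyMeasurable (fun x => S - Real.log (σ x)) (M.mu G) :=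
    (measurable_const.sub h.sm.continuous.measurable.log).aestronglyMeasurable
  have k : eLpNorm (fun x => S - Real.log (σ x)) 1 (M.mu G) ≤ ENNReal.ofReal A := by
    refine Lp.eLpNorm_le_of_ae_tendsto (u := 𝓝[>] (0 : ℝ))
      (f := fun δ x => S - Real.log (σ x + δ)) ?_ (fun δ => (measurable_const.sub
        (h.sm.continuous.measurable.add_const δ).log).aestronglyMeasurable) ?_
    · filter_upwards [Ioc_mem_nhdsGT zero_lt_one] with δ b
      have p : ∀ x, 0 ≤ S - Real.log (σ x + δ) := fun x => by
        linarith [Real.log_le_sub_one_of_pos (h.pos b.1 x), (σ1 x).2, b.2]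
      have i := DM.K63.int hG ((Mf.sm_const S).sub (h.lsm b.1)).continuous
      rw [eLpNorm_one_eq_lintegral_enorm, ← ofReal_integral_norm_eq_lintegral_enorm i]
      refine ENNReal.ofReal_le_ofReal (le_of_eq_of_le ?_ (hA δ b))
      exact integral_congr_ae (ae_of_all _ fun x => by
        simp only [mul_one, Real.norm_of_nonneg (p x)])
    · filter_upwards [measure_eq_zero_iff_ae_notMem.1 (nul h hG)] with x hx
      have c : ContinuousAt (fun δ : ℝ => S - Real.log (σ x + δ)) 0 :=
        continuousAt_const.sub ((continuousAt_const.add continuousAt_id).log (by simpa using hx))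
      simpa using c.tendsto.mono_left nhdsWithin_le_nhds
  have i : Integrable (fun x => S - Real.log (σ x)) (M.mu G) :=
    memLp_one_iff_integrable.1 ⟨m, k.trans_lt ENNReal.ofReal_lt_top⟩
  exact ((integrable_const S).sub i).congr (ae_of_all _ fun x => sub_sub_cancel _ _)

end SGK

theorem oSGK : St_SGK := fun n M _ Θ σ h =>
  { sm := h.sm
    nn := h.nn
    clo := h.clo
    eq := fun e he z hz => by
      beta_reduce
      rw [← h.eqn e he z hz, DM.K63.pk, smul_add, smul_smul, sq]
    nul := fun _ hG => SGK.nul h hG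
    int := fun _ hG => SGK.lint h hG }

end Pool.Agent.Lib.ZE
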