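import Pool.Agent.Lib.ZK47.SDefs

/-! Definitions used in the statement: semi-positive closed forms, divisors that are exceptional
for such a form, classes that are nef relative to such a form. -/

open scoped ContDiff Matrix ComplexOrder

noncomputable section

namespace Pool.Agent.Lib.ZE

open Pool.Agent.Lib.SV Pool.Agent.Lib.HS Pool.Agent.Lib.KP Pool.Agent.Lib.HW Pool.Agent.Lib.ZK47

variable (n : ℕ) {X ι I : Type} [TopologicalSpace X] [ChartedSpace (E n) X] [Fintype I]

/-- `w` is a smooth closed semi-positive form that is positive at some point. -/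
structure BigForm (w : X → Mat n) : Prop where
  nonneg : ∀ x, (w x).PosSemidef
  smooth : ∀ x i j, ContDiffAt ℝ ∞ (fun z => inChart w x z i j) (chartAt (E n) x x)
  closed : ∀ x y y', del y (inChart w x) (chartAt (E n) x x) *ᵥ y' =
    del y' (inChart w x) (chartAt (E n) x x) *ᵥ y
  big : ∃ x, (w x).PosDef

/-- The functions `g k i` on `U i` are local equations of smooth hypersurfaces with transition
functions `v k i j`, the coefficients `a k` are positive, and at every point of each hypersurface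
the form `w` kills a non-zero tangent vector of the hypersurface. -/
structure Exc (w : X → Mat n) (U : ι → Set X) (g : I → ι → X → ℂ) (v : I → ι → ι → X → ℂ)
    (a : I → ℝ) : Prop where
  pos : ∀ k, 0 < a k
  hol : ∀ k i, ∀ x ∈ U i, HolAt n 0 (g k i) x
  unit : ∀ k i j, ∀ x ∈ U i ∩ U j,
    HolAt n 0 (v k i j) x ∧ v k i j x ≠ 0 ∧ g k i x = v k i j x * g k j x
  deg : ∀ k i, ∀ x ∈ U i, g k i x = 0 →
    fderiv ℂ (g k i ∘ (chartAt (E n) x).symm) (chartAt (E n) x x) ≠ 0 ∧ ∃ y ≠ 0,
      fderiv ℂ (g k i ∘ (chartAt (E n) x).symm) (chartAt (E n) x x) y = 0 ∧ w x *ᵥ y = 0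

/-- For every `ε > 0` the class `K + ∑ b k D k` has a smooth metric `exp (-φ) / det G` whose
curvature form lies between `-ε w` and a multiple of `w`. -/
def NefW (G w : X → Mat n) (U : ι → Set X) (u : I → ι → ι → X → ℂ) (b : I → ℝ) : Prop :=
  ∀ ε : ℝ, 0 < ε → ∃ (φ : ι → X → ℝ) (C : ℝ), Glue U u b (fun i x => φ i x) ∧ ∀ i, ∀ x ∈ U i,
    ContDiffAt ℝ ∞ (φ i ∘ (chartAt (E n) x).symm) (chartAt (E n) x x) ∧
    ∀ y, levi (fun z => φ i ((chartAt (E n) x).symm z) + Real.log (inChart G x z).det.re)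
      (chartAt (E n) x x) y ∈
        Set.Icc (-(ε * (star y ⬝ᵥ w x *ᵥ y).re)) (C * (star y ⬝ᵥ w x *ᵥ y).re)

end Pool.Agent.Lib.ZE
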