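import Pool.Agent.Lib.ZE.Blue
import Pool.Agent.Lib.HS32.MAll
import Pool.Agent.Lib.HS21.All

/-! Project ze: the equation of Aubin for a class. -/

noncomputable section

namespace Pool.Agent.Lib.ZE

open Pool.Agent.Lib.HS32

theorem zAUB : St_AUB := by
  intro n M _ H α φ F hn hH hφ hG hF
  have h2 := (mINV n M H hH).2.2.2.2.2.2.2 _ hG.toMet
  have hR := (mHES n M).2.2.2.2.2.2.2.2.2
  obtain ⟨v, hv, hk, hd⟩ := HS21.st_AUBIN n M _
    (fun x => φ x + F x - Real.log (M.dq H (α + M.hs φ) x)) 1 hn hG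
    ((hφ.add hF).sub (hR _ H hG.toMet hH).1) one_pos
  have hc : M.All fun e z => (α + M.hs fun x => φ x + v x) e z = (α + M.hs φ + M.hs v) e z :=
    fun e he z hz => by
      simp only [Pi.add_apply]
      rw [((mLAP n M φ v hφ hv).1 0 e he z hz).2.1, add_assoc]
  refine ⟨fun x => φ x + v x, hφ.add hv, hk.congr hc, fun x => ?_⟩
  rw [Mf.dq_congr (fun _ _ _ _ => rfl) hc, h2.2.2.1 _ hk.toForm x, hd x, ← Real.exp_log (h2.1 x),
    ← Real.exp_add, Real.log_exp]
  congr 1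
  ring

end Pool.Agent.Lib.ZE
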