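import Pool.Agent.Lib.ZE.Blue

/-! Project ze, row BLK: block matrices. -/

open scoped Classical Topology ContDiff ComplexOrder Matrix ENNReal
open Set MeasureTheory Filter

set_option linter.unusedVariables false

noncomputable section

namespace Pool.Agent.Lib.ZE

open Pool.Agent.Lib.SV (E)
open Pool.Agent.Lib.HS32

namespace BLK

variable {n : ℕ} (c : ℝ) (A : Mat n)

theorem b00 : blk c A 0 0 = c := rfl

theorem b0s (j : Fin n) : blk c A 0 j.succ = 0 := rfl

theorem bs0 (i : Fin n) : blk c A i.succ 0 = 0 := rfl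

theorem bss (i j : Fin n) : blk c A i.succ j.succ = A i j := rfl

theorem ext {S T : Mat (n + 1)} (h : S 0 0 = T 0 0) (h1 : ∀ j : Fin n, S 0 j.succ = T 0 j.succ)
    (h2 : ∀ i : Fin n, S i.succ 0 = T i.succ 0)
    (h3 : ∀ i j : Fin n, S i.succ j.succ = T i.succ j.succ) : S = T :=
  Matrix.ext fun i j => Fin.cases (Fin.cases h h1 j) (fun i => Fin.cases (h2 i) (h3 i) j) i

theorem det : (blk c A).det = c * A.det := by
  rw [Matrix.det_succ_row_zero, Fin.sum_univ_succ]
  simp only [b00, b0s, mul_zero, zero_mul, Finset.sum_const_zero, add_zero, Fin.val_zero, pow_zero,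
    one_mul]
  rfl

theorem mul (c' : ℝ) (B : Mat n) : blk c A * blk c' B = blk (c * c') (A * B) := by
  refine ext ?_ (fun j => ?_) (fun i => ?_) fun i j => ?_ <;>
    simp [Matrix.mul_apply, Fin.sum_univ_succ, b00, b0s, bs0, bss]

theorem one : blk 1 (1 : Mat n) = 1 := by
  refine ext ?_ (fun j => ?_) (fun i => ?_) fun i j => ?_ <;>
    simp [b00, b0s, bs0, bss, Matrix.one_apply, (Fin.succ_ne_zero _).symm]

theorem ct : (blk c A)ᴴ = blk c Aᴴ := by
  refine ext ?_ (fun j => ?_) (fun i => ?_) fun i j => ?_ <;> simp [b00, b0s, bs0, bss]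

theorem adj (i j : Fin n) : (blk c A).adjugate i.succ j.succ = c * A.adjugate i j := by
  rw [Matrix.adjugate_apply, Matrix.adjugate_apply, ← det]
  refine congrArg _ (ext ?_ (fun b => ?_) (fun a => ?_) fun a b => ?_)
  · rw [Matrix.updateRow_ne (Fin.succ_ne_zero _).symm]
    rfl
  · rw [Matrix.updateRow_ne (Fin.succ_ne_zero _).symm]
    rfl
  · rw [Matrix.updateRow_apply]
    simp [bs0, (Fin.succ_ne_zero _).symm]
  · simp [Matrix.updateRow_apply, bss, Pi.single_apply]

theorem form (x : E (n + 1)) : star x ⬝ᵥ blk c A *ᵥ x =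
    ((c * Complex.normSq (x 0) : ℝ) : ℂ) + star (tl x) ⬝ᵥ A *ᵥ tl x := by
  simp only [dotProduct, Matrix.mulVec, Fin.sum_univ_succ, b00, b0s, bs0, bss, zero_mul,
    Finset.sum_const_zero, add_zero, zero_add, Pi.star_apply, tl, Complex.ofReal_mul,
    Complex.normSq_eq_conj_mul_self, RCLike.star_def]
  ring

theorem herm (h : A.IsHermitian) : (blk c A).IsHermitian := by
  rw [Matrix.IsHermitian, ct, h.eq]

theorem psd (hc : 0 ≤ c) (h : A.PosSemidef) : (blk c A).PosSemidef :=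
  Matrix.PosSemidef.of_dotProduct_mulVec_nonneg (herm c A h.1) fun x => by
    rw [form]
    exact add_nonneg (Complex.zero_le_real.2 (mul_nonneg hc (Complex.normSq_nonneg _)))
      (h.dotProduct_mulVec_nonneg _)

theorem pd (hc : 0 < c) (h : A.PosDef) : (blk c A).PosDef :=
  (psd c A hc.le h.posSemidef).posDef_iff_isUnit.2 <| by
    rw [Matrix.isUnit_iff_isUnit_det, det, isUnit_iff_ne_zero]
    exact mul_ne_zero (Complex.ofReal_ne_zero.2 hc.ne') h.det_pos.ne'

theorem schur {G : Mat (n + 1)} (h : G.PosDef) :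
    0 < (G⁻¹ 0 0).re ∧ 1 / (G⁻¹ 0 0).re ≤ (G 0 0).re := by
  have p : 0 < G⁻¹ 0 0 := h.inv.diag_pos
  obtain ⟨p1, p2⟩ := Complex.pos_iff.1 p
  refine ⟨p1, ?_⟩
  have u : IsUnit G.det := h.det_pos.ne'.isUnit
  have k := (h.posSemidef.conjTranspose_mul_mul_same
    (1 - ((1 / (G⁻¹ 0 0).re : ℝ) : ℂ) • G⁻¹)).diag_nonneg (i := 0)
  simp only [Matrix.conjTranspose_sub, Matrix.conjTranspose_one, Matrix.conjTranspose_smul,
    h.inv.1.eq, Matrix.sub_mul, Matrix.mul_sub, Matrix.one_mul, Matrix.mul_one, Matrix.smul_mul,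
    Matrix.mul_smul, Matrix.nonsing_inv_mul _ u, Matrix.mul_nonsing_inv _ u, Matrix.sub_apply,
    Matrix.smul_apply, Matrix.one_apply_eq, smul_eq_mul, RCLike.star_def, Complex.conj_ofReal] at k
  have k1 := (Complex.le_def.1 k).1
  simp only [Complex.zero_re, Complex.sub_re, Complex.re_ofReal_mul, Complex.one_re] at k1
  rw [one_div_mul_cancel p1.ne'] at k1
  linarith

end BLK

open BLK in
theorem zBLK : St_BLK := by
  refine fun n => ⟨fun c c' s A B => ⟨?_, ?_, ?_, ?_, ?_, one, mul _ _ _ _, ct _ _, det _ _, ?_, rfl,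
    fun hc hA => ?_, ?_, herm _ _, psd _ _, pd _ _⟩, ?_, fun G h => ⟨?_, schur h⟩⟩
  iterate 5
    refine ext ?_ (fun j => ?_) (fun i => ?_) fun i j => ?_ <;> simp [b00, b0s, bs0, bss]
  · simp [Matrix.trace, Fin.sum_univ_succ, b00, bss]
  · refine Matrix.inv_eq_left_inv ?_
    rw [mul, inv_mul_cancel₀ hc, Matrix.nonsing_inv_mul _ hA.isUnit, one]
  · simp [Matrix.trace, Matrix.mul_apply, Fin.sum_univ_succ, b00, b0s, bs0, bss, adj,
      Finset.mul_sum, mul_assoc]
  · refine ext ?_ (fun j => ?_) (fun i => ?_) fun i j => ?_ <;>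
      simp [b00, b0s, bs0, bss, Matrix.vecMulVec_apply]
  · simp [Matrix.trace, Matrix.mul_apply, Fin.sum_univ_succ, b00, b0s, bs0, bss]

end Pool.Agent.Lib.ZE
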