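import Pool.Agent.Lib.ZE.Blue
import Pool.Agent.Lib.ZK49.Tay
import Pool.Agent.Lib.ZK.B_PSI

/-! Project ze: comparison with the solutions at a fixed time. -/

open scoped Classical Topology ContDiff ComplexOrder Matrix ENNReal
open Set MeasureTheory Filter

set_option linter.unusedVariables false

noncomputable section

namespace Pool.Agent.Lib.ZE

open Pool.Agent.Lib.SV (E)
open Pool.Agent.Lib.HS32
open Pool.Agent.Lib.ZK (fm Env ps Sol Dat)

namespace SAN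

theorem rho {ε : ℝ} (hε : 0 < ε) : ∃ ρ ρ₁ ρ₂ : ℝ → ℝ, ContDiff ℝ ∞ ρ ∧
    (∀ x, HasDerivAt ρ (ρ₁ x) x) ∧ (∀ x, HasDerivAt ρ₁ (ρ₂ x) x) ∧
    ∀ x, |ρ₁ x| ≤ 1 ∧ |ρ₂ x| ≤ 1 / ε ∧ |x| ≤ ρ x ∧ ρ x ≤ |x| + ε := by
  have h0 : ∀ x : ℝ, 0 < x ^ 2 + ε ^ 2 := fun x => by positivity
  have hs : ∀ x : ℝ, 0 < √(x ^ 2 + ε ^ 2) := fun x => Real.sqrt_pos.2 (h0 x)
  have d : ∀ x : ℝ, HasDerivAt (fun x : ℝ => √(x ^ 2 + ε ^ 2)) (x / √(x ^ 2 + ε ^ 2)) x := fun x =>
    (((hasDerivAt_pow 2 x).add_const (ε ^ 2)).sqrt (h0 x).ne').congr_deriv (by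
      have := (hs x).ne'
      field_simp
      simp)
  refine ⟨fun x => √(x ^ 2 + ε ^ 2), fun x => x / √(x ^ 2 + ε ^ 2),
    fun x => (1 * √(x ^ 2 + ε ^ 2) - x * (x / √(x ^ 2 + ε ^ 2))) / √(x ^ 2 + ε ^ 2) ^ 2,
    ((contDiff_id.pow 2).add contDiff_const).sqrt fun x => (h0 x).ne', d,
    fun x => (hasDerivAt_id x).div (d x) (hs x).ne', fun x => ?_⟩
  have s2 := Real.sq_sqrt (h0 x).le
  have s0 := hs x
  have a1 : |x| ≤ √(x ^ 2 + ε ^ 2) := Real.abs_le_sqrt (by nlinarith)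
  have a2 : ε ≤ √(x ^ 2 + ε ^ 2) := Real.le_sqrt_of_sq_le (by nlinarith)
  have a3 : √(x ^ 2 + ε ^ 2) ≤ |x| + ε := Real.sqrt_le_iff.2 ⟨by positivity, by
    nlinarith [sq_abs x, abs_nonneg x]⟩
  beta_reduce
  generalize √(x ^ 2 + ε ^ 2) = r at s2 s0 a1 a2 a3
  refine ⟨by rw [abs_div, abs_of_pos s0]; exact (div_le_one s0).2 a1, ?_, a1, a3⟩
  have e : (1 * r - x * (x / r)) / r ^ 2 = ε ^ 2 / r ^ 3 := by
    field_simp
    linarith
  rw [e, abs_of_nonneg (by positivity), div_le_div_iff₀ (by positivity) hε]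
  have := pow_le_pow_left₀ hε.le a2 3
  linarith

theorem bar {ε : ℝ} (hε : 0 < ε) {R : ℝ} (hR : 0 ≤ R) (t : ℝ) : ∃ g : ℝ → ℝ, ContDiff ℝ ∞ g ∧
    (∀ s, |R * s - t| ≤ g s ∧ g s ≤ |R * s - t| + ε) ∧ ∀ c s : ℝ,
      |deriv (deriv fun s => c * g (Real.sin s)) s| ≤ |c| * (R ^ 2 / ε + R) := by
  obtain ⟨ρ, ρ₁, ρ₂, h0, h1, h2, h3⟩ := rho hε
  refine ⟨fun s => ρ (R * s - t), h0.comp ((contDiff_const.mul contDiff_id).sub contDiff_const),
    fun s => (h3 _).2.2, fun c s => ?_⟩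
  have l : ∀ s, HasDerivAt (fun s => R * Real.sin s - t) (R * Real.cos s) s := fun s =>
    ((Real.hasDerivAt_sin s).const_mul R).sub_const t
  have e : (deriv fun s => c * ρ (R * Real.sin s - t)) =
      fun s => c * (ρ₁ (R * Real.sin s - t) * (R * Real.cos s)) :=
    funext fun s => (((h1 _).comp s (l s)).const_mul c).deriv
  have e2 : deriv (fun s => c * (ρ₁ (R * Real.sin s - t) * (R * Real.cos s))) s =
      c * (ρ₂ (R * Real.sin s - t) * (R * Real.cos s) * (R * Real.cos s) +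
        ρ₁ (R * Real.sin s - t) * (R * -Real.sin s)) :=
    ((((h2 _).comp s (l s)).mul ((Real.hasDerivAt_cos s).const_mul R)).const_mul c).deriv
  rw [e, e2, abs_mul]
  refine mul_le_mul_of_nonneg_left ((abs_add_le _ _).trans (add_le_add ?_ ?_)) (abs_nonneg c)
  · have a : |R * Real.cos s| ≤ R := by
      rw [abs_mul, abs_of_nonneg hR]
      exact mul_le_of_le_one_right hR (Real.abs_cos_le_one s)
    rw [abs_mul, abs_mul]
    calc _ ≤ 1 / ε * R * R := by gcongr; exact (h3 _).2.1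
      _ = _ := by ring
  · have a : |R * -Real.sin s| ≤ R := by
      rw [abs_mul, abs_of_nonneg hR, abs_neg]
      exact mul_le_of_le_one_right hR (Real.abs_sin_le_one s)
    rw [abs_mul]
    calc _ ≤ 1 * R := by gcongr; exact (h3 _).1
      _ = _ := one_mul R

theorem key (hBLK : St_BLK) (hPKT : St_PKT) (hUPK : St_UPK) (hUPS : St_UPS) {n : ℕ} {M : Mf n}
    [M.Cpt] (P : Pd M) {H α : M.Fam (Mat n)} {w : M.X → ℝ} {g : ℝ → ℝ} {N K : ℝ} (hH : M.Met H)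
    (hα : M.Clo α) (hw : M.Sm w) (hm : M.Met (α + M.hs w)) (hg : ContDiff ℝ ∞ g)
    (hK : ∀ s, |deriv (deriv fun s => g (Real.sin s)) s| ≤ 4 * K) (hN : K < N) :
    P.Z.Sm (fun y => P.pb w y + g (P.sn y)) ∧
    P.Z.Met (P.up N α + P.Z.hs fun y => P.pb w y + g (P.sn y)) ∧ ∀ y, ∃ c, |c - N| ≤ K ∧
      P.Z.dq (P.up 1 H) (P.up N α + P.Z.hs fun y => P.pb w y + g (P.sn y)) y =
        c * M.dq H (α + M.hs w) (P.pr y) := by
  obtain ⟨k1, -, -, -, -, k6, k7, -⟩ := hPKT n M P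
  obtain ⟨u1, u2, -, u4, -, -, u7, -⟩ := hUPK n M P
  have s1 := k6 w hw
  obtain ⟨s2, s3⟩ := k7 g hg
  have s := s1.add s2
  have hf : P.Z.Form (P.up N α + P.Z.hs fun y => P.pb w y + g (P.sn y)) :=
    (u2 N α hα.toForm).add ((mHES _ P.Z).1 _ s).toForm
  have loc : ∀ e ∈ M.C, ∀ τ, ∀ z ∈ (P.pc e τ).target,
      (P.up N α + P.Z.hs fun y => P.pb w y + g (P.sn y)) (P.pc e τ) z =
        blk (N + deriv (deriv fun s => g (Real.sin s)) (z 0).re / 4) ((α + M.hs w) e (tl z)) := by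
    intro e he τ z hz
    have b := (hBLK n).1
    rw [Pi.add_apply, Pi.add_apply, ((mLAP _ P.Z _ _ s1 s2).1 0 _ (P.mem e he τ) z hz).2.1,
      (u7 w w hw hw _ (P.mem e he τ) z hz).1, s3 e he τ z hz, (u1 N α hα.toTen).2 e he τ z hz,
      (u1 0 _ ((mHES n M).1 w hw).toTen).2 e he τ z hz, ← (b _ _ 0 _ _).1, ← (b _ _ 0 _ _).1,
      zero_add, add_zero, Pi.add_apply, Pi.add_apply]
  refine ⟨s, ⟨hf, ((mSUB _ P.Z P.S k1).1 _ hf.toTen).2.1 ?_⟩, fun y => ?_⟩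
  · rintro _ ⟨e, he, τ, rfl⟩ z hz
    rw [loc e he τ z hz]
    refine ((hBLK n).1 _ 0 0 _ 0).2.2.2.2.2.2.2.2.2.2.2.2.2.2.2 ?_
      (hm.pos e he _ ((P.tgt e he τ z).1 hz).2)
    linarith [(abs_le.1 (hK (z 0).re)).1]
  · obtain ⟨_, ⟨e, he, τ, rfl⟩, hy⟩ := k1.2 y
    have hz := (P.pc e τ).map_source hy
    set c := N + deriv (deriv fun s => g (Real.sin s)) (P.pc e τ y 0).re / 4 with hc
    have i := (mINV _ P.Z _ (u4 1 H one_pos hH)).1
    refine ⟨c, ?_, ?_⟩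
    · have := abs_le.1 (hK (P.pc e τ y 0).re)
      rw [hc, abs_le]
      constructor <;> linarith [this.1, this.2]
    · rw [← ((hUPS n M P H hH).2 c _ _ hm.toTen hm.toTen y).1,
        (i _ hf.toTen).2.2.1.at (P.mem e he τ) hy,
        (i _ (u1 c _ hm.toTen).1).2.2.1.at (P.mem e he τ) hy, loc e he τ _ hz,
        (u1 c _ hm.toTen).2 e he τ _ hz]

end SAN

open SAN in
theorem zSAN (hBLK : St_BLK) (hPKT : St_PKT) (hUPK : St_UPK) (hUPS : St_UPS) : St_SAN := by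
  intro p R δ hp hR hδ
  have hε : 0 < δ / (2 * (p + 1)) := by positivity
  set ε := δ / (2 * (p + 1)) with he
  have pe : p * ε ≤ δ / 2 := by
    rw [he, mul_div_assoc', div_le_div_iff₀ (by positivity) two_pos]
    nlinarith
  set K := p * (R ^ 2 / ε + R) / 4 with hK
  have K0 : 0 ≤ K := by positivity
  have q0 : 0 ≤ p * R / 4 := by positivity
  refine ⟨K + 1 + 2 * (K + p * R / 4) / δ, by positivity, ?_⟩
  intro N hN n M _ P H α V t u a χ w U hH hα hu ha hw hU y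
  have n1 : 2 * (K + p * R / 4) ≤ (N - K - 1) * δ := (div_le_iff₀ hδ).1 (by linarith)
  have n0 : 0 ≤ 2 * (K + p * R / 4) / δ := by positivity
  have nK : 0 < N - K := by linarith
  have N0 : 0 < N := by linarith
  obtain ⟨g, g0, g1, g2⟩ := bar hε hR t
  have hZ := (hUPK n M P).2.2.2.1 1 H one_pos hH
  have lip : ∀ y, |P.pz p R u a y - ps M p u a t (P.pr y)| ≤ p * g (P.sn y) := fun y =>
    ((ZK.st_PSI n M p t u a hp hu ha).2.2.2.2.2.2.1 _ _).trans
      (mul_le_mul_of_nonneg_left (g1 _).1 hp)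
  have gy := mul_le_mul_of_nonneg_left (g1 (P.sn y)).2 hp
  have V0 := hw.vp
  have lg : ∀ (c x : ℝ), 0 < c → Real.log (c * (V * Real.exp x)) = Real.log c + Real.log V + x :=
    fun c x hc => by
      rw [← mul_assoc, Real.log_mul (by positivity) (Real.exp_pos x).ne', Real.log_exp,
        Real.log_mul hc.ne' V0.ne']
  have lq : ∀ c c' : ℝ, N - K ≤ c → N - K ≤ c' → c' - c ≤ K + p * R / 4 →
      Real.log c' - Real.log c ≤ δ / 2 := fun c c' h h' h'' => by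
    have c0 : 0 < c := by linarith
    rw [← Real.log_div (by linarith) c0.ne']
    refine (Real.log_le_sub_one_of_pos (div_pos (by linarith) c0)).trans ?_
    rw [div_sub_one c0.ne', div_le_iff₀ c0]
    nlinarith
  rw [abs_le]
  constructor
  · obtain ⟨s, m, d⟩ := key hBLK hPKT hUPK hUPS P (g := fun s => -p * g s) (N := N + p * R / 4)
      (K := K) hH hα hw.sm hw.kae.toMet (contDiff_const.mul g0)
      (fun s => (g2 (-p) s).trans_eq (by rw [abs_neg, abs_of_nonneg hp, hK]; ring)) (by linarith)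
    obtain ⟨y₀, h1, h2⟩ := ZK49.max_pt hZ s hU.sm m
    obtain ⟨c, c1, c2⟩ := d y₀
    rw [abs_le] at c1
    rw [c2, hw.eq, hU.eq, mul_assoc, lg _ _ (by linarith), lg _ _ N0] at h2
    have h3 := lq c N (by linarith) (by linarith) (by linarith)
    have h4 := h1 y
    have h5 := (abs_le.1 (lip y₀)).1
    simp only [Pd.pb] at h4
    linarith
  · obtain ⟨s, m, d⟩ := key hBLK hPKT hUPK hUPS P (g := fun s => p * g s) (N := N + p * R / 4)
      (K := K) hH hα hw.sm hw.kae.toMet (contDiff_const.mul g0)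
      (fun s => (g2 p s).trans_eq (by rw [abs_of_nonneg hp, hK]; ring)) (by linarith)
    obtain ⟨y₀, h1, h2⟩ := ZK49.max_pt hZ hU.sm s hU.kae.toMet
    obtain ⟨c, c1, c2⟩ := d y₀
    rw [abs_le] at c1
    rw [c2, hw.eq, hU.eq, mul_assoc, lg _ _ (by linarith), lg c _ (by linarith)] at h2
    have h3 := lq N c (by linarith) (by linarith) (by linarith)
    have h4 := h1 y
    have h5 := (abs_le.1 (lip y₀)).2
    simp only [Pd.pb] at h4
    linarith

end Pool.Agent.Lib.ZE
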