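import Pool.Agent.Lib.ZE.Blue
import Pool.Agent.Lib.ZK.B_PSI

/-! Row TA2 of the project ze: the weighted tail estimate. -/

open scoped Classical Topology
open Set MeasureTheory Filter

noncomputable section

namespace Pool.Agent.Lib.ZE

open Pool.Agent.Lib.HS32
open Pool.Agent.Lib.ZK (ps Sol)

theorem zTA2 : St_TA2 := by
  intro n M _ H α p V B T η u a χ w S hp hH hu ha hχ hB hS hm hη hw
  obtain ⟨-, -, -, -, -, h6, -, -⟩ := ZK.st_PSI n M p T u a hp.le hu ha
  have hint : Integrable (fun x => Real.exp (w x - (ps M p u a T x + χ x))) (M.mu H) := by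
    by_contra h
    have h1 := hS.one
    rw [integral_undef h] at h1
    exact zero_ne_one h1
  have hi : Integrable (fun x => Real.exp (-χ x)) (M.mu H) :=
    (mMU n M H hH).2.2.2.2.1 _ _ hχ.neg.exp.continuous
  have hA : MeasurableSet {x | T ≤ u x - a x} :=
    (isClosed_le continuous_const (hu.sub ha).continuous).measurableSet
  have hle : ∀ x, {x | T ≤ u x - a x}.indicator (fun x => Real.exp (-χ x)) x ≤
      Real.exp (B + 1 + p) * Real.exp (-((p - 1) * T)) *
        Real.exp (w x - (ps M p u a T x + χ x)) + S.indicator (fun x => Real.exp (-χ x)) x := by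
    intro x
    have p1 : 0 ≤ Real.exp (B + 1 + p) * Real.exp (-((p - 1) * T)) *
        Real.exp (w x - (ps M p u a T x + χ x)) := by positivity
    have p2 : 0 ≤ S.indicator (fun x => Real.exp (-χ x)) x :=
      indicator_nonneg (fun y _ => (Real.exp_pos _).le) x
    by_cases hx : x ∈ {x | T ≤ u x - a x}
    · rw [indicator_of_mem hx]
      by_cases hs : x ∈ S
      · rw [indicator_of_mem hs]
        linarith
      · have hx' : T ≤ u x - a x := hx
        have h1 := (h6 x).2.2
        rw [max_eq_left (by linarith)] at h1
        have h2 := hw x hs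
        have h4 := hB x
        have h5 : Real.exp (-χ x) ≤ Real.exp (B + 1 + p) * Real.exp (-((p - 1) * T)) *
            Real.exp (w x - (ps M p u a T x + χ x)) := by
          rw [← Real.exp_add, ← Real.exp_add]
          exact Real.exp_le_exp.2 (by linarith)
        linarith
    · rw [indicator_of_notMem hx]
      linarith
  have h7 := integral_mono (hi.indicator hA) ((hint.const_mul _).add (hi.indicator hm)) hle
  simp only [Pi.add_apply] at h7
  rw [integral_add (hint.const_mul _) (hi.indicator hm), integral_const_mul, hS.one,
    integral_indicator hA, integral_indicator hm] at h7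
  linarith

end Pool.Agent.Lib.ZE
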