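import Pool.Agent.Lib.ZE.Blue
import Pool.Agent.Lib.ZE46.B_UPI

/-! Row UP2 of the project ze: upper bounds. -/

namespace Pool.Agent.Lib.ZE

theorem zUP2 : St_UP2 := ZE46.st_UPI

end Pool.Agent.Lib.ZE
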