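import Pool.Agent.Lib.ZE.SDefs
import Pool.Agent.Lib.ZE.Blue
import Pool.Agent.Lib.ZK47.Blue
import Pool.Agent.Lib.NV5.X_KXA
import Pool.Agent.Lib.RB.B_RBR

/-! Project ze, outer layer: the target statement and the blueprint. -/

open scoped Classical Topology ContDiff ComplexOrder Matrix ENNReal Manifold
open Set MeasureTheory Complex Metric Filter

noncomputable section

namespace Pool.Agent.Lib.ZE

open Pool.Agent.Lib.SV (E)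
open Pool.Agent.Lib.HS32
open Pool.Agent.Lib.HS (inChart)
open Pool.Agent.Lib.GH (Kaehler)
open Pool.Agent.Lib.ZL (PshOn)
open Pool.Agent.Lib.ZK47 (KltR Glue)

/-- The target. -/
def St_TOP : Prop := ∀ (n : ℕ) (X ι I J : Type) [TopologicalSpace X] [ChartedSpace (E n) X]
  [IsManifold 𝓘(ℂ, E n) ω X] [CompactSpace X] [T2Space X] [ConnectedSpace X] [Fintype I]
  [Fintype J] (G w : X → Mat n) (U : ι → Set X) (f : I → ι → X → ℂ) (u : I → ι → ι → X → ℂ)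
  (b : I → ℝ) (g : J → ι → X → ℂ) (v : J → ι → ι → X → ℂ) (a : J → ℝ),
  Kaehler G → BigForm n w → KltR n U f u b → Exc n w U g v a →
  NefW n G w U (Sum.elim u v) (Sum.elim b (-a)) →
  ∃ ψ : ι → X → EReal, Glue U (Sum.elim u v) (Sum.elim b (-a)) ψ ∧
    ∀ i, ∀ x ∈ U i, ∃ V ∈ 𝓝 (chartAt (E n) x x),
      PshOn (fun z => ψ i ((chartAt (E n) x).symm z) + (Real.log (inChart G x z).det.re : ℝ)) V ∧
      ∀ c : ℝ, 0 < c → ∫⁻ z in V, EReal.exp (-(c * ψ i ((chartAt (E n) x).symm z))) < ⊤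

/-- The zero set is negligible and the logarithm is integrable. -/
def St_SGK : Prop := ∀ (n : ℕ) (M : Mf n) [M.Cpt] (Θ : M.Fam (Mat n)) (σ : M.X → ℝ),
  DM.K63.Sg M σ Θ → DX.Sg M Θ σ

/-- The two uniform integrals. -/
def St_KL2 : Prop := ∀ (n : ℕ) (M : Mf n) [M.Cpt] (ι : Type) [Fintype ι] (H : M.Fam (Mat n))
  (Θ : ι → M.Fam (Mat n)) (σ : ι → M.X → ℝ) (κ : ι → ℝ) (c : ℝ), M.Met H →
  (∀ i, DM.K63.Sg M (σ i) (Θ i)) → 1 < c →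
  ∫⁻ x, ∏ i, ENNReal.ofReal (σ i x) ^ (-(c * max (-κ i) 0)) ∂M.mu H < ⊤ →
  ∃ q δ C : ℝ, 1 < q ∧ 0 < δ ∧ ∀ d ∈ Ioc (0 : ℝ) 1,
    ∫ x, Real.exp (q * ∑ i, κ i * DX.fl (σ i) d x) ∂M.mu H ≤ C ∧
    ∫ x, Real.exp (-(δ * ∑ i, κ i * DX.fl (σ i) d x)) ∂M.mu H ≤ C

/-- The norm of a holomorphic section, and the degree of an exceptional divisor. -/
def St_SGC : Prop := ∀ (n : ℕ) (M : Mf n) [M.Cpt] (L : M.Co) (f : M.Fam ℂ) (φ : M.Fam ℝ),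
  M.HSecC L f → M.WtC L φ → (∃ x, M.nrC φ f x ≠ 0) → DM.K63.Sg M (M.nrC φ f) (M.hw φ) ∧
    ∀ H β : M.Fam (Mat n), M.Kae H → M.Clo β → M.Le 0 β →
      (∀ x, ∃ e ∈ M.C, x ∈ e.source ∧ (f e (e x) = 0 → fderiv ℂ (f e) (e x) ≠ 0 ∧
        ∃ y ≠ 0, fderiv ℂ (f e) (e x) y = 0 ∧ β e (e x) *ᵥ y = 0)) →
      ∀ η > (0 : ℝ), ∀ᶠ ε in 𝓝[>] (0 : ℝ),
        ∫ x, M.tr (β + ε • H) (M.hw φ) x ∂M.mu (β + ε • H) ≤ η

/-- The form is closed and semi-positive in all charts. -/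
def St_BGF : Prop := ∀ (n : ℕ) (X : Type) [TopologicalSpace X] [ChartedSpace (E n) X]
  [IsManifold 𝓘(ℂ, E n) ω X] (w : X → Mat n), BigForm n w →
  (HS.BBR.mf n X).Clo (RB.R32.fam w) ∧ (HS.BBR.mf n X).Le 0 (RB.R32.fam w) ∧
    ∀ x : X, RB.R32.fam w (chartAt (M := X) (E n) x) (chartAt (M := X) (E n) x x) = w x

/-- The theorem on the manifold layer. -/
def St_MNC : Prop := ∀ (n : ℕ) (M : Mf n) [M.Cpt] (H β : M.Fam (Mat n)) (I : Type) [Fintype I]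
  (L : I → M.Co) (f : I → M.Fam ℂ) (φ : I → M.Fam ℝ) (b : I → ℝ) (c : ℝ), M.Kae H → M.Clo β →
  M.Le 0 β → (∃ e ∈ M.C, ∃ z ∈ e.target, (β e z).PosDef) → (∀ k, M.HSecC (L k) (f k)) →
  (∀ k, M.WtC (L k) (φ k)) → (∀ k, ∃ x, M.nrC (φ k) (f k) x ≠ 0) → 1 < c →
  (∀ x, ∃ e ∈ M.C, x ∈ e.source ∧ ∃ W ∈ 𝓝 (e x),
    ∫⁻ z in W, ∏ k, ‖f k e z‖ₑ ^ (-2 * (c * max (b k) 0)) < ⊤) →
  (∀ k, b k < 0 → ∀ x, ∃ e ∈ M.C, x ∈ e.source ∧ (f k e (e x) = 0 →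
    fderiv ℂ (f k e) (e x) ≠ 0 ∧ ∃ y ≠ 0, fderiv ℂ (f k e) (e x) y = 0 ∧ β e (e x) *ᵥ y = 0)) →
  (∀ ε > (0 : ℝ), ∃ (ψ : M.X → ℝ) (C : ℝ), 0 ≤ C ∧ M.Sm ψ ∧
    M.Le 0 ((fun e z => ∑ k, b k • M.hw (φ k) e z) - M.ric H + ε • β + M.hs ψ) ∧
    M.Le ((fun e z => ∑ k, b k • M.hw (φ k) e z) - M.ric H + ε • β + M.hs ψ) (C • β)) →
  ∃ a, ZK47.Out M H (fun e z => ∑ k, b k • M.hw (φ k) e z) a

end Pool.Agent.Lib.ZE
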