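import Pool.Agent.Lib.ZE.All2
import Pool.Agent.Lib.ZE.O_TOP
import Pool.Agent.Lib.ZE.O_MNC
import Pool.Agent.Lib.ZE.O_KL2
import Pool.Agent.Lib.ZE.O_SGK
import Pool.Agent.Lib.ZE.O_SGC
import Pool.Agent.Lib.ZE.O_BGF
import Pool.Agent.Lib.ZK47.B_LIMK

/-! Project ze: the target statement, without hypotheses. -/

namespace Pool.Agent.Lib.ZE

theorem aTOP : St_TOP := oTOP (oMNC ze2 oSGK oKL2 oSGC) oBGF ZK47.bLIMK

end Pool.Agent.Lib.ZE
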